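import Mathlib

set_option autoImplicit false
open MeasureTheory Set Filter Topology
open scoped ENNReal NNReal InnerProductSpace

namespace Pool.Agent.H7.Banach

noncomputable section

/-- the measure on [0,1] -/
abbrev mu : Measure ℝ := volume.restrict (Set.Icc (0:ℝ) 1)

instance : IsProbabilityMeasure mu := ⟨by simp [mu]⟩

abbrev H := Lp ℝ 2 mu

def Supp (f : H) (D : Set ℝ) : Prop := ∀ᵐ t ∂mu, t ∉ D → f t = 0

lemma Supp.mono {f : H} {D D' : Set ℝ} (h : Supp f D) (hD : D ⊆ D') : Supp f D' := by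
  filter_upwards [h] with t ht hD'
  exact ht (fun h => hD' (hD h))

lemma Supp.add {f g : H} {D : Set ℝ} (hf : Supp f D) (hg : Supp g D) : Supp (f + g) D := by
  filter_upwards [hf, hg, Lp.coeFn_add f g] with t h1 h2 h3 hD
  rw [h3, Pi.add_apply, h1 hD, h2 hD, add_zero]

lemma Supp.sub {f g : H} {D : Set ℝ} (hf : Supp f D) (hg : Supp g D) : Supp (f - g) D := by
  filter_upwards [hf, hg, Lp.coeFn_sub f g] with t h1 h2 h3 hD
  rw [h3, Pi.sub_apply, h1 hD, h2 hD, sub_zero]

lemma Supp.smul {f : H} {D : Set ℝ} (c : ℝ) (hf : Supp f D) : Supp (c • f) D := by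
  filter_upwards [hf, Lp.coeFn_smul c f] with t h1 h3 hD
  rw [h3, Pi.smul_apply, h1 hD, smul_zero]

lemma supp_zero (D : Set ℝ) : Supp 0 D := by
  filter_upwards [Lp.coeFn_zero ℝ 2 mu] with t h1 hD
  rw [h1]; rfl

lemma Supp.list_sum {D : Set ℝ} : ∀ (l : List H), (∀ f ∈ l, Supp f D) → Supp l.sum D
  | [], _ => by simpa using supp_zero D
  | a :: l, h => by
    rw [List.sum_cons]
    exact (h a (by simp)).add (Supp.list_sum l (fun f hf => h f (by simp [hf])))

lemma inner_eq (f g : H) : ⟪f, g⟫_ℝ = ∫ t, g t * f t ∂mu := by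
  rw [MeasureTheory.L2.inner_def]
  rfl

lemma inner_eq_zero_of_supp {f g : H} {D D' : Set ℝ} (hf : Supp f D) (hg : Supp g D')
    (h : Disjoint D D') : ⟪f, g⟫_ℝ = 0 := by
  rw [inner_eq]
  apply integral_eq_zero_of_ae
  filter_upwards [hf, hg] with t h1 h2
  by_cases ht : t ∈ D
  · have : t ∉ D' := fun h' => (Set.disjoint_left.mp h) ht h'
    simp [h2 this]
  · simp [h1 ht]

/-- multiplication by an indicator -/
def ind (D : Set ℝ) (hD : MeasurableSet D) : H →ₗ[ℝ] H where
  toFun f := ((Lp.memLp f).indicator hD).toLp _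
  map_add' f g := by
    apply Lp.ext
    filter_upwards [((Lp.memLp (f+g)).indicator hD).coeFn_toLp,
      ((Lp.memLp f).indicator hD).coeFn_toLp, ((Lp.memLp g).indicator hD).coeFn_toLp,
      Lp.coeFn_add f g, Lp.coeFn_add (((Lp.memLp f).indicator hD).toLp _)
        (((Lp.memLp g).indicator hD).toLp _)] with t h1 h2 h3 h4 h5
    rw [h5, Pi.add_apply, h1, h2, h3]
    by_cases ht : t ∈ D
    · simp only [Set.indicator_of_mem ht, h4, Pi.add_apply]
    · simp only [Set.indicator_of_notMem ht, add_zero]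
  map_smul' c f := by
    apply Lp.ext
    filter_upwards [((Lp.memLp (c • f)).indicator hD).coeFn_toLp,
      ((Lp.memLp f).indicator hD).coeFn_toLp,
      Lp.coeFn_smul c f, Lp.coeFn_smul c (((Lp.memLp f).indicator hD).toLp _)] with t h1 h2 h3 h4
    rw [RingHom.id_apply, h4, Pi.smul_apply, h1, h2]
    by_cases ht : t ∈ D
    · simp only [Set.indicator_of_mem ht, h3, Pi.smul_apply]
    · simp only [Set.indicator_of_notMem ht, smul_zero]

lemma coe_ind {D : Set ℝ} (hD : MeasurableSet D) (f : H) :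
    (ind D hD f : ℝ → ℝ) =ᵐ[mu] D.indicator f :=
  ((Lp.memLp f).indicator hD).coeFn_toLp

lemma supp_ind {D : Set ℝ} (hD : MeasurableSet D) (f : H) : Supp (ind D hD f) D := by
  filter_upwards [coe_ind hD f] with t h1 h2
  rw [h1]; simp [h2]

lemma inner_ind {D : Set ℝ} (hD : MeasurableSet D) (f g : H) :
    ⟪ind D hD f, g⟫_ℝ = ⟪f, ind D hD g⟫_ℝ := by
  rw [inner_eq, inner_eq]
  apply integral_congr_ae
  filter_upwards [coe_ind hD f, coe_ind hD g] with t h1 h2
  rw [h1, h2]
  by_cases ht : t ∈ D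
  · simp [ht]
  · simp [ht]

lemma ind_of_supp {D : Set ℝ} (hD : MeasurableSet D) {f : H} (h : Supp f D) :
    ind D hD f = f := by
  apply Lp.ext
  filter_upwards [coe_ind hD f, h] with t h1 h2
  rw [h1]
  by_cases ht : t ∈ D
  · simp [ht]
  · simp [ht, h2 ht]

/-- Rademacher functions -/
def rad (n : ℕ) (t : ℝ) : ℝ := (-1 : ℝ) ^ ⌊(2:ℝ)^(n+1) * t⌋

lemma rad_measurable (n : ℕ) : Measurable (rad n) := by
  unfold rad
  have h1 : Measurable (fun t : ℝ => ⌊(2:ℝ)^(n+1) * t⌋) :=
    Int.measurable_floor.comp (measurable_const_mul _)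
  exact (Measurable.of_discrete (f := fun k : ℤ => (-1:ℝ)^k)).comp h1

lemma rad_or (n : ℕ) (t : ℝ) : rad n t = 1 ∨ rad n t = -1 := by
  unfold rad
  rcases Int.even_or_odd ⌊(2:ℝ)^(n+1) * t⌋ with h | h
  · left; exact h.neg_one_zpow
  · right; exact h.neg_one_zpow

lemma rad_sq (n : ℕ) (t : ℝ) : rad n t * rad n t = 1 := by
  rcases rad_or n t with h | h <;> rw [h] <;> norm_num

lemma rad_shift (n m : ℕ) (h : n < m) (t : ℝ) :
    rad m (t + (1/2:ℝ)^(n+1)) = rad m t := by
  unfold rad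
  have h1 : (2:ℝ)^(m+1) * (t + (1/2)^(n+1)) = (2:ℝ)^(m+1) * t + ((2 * 2^(m-n-1) : ℤ) : ℝ) := by
    have : m + 1 = (n+1) + (m - n - 1) + 1 := by omega
    rw [mul_add]
    congr 1
    rw [this, pow_add, pow_add]
    push_cast
    have e : n + 1 + (m - n - 1) + 1 - n - 1 = m - n := by omega
    have e2 : (2:ℝ)^(n+1) * (1/2)^(n+1) = 1 := by rw [← mul_pow]; norm_num
    calc (2:ℝ)^(n+1) * 2^(m-n-1) * 2^1 * (1/2)^(n+1)
        = ((2:ℝ)^(n+1) * (1/2)^(n+1)) * (2^(m-n-1) * 2) := by ring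
      _ = 2 * 2^(m-n-1) := by rw [e2]; ring
  rw [h1, Int.floor_add_intCast, zpow_add₀ (by norm_num)]
  have : (-1:ℝ)^(2 * 2^(m-n-1) : ℤ) = 1 := (Even.neg_one_zpow (even_two_mul _))
  rw [this, mul_one]

lemma rad_anti (n : ℕ) (t : ℝ) : rad n (t + (1/2:ℝ)^(n+1)) = - rad n t := by
  unfold rad
  have h1 : (2:ℝ)^(n+1) * (t + (1/2)^(n+1)) = (2:ℝ)^(n+1) * t + ((1 : ℤ) : ℝ) := by
    have e2 : (2:ℝ)^(n+1) * (1/2)^(n+1) = 1 := by rw [← mul_pow]; norm_num
    rw [mul_add, e2]; norm_num
  rw [h1, Int.floor_add_intCast, zpow_add₀ (by norm_num)]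
  simp

lemma rad_periodic (n : ℕ) (t : ℝ) : rad n (t + 1) = rad n t := by
  unfold rad
  have h1 : (2:ℝ)^(n+1) * (t + 1) = (2:ℝ)^(n+1) * t + ((2 * 2^n : ℤ) : ℝ) := by
    push_cast; ring
  rw [h1, Int.floor_add_intCast, zpow_add₀ (by norm_num)]
  have : (-1:ℝ)^(2 * 2^n : ℤ) = 1 := (Even.neg_one_zpow (even_two_mul _))
  rw [this, mul_one]

lemma rad_int (n m : ℕ) (h : n < m) : ∫ t, rad n t * rad m t ∂mu = 0 := by
  have h0 : ∫ t, rad n t * rad m t ∂mu = ∫ t in (0:ℝ)..1, rad n t * rad m t := by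
    rw [intervalIntegral.integral_of_le (by norm_num), integral_Icc_eq_integral_Ioc]
  have hp : Function.Periodic (fun t => rad n t * rad m t) 1 := by
    intro t
    simp only [rad_periodic]
  have h1 := hp.intervalIntegral_add_eq (0:ℝ) ((1/2:ℝ)^(n+1))
  have h2 := intervalIntegral.integral_comp_add_right (a := 0) (b := 1)
    (fun t => rad n t * rad m t) ((1/2:ℝ)^(n+1))
  have h3 : ∫ t in (0:ℝ)..1, rad n (t + (1/2:ℝ)^(n+1)) * rad m (t + (1/2:ℝ)^(n+1))
      = - ∫ t in (0:ℝ)..1, rad n t * rad m t := by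
    rw [← intervalIntegral.integral_neg]
    apply intervalIntegral.integral_congr
    intro t _
    simp only [rad_anti, rad_shift n m h]
    ring
  rw [h3] at h2
  rw [show (0:ℝ) + (1/2:ℝ)^(n+1) = (1/2:ℝ)^(n+1) by ring,
    show (1:ℝ) + (1/2:ℝ)^(n+1) = (1/2:ℝ)^(n+1) + 1 by ring, ← h1] at h2
  rw [zero_add] at h2
  rw [h0]
  linarith

lemma rad_memLp (n : ℕ) : MemLp (rad n) 2 mu := by
  apply MemLp.of_bound (rad_measurable n).aestronglyMeasurable 1
  filter_upwards with t
  rcases rad_or n t with h | h <;> rw [h] <;> norm_num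

def radL (n : ℕ) : H := (rad_memLp n).toLp _

lemma radL_inner (n m : ℕ) : ⟪radL n, radL m⟫_ℝ = if n = m then 1 else 0 := by
  rw [inner_eq]
  have h1 : ∫ t, radL m t * radL n t ∂mu = ∫ t, rad n t * rad m t ∂mu := by
    apply integral_congr_ae
    filter_upwards [(rad_memLp n).coeFn_toLp, (rad_memLp m).coeFn_toLp] with t h1 h2
    unfold radL
    rw [h1, h2]; ring
  rw [h1]
  rcases lt_trichotomy n m with h | h | h
  · rw [rad_int n m h, if_neg h.ne]
  · subst h
    simp [rad_sq]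
  · rw [if_neg h.ne']
    rw [← rad_int m n h]
    congr 1
    ext t
    ring

lemma radL_orthonormal : Orthonormal ℝ radL := by
  rw [orthonormal_iff_ite]
  intro i j
  exact radL_inner i j

lemma radL_weak (f : H) : Tendsto (fun n => ⟪radL n, f⟫_ℝ) atTop (𝓝 0) := by
  have h1 := (radL_orthonormal.inner_products_summable f).tendsto_atTop_zero
  have h2 : Tendsto (fun n => Real.sqrt (‖⟪radL n, f⟫_ℝ‖^2)) atTop (𝓝 (Real.sqrt 0)) :=
    (Real.continuous_sqrt.tendsto _).comp h1
  rw [Real.sqrt_zero] at h2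
  rw [tendsto_zero_iff_norm_tendsto_zero]
  refine h2.congr (fun n => ?_)
  rw [Real.sqrt_sq (norm_nonneg _)]

/-- finite-dimensional projections of weakly null sequences tend to zero -/
lemma proj_tendsto (K : Submodule ℝ H) [FiniteDimensional ℝ K] (x : ℕ → H)
    (hx : ∀ f : H, Tendsto (fun n => ⟪x n, f⟫_ℝ) atTop (𝓝 0)) :
    Tendsto (fun n => ‖K.starProjection (x n)‖) atTop (𝓝 0) := by
  classical
  let b := stdOrthonormalBasis ℝ K
  have h1 : ∀ n, ‖K.starProjection (x n)‖ ≤ ∑ i, |⟪x n, (b i : H)⟫_ℝ| := by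
    intro n
    have h2 : K.starProjection (x n) = ∑ i, ⟪(b i : H), x n⟫_ℝ • (b i : H) := by
      have h3 := b.sum_repr' (K.orthogonalProjectionOnto (x n))
      have h4 : K.starProjection (x n) = ((K.orthogonalProjectionOnto (x n) : K) : H) := rfl
      rw [h4]
      conv_lhs => rw [← h3]
      rw [Submodule.coe_sum]
      apply Finset.sum_congr rfl
      intro i _
      rw [Submodule.coe_smul]
      congr 1
      rw [← Submodule.inner_orthogonalProjectionOnto_eq_of_mem_left (K := K) (b i) (x n)]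
    rw [h2]
    refine (norm_sum_le _ _).trans ?_
    apply Finset.sum_le_sum
    intro i _
    rw [norm_smul, real_inner_comm]
    have h5 : ‖(b i : H)‖ = 1 := b.orthonormal.1 i
    rw [h5, mul_one, Real.norm_eq_abs]
  have h2 : Tendsto (fun n => ∑ i, |⟪x n, (b i : H)⟫_ℝ|) atTop (𝓝 0) := by
    have : Tendsto (fun n => ∑ i, |⟪x n, (b i : H)⟫_ℝ|) atTop (𝓝 (∑ i : Fin (Module.finrank ℝ K), 0)) := by
      apply tendsto_finsetSum
      intro i _
      have := (hx (b i)).abs
      simpa using this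
    simpa using this
  exact squeeze_zero (fun n => norm_nonneg _) h1 h2

lemma norm_sq_eq (f : H) : ‖f‖^2 = ∫ t, f t * f t ∂mu := by
  rw [← inner_eq, real_inner_self_eq_norm_sq]

lemma cheb (f : H) (c : ℝ) (hc : 0 < c) :
    mu {t | c ≤ |f t|} ≤ ENNReal.ofReal (‖f‖^2 / c^2) := by
  have h1 : {t | c ≤ |f t|} = {t | c^2 ≤ f t * f t} := by
    ext t
    simp only [Set.mem_ofPred_eq]
    rw [← pow_two, ← sq_abs (f t)]
    constructor
    · intro h; exact pow_le_pow_left₀ hc.le h 2
    · intro h; exact le_of_sq_le_sq h (abs_nonneg _)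
  rw [h1]
  have h2 : Integrable (fun t => f t * f t) mu := by
    have := (Lp.memLp f).integrable_sq
    refine this.congr ?_
    filter_upwards with t
    ring
  have h3 := mul_meas_ge_le_integral_of_nonneg (μ := mu) (f := fun t => f t * f t)
    (Filter.Eventually.of_forall (fun t => mul_self_nonneg _)) h2 (c^2)
  rw [← norm_sq_eq] at h3
  rw [Measure.real] at h3
  rw [← ENNReal.ofReal_toReal (measure_ne_top mu {t | c^2 ≤ f t * f t})]
  apply ENNReal.ofReal_le_ofReal
  rw [le_div_iff₀ (by positivity)]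
  linarith

lemma node (D : Set ℝ) (hD : MeasurableSet D) (hpos : mu D ≠ 0) (E : Submodule ℝ H)
    [FiniteDimensional ℝ E] (ε : ℝ) (hε : 0 < ε) :
    ∃ (w : H) (P N B : Set ℝ), MeasurableSet P ∧ MeasurableSet N ∧ Disjoint P N ∧ P ∪ N = D ∧
      mu B ≤ ENNReal.ofReal ε ∧ Supp w D ∧ (∀ e ∈ E, ⟪w, e⟫_ℝ = 0) ∧ w ≠ 0 ∧
      ‖w‖^2 ≤ (mu D).toReal ∧
      (∀ᵐ t ∂mu, t ∉ B → (t ∈ P → 1/2 ≤ w t) ∧ (t ∈ N → w t ≤ -(1/2))) := by
  let x : ℕ → H := fun n => ind D hD (radL n)
  have hx : ∀ f : H, Tendsto (fun n => ⟪x n, f⟫_ℝ) atTop (𝓝 0) := by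
    intro f
    have := radL_weak (ind D hD f)
    refine this.congr (fun n => ?_)
    rw [← inner_ind]
  have hxt : ∀ n, ∀ᵐ t ∂mu, x n t = D.indicator (rad n) t := by
    intro n
    filter_upwards [coe_ind hD (radL n), (rad_memLp n).coeFn_toLp] with t h1 h2
    show (ind D hD (radL n) : ℝ → ℝ) t = _
    rw [h1]
    by_cases ht : t ∈ D
    · rw [Set.indicator_of_mem ht, Set.indicator_of_mem ht]; exact h2
    · rw [Set.indicator_of_notMem ht, Set.indicator_of_notMem ht]
  have hxn : ∀ n, ‖x n‖^2 = (mu D).toReal := by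
    intro n
    rw [norm_sq_eq]
    have h1 : ∫ t, x n t * x n t ∂mu = ∫ t, D.indicator (fun _ => (1:ℝ)) t ∂mu := by
      apply integral_congr_ae
      filter_upwards [hxt n] with t h1
      rw [h1]
      by_cases ht : t ∈ D
      · rw [Set.indicator_of_mem ht, Set.indicator_of_mem ht, rad_sq]
      · rw [Set.indicator_of_notMem ht, Set.indicator_of_notMem ht, mul_zero]
    rw [h1, integral_indicator hD]
    simp [Measure.real]
  have hDpos : 0 < (mu D).toReal := ENNReal.toReal_pos hpos (measure_ne_top _ _)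
  let K : Submodule ℝ H := E.map (ind D hD)
  have : FiniteDimensional ℝ K := by infer_instance
  have hK := proj_tendsto K x hx
  have hK2 : Tendsto (fun n => ‖K.starProjection (x n)‖^2) atTop (𝓝 0) := by
    have := hK.pow 2
    simpa using this
  obtain ⟨n, hn⟩ := (hK2.eventually (gt_mem_nhds
    (show (0:ℝ) < min (ε/4) (mu D).toReal from lt_min (by positivity) hDpos))).exists
  have hn1 : ‖K.starProjection (x n)‖^2 < ε/4 := lt_of_lt_of_le hn (min_le_left _ _)
  have hn2 : ‖K.starProjection (x n)‖^2 < (mu D).toReal := lt_of_lt_of_le hn (min_le_right _ _)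
  set q : H := K.starProjection (x n) with hq
  have hqK : q ∈ K := Submodule.starProjection_apply_mem K (x n)
  have hKs : ∀ k ∈ K, Supp k D := by
    rintro k ⟨e, he, rfl⟩
    exact supp_ind hD e
  have hwK : ∀ k ∈ K, ⟪x n - q, k⟫_ℝ = 0 := by
    intro k hk
    have := Submodule.sub_starProjection_mem_orthogonal (K := K) (x n)
    rw [real_inner_comm]
    exact (Submodule.mem_orthogonal K _).mp this k hk
  have hws : Supp (x n - q) D := (supp_ind hD _).sub (hKs q hqK)
  have hnorm : ‖x n‖^2 = ‖x n - q‖^2 + ‖q‖^2 := by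
    have h1 : x n = (x n - q) + q := by abel
    conv_lhs => rw [h1]
    rw [norm_add_sq_real, hwK q hqK]
    ring
  refine ⟨x n - q, D ∩ {t | rad n t = 1}, D ∩ {t | rad n t = -1}, {t | 1/2 ≤ |q t|},
    hD.inter ((rad_measurable n) (measurableSet_singleton _)),
    hD.inter ((rad_measurable n) (measurableSet_singleton _)), ?_, ?_, ?_, hws, ?_, ?_, ?_, ?_⟩
  · rw [Set.disjoint_left]
    rintro t ⟨_, h1⟩ ⟨_, h2⟩
    simp only [Set.mem_ofPred_eq] at h1 h2
    rw [h1] at h2
    norm_num at h2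
  · ext t
    constructor
    · rintro (h | h)
      · exact h.1
      · exact h.1
    · intro h
      rcases rad_or n t with h1 | h1
      · left; exact ⟨h, h1⟩
      · right; exact ⟨h, h1⟩
  · refine (cheb q (1/2) (by norm_num)).trans (ENNReal.ofReal_le_ofReal ?_)
    rw [div_le_iff₀ (by norm_num)]
    linarith
  · intro e he
    rw [← ind_of_supp hD hws, inner_ind]
    exact hwK _ (Submodule.mem_map_of_mem he)
  · intro h0
    have e := hxn n
    rw [hnorm, h0, norm_zero] at e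
    have e0 : (0:ℝ)^2 = 0 := by norm_num
    rw [e0, zero_add] at e
    linarith
  · rw [← hxn n, hnorm]
    nlinarith [sq_nonneg ‖q‖]
  · filter_upwards [hxt n, Lp.coeFn_sub (x n) q] with t h1 h2 hB
    simp only [Set.mem_ofPred_eq, not_le] at hB
    rw [h2, Pi.sub_apply, h1]
    have hB' := abs_lt.mp hB
    constructor
    · rintro ⟨h3, h4⟩
      rw [Set.indicator_of_mem h3]
      simp only [Set.mem_ofPred_eq] at h4
      rw [h4]; linarith
    · rintro ⟨h3, h4⟩
      rw [Set.indicator_of_mem h3]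
      simp only [Set.mem_ofPred_eq] at h4
      rw [h4]; linarith

lemma ae_list {p : H → ℝ → Prop} : ∀ (l : List H), (∀ a ∈ l, ∀ᵐ t ∂mu, p a t) →
    ∀ᵐ t ∂mu, ∀ a ∈ l, p a t
  | [], _ => by simp
  | a :: l, h => by
    filter_upwards [h a (by simp), ae_list l (fun b hb => h b (by simp [hb]))] with t h1 h2 b hb
    rcases List.mem_cons.mp hb with rfl | hb
    · exact h1
    · exact h2 b hb

lemma sum_zero_of {l : List H} {t : ℝ} (h : ∀ a ∈ l, (a : ℝ → ℝ) t = 0) :
    (l.map (fun w : H => w t)).sum = 0 := by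
  induction l with
  | nil => simp
  | cons a l ih =>
    simp only [List.map_cons, List.sum_cons]
    rw [h a (by simp), ih (fun b hb => h b (by simp [hb])), add_zero]

lemma tree (m : ℕ) : ∀ (D : Set ℝ) (_ : MeasurableSet D) (E : Submodule ℝ H)
    (_ : FiniteDimensional ℝ E) (ε : ℝ) (_ : 0 < ε), ∃ (ws : List H) (B : Set ℝ),
    ws.Pairwise (fun a b => ⟪a, b⟫_ℝ = 0) ∧
    (∀ w ∈ ws, (∀ e ∈ E, ⟪w, e⟫_ℝ = 0) ∧ Supp w D ∧ w ≠ 0) ∧
    (ws.map (fun w => ‖w‖^2)).sum ≤ m * (mu D).toReal ∧ mu B ≤ ENNReal.ofReal ε ∧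
    (∀ᵐ t ∂mu, t ∈ D → t ∉ B → ∃ T, T <+: ws ∧
      (T.map (fun w : H => w t)).sum ≤ ((ws.map (fun w : H => w t)).sum - m/2)/2) := by
  induction m with
  | zero =>
    intro D hD E _ ε hε
    refine ⟨[], ∅, by simp, by simp, by simp, by simp, ?_⟩
    filter_upwards with t _ _
    exact ⟨[], List.prefix_rfl, by simp⟩
  | succ m ih =>
    intro D hD E _ ε hε
    by_cases hpos : mu D = 0
    · refine ⟨[], ∅, by simp, by simp, by simp [hpos], by simp, ?_⟩
      filter_upwards [measure_eq_zero_iff_ae_notMem.mp hpos] with t ht hD _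
      exact absurd hD ht
    obtain ⟨w, P, N, B0, hP, hN, hPN, hU, hB0, hws, hwE, hw0, hwn, hwt⟩ :=
      node D hD hpos E (ε/3) (by positivity)
    have hE' : FiniteDimensional ℝ (E ⊔ Submodule.span ℝ {w} : Submodule ℝ H) := by
      infer_instance
    obtain ⟨wl, Bl, l1, l2, l3, l4, l5⟩ := ih P hP (E ⊔ Submodule.span ℝ {w}) hE' (ε/3)
      (by positivity)
    obtain ⟨wr, Br, r1, r2, r3, r4, r5⟩ := ih N hN (E ⊔ Submodule.span ℝ {w}) hE' (ε/3)
      (by positivity)
    have hwmem : w ∈ (E ⊔ Submodule.span ℝ {w} : Submodule ℝ H) :=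
      Submodule.mem_sup_right (Submodule.mem_span_singleton_self w)
    have hPD : P ⊆ D := by rw [← hU]; exact Set.subset_union_left
    have hND : N ⊆ D := by rw [← hU]; exact Set.subset_union_right
    refine ⟨wl ++ w :: wr, B0 ∪ Bl ∪ Br, ?_, ?_, ?_, ?_, ?_⟩
    · rw [List.pairwise_append]
      refine ⟨l1, ?_, ?_⟩
      · rw [List.pairwise_cons]
        refine ⟨fun a ha => ?_, r1⟩
        rw [real_inner_comm]
        exact (r2 a ha).1 w hwmem
      · intro a ha b hb
        rcases List.mem_cons.mp hb with rfl | hb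
        · exact (l2 a ha).1 _ hwmem
        · exact inner_eq_zero_of_supp (l2 a ha).2.1 (r2 b hb).2.1 hPN
    · intro a ha
      rcases List.mem_append.mp ha with ha | ha
      · exact ⟨fun e he => (l2 a ha).1 e (Submodule.mem_sup_left he), (l2 a ha).2.1.mono hPD,
          (l2 a ha).2.2⟩
      · rcases List.mem_cons.mp ha with rfl | ha
        · exact ⟨hwE, hws, hw0⟩
        · exact ⟨fun e he => (r2 a ha).1 e (Submodule.mem_sup_left he), (r2 a ha).2.1.mono hND,
            (r2 a ha).2.2⟩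
    · rw [List.map_append, List.sum_append, List.map_cons, List.sum_cons]
      have hm : (mu D).toReal = (mu P).toReal + (mu N).toReal := by
        rw [← hU, measure_union hPN hN, ENNReal.toReal_add (measure_ne_top _ _)
          (measure_ne_top _ _)]
      push_cast
      nlinarith
    · calc mu (B0 ∪ Bl ∪ Br) ≤ mu (B0 ∪ Bl) + mu Br := measure_union_le _ _
        _ ≤ mu B0 + mu Bl + mu Br := by gcongr; exact measure_union_le _ _
        _ ≤ ENNReal.ofReal (ε/3) + ENNReal.ofReal (ε/3) + ENNReal.ofReal (ε/3) := by gcongr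
        _ = ENNReal.ofReal ε := by
          rw [← ENNReal.ofReal_add (by positivity) (by positivity),
            ← ENNReal.ofReal_add (by positivity) (by positivity)]
          congr 1; ring
    · have hl0 : ∀ᵐ t ∂mu, ∀ a ∈ wl, t ∉ P → a t = 0 := ae_list wl (fun a ha => (l2 a ha).2.1)
      have hr0 : ∀ᵐ t ∂mu, ∀ a ∈ wr, t ∉ N → a t = 0 := ae_list wr (fun a ha => (r2 a ha).2.1)
      filter_upwards [hl0, hr0, l5, r5, hwt] with t h1 h2 h3 h4 h5 htD htB
      have hB0' : t ∉ B0 := fun h => htB (Or.inl (Or.inl h))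
      have hBl' : t ∉ Bl := fun h => htB (Or.inl (Or.inr h))
      have hBr' : t ∉ Br := fun h => htB (Or.inr h)
      rw [List.map_append, List.sum_append, List.map_cons, List.sum_cons]
      rw [← hU] at htD
      rcases htD with ht | ht
      · have htN : t ∉ N := fun h => (Set.disjoint_left.mp hPN) ht h
        obtain ⟨T, hT, hTs⟩ := h3 ht hBl'
        refine ⟨T, hT.trans (List.prefix_append _ _), ?_⟩
        rw [sum_zero_of (fun a ha => h2 a ha htN)]
        have := (h5 hB0').1 ht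
        push_cast
        linarith
      · have htP : t ∉ P := fun h => (Set.disjoint_left.mp hPN) h ht
        obtain ⟨T, hT, hTs⟩ := h4 ht hBr'
        refine ⟨wl ++ w :: T, ?_, ?_⟩
        · rw [List.prefix_append_right_inj]
          exact List.prefix_cons_inj w |>.mpr hT
        · rw [List.map_append, List.sum_append, List.map_cons, List.sum_cons]
          rw [sum_zero_of (fun a ha => h1 a ha htP)]
          have := (h5 hB0').2 ht
          push_cast
          linarith

end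

end Pool.Agent.H7.Banach
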