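import Mathlib
import Pool.Agent.H7.BanachA

set_option autoImplicit false
open MeasureTheory Set Filter Topology
open scoped ENNReal NNReal InnerProductSpace

namespace Pool.Agent.H7.Banach

noncomputable section

def ON (l : List H) : Prop := l.Pairwise (fun a b => ⟪a, b⟫_ℝ = 0) ∧ ∀ a ∈ l, ‖a‖ = 1

lemma inner_sum_zero {x : H} : ∀ {l : List H}, (∀ b ∈ l, ⟪x, b⟫_ℝ = 0) → ⟪x, l.sum⟫_ℝ = 0
  | [], _ => by simp
  | a :: l, h => by
    rw [List.sum_cons, inner_add_right, h a (by simp),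
      inner_sum_zero (fun b hb => h b (by simp [hb])), add_zero]

lemma inner_list_sum {x : H} : ∀ {l : List H}, l.Pairwise (fun a b => ⟪a, b⟫_ℝ = 0) → x ∈ l →
    ⟪x, l.sum⟫_ℝ = ‖x‖^2
  | [], _, h => by simp at h
  | a :: l, hp, h => by
    rw [List.pairwise_cons] at hp
    rw [List.sum_cons, inner_add_right]
    rcases List.mem_cons.mp h with rfl | hx
    · rw [inner_sum_zero hp.1, real_inner_self_eq_norm_sq, add_zero]
    · rw [inner_list_sum hp.2 hx, real_inner_comm, hp.1 x hx, zero_add]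

lemma norm_list_sum : ∀ {l : List H}, l.Pairwise (fun a b => ⟪a, b⟫_ℝ = 0) →
    ‖l.sum‖^2 = (l.map (fun w => ‖w‖^2)).sum
  | [], _ => by simp
  | a :: l, hp => by
    rw [List.pairwise_cons] at hp
    rw [List.sum_cons, norm_add_sq_real, inner_sum_zero hp.1, norm_list_sum hp.2, List.map_cons,
      List.sum_cons]
    ring

lemma coe_list_sum : ∀ (l : List H), ∀ᵐ t ∂mu, (l.sum : H) t = (l.map (fun w : H => w t)).sum
  | [] => by
    filter_upwards [Lp.coeFn_zero ℝ 2 mu] with t h1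
    simp only [List.sum_nil, List.map_nil]
    rw [h1]; rfl
  | a :: l => by
    filter_upwards [coe_list_sum l, Lp.coeFn_add a l.sum] with t h1 h2
    rw [List.sum_cons, h2, Pi.add_apply, h1, List.map_cons, List.sum_cons]

lemma list_sum_affine (T : List H) (t x k : ℝ) (y : ℝ) :
    (T.map (fun w : H => y * (w t * k - ‖w‖^2 * x))).sum =
      y * ((T.map (fun w : H => w t)).sum * k - (T.map (fun w => ‖w‖^2)).sum * x) := by
  induction T with
  | nil => simp
  | cons a T ih =>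
    simp only [List.map_cons, List.sum_cons]
    rw [ih]
    ring

lemma prefix_sum_le {T l : List H} (h : T <+: l) :
    0 ≤ (T.map (fun w => ‖w‖^2)).sum ∧
    (T.map (fun w => ‖w‖^2)).sum ≤ (l.map (fun w => ‖w‖^2)).sum := by
  obtain ⟨r, rfl⟩ := h
  rw [List.map_append, List.sum_append]
  have h1 : ∀ q : List H, 0 ≤ (q.map (fun w => ‖w‖^2)).sum := by
    intro q
    apply List.sum_nonneg
    intro x hx
    obtain ⟨w, _, rfl⟩ := List.mem_map.mp hx
    positivity
  exact ⟨h1 T, by linarith [h1 r]⟩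

lemma block (l : List H) (D : Set ℝ) (hD : MeasurableSet D) (hDpos : mu D ≠ 0)
    (h : H) (hh : ‖h‖ = 1) (hhl : ∀ a ∈ l, ⟪a, h⟫_ℝ = 0) (hhD : Supp h D)
    (V : Submodule ℝ H) [FiniteDimensional ℝ V] (L : ℝ) (hL : 0 ≤ L) (η : ℝ) (hη : 0 < η)
    (hη2 : ENNReal.ofReal η < mu D) :
    ∃ (ps : List H) (B : Set ℝ), ps ≠ [] ∧ ON ps ∧ (∀ a ∈ l, ∀ b ∈ ps, ⟪a, b⟫_ℝ = 0) ∧
      (∀ b ∈ ps, Supp b D) ∧ mu B ≤ ENNReal.ofReal η ∧
      ∀ᵐ t ∂mu, t ∈ D → t ∉ B → ∃ T, T <+: ps ∧ ∀ p ∈ V,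
        L * |⟪h, p⟫_ℝ| ≤ |(T.map (fun u : H => ⟪u, p⟫_ℝ * u t)).sum| := by
  classical
  set E : Submodule ℝ H := Submodule.span ℝ {a | a ∈ l} ⊔ V ⊔ Submodule.span ℝ {h} with hE
  have hfin : FiniteDimensional ℝ (Submodule.span ℝ {a | a ∈ l} : Submodule ℝ H) :=
    FiniteDimensional.span_of_finite ℝ (List.finite_toSet l)
  have hEfin : FiniteDimensional ℝ E := by rw [hE]; infer_instance
  have hEl : ∀ a ∈ l, a ∈ E := fun a ha =>
    Submodule.mem_sup_left (Submodule.mem_sup_left (Submodule.subset_span ha))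
  have hEV : ∀ a ∈ V, a ∈ E := fun a ha =>
    Submodule.mem_sup_left (Submodule.mem_sup_right ha)
  have hEh : h ∈ E := Submodule.mem_sup_right (Submodule.mem_span_singleton_self h)
  set K : ℝ := 2 / Real.sqrt η with hK
  have hsη : 0 < Real.sqrt η := Real.sqrt_pos.mpr hη
  have hKpos : 0 < K := by positivity
  have hK2 : 1 / K^2 = η/4 := by
    rw [hK, div_pow, Real.sq_sqrt hη.le]
    field_simp
    norm_num
  obtain ⟨m, hm⟩ := exists_nat_ge ((4 * (L + 5/2*K))^2)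
  have hLK : 0 < 4 * (L + 5/2*K) := by positivity
  have hmpos : (0:ℝ) < m := lt_of_lt_of_le (by positivity) hm
  obtain ⟨ws, B, w1, w2, w3, w4, w5⟩ := tree m D hD E hEfin (η/2) (by positivity)
  -- ws nonempty
  have hne : ws ≠ [] := by
    rintro rfl
    have h1 : ∀ᵐ t ∂mu, t ∉ D \ B := by
      filter_upwards [w5] with t h2 h3
      obtain ⟨T, hT, hTs⟩ := h2 h3.1 h3.2
      rw [List.prefix_nil] at hT
      subst hT
      simp at hTs
      linarith
    have h2 : mu (D \ B) = 0 := measure_eq_zero_iff_ae_notMem.mpr h1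
    have h3 : mu D ≤ mu (D \ B) + mu B := by
      refine (measure_mono ?_).trans (measure_union_le _ _)
      intro x hx
      by_cases hxB : x ∈ B
      · exact Or.inr hxB
      · exact Or.inl ⟨hx, hxB⟩
    rw [h2, zero_add] at h3
    have h4 : mu D ≤ ENNReal.ofReal η := h3.trans (w4.trans (ENNReal.ofReal_le_ofReal (by linarith)))
    exact absurd hη2 (not_lt.mpr h4)
  have hsum := norm_list_sum w1
  set W : H := ws.sum with hW
  have hWpos : 0 < ‖W‖ := by
    rw [norm_pos_iff]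
    intro h0
    rw [h0] at hsum
    obtain ⟨w, ws', rfl⟩ := List.exists_cons_of_ne_nil hne
    rw [List.map_cons, List.sum_cons] at hsum
    have h1 : w ≠ 0 := (w2 w (by simp)).2.2
    have h2 : 0 < ‖w‖ := norm_pos_iff.mpr h1
    have h3 := (prefix_sum_le (List.prefix_refl ws')).1
    simp only [norm_zero] at hsum
    nlinarith
  set c : ℝ := ‖W‖ with hc
  have hcm : c^2 ≤ m := by
    rw [hsum]
    refine w3.trans ?_
    have h1 : (mu D).toReal ≤ 1 := by
      have := prob_le_one (μ := mu) (s := D)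
      exact ENNReal.toReal_le_of_le_ofReal zero_le_one (by simpa using this)
    nlinarith
  have hcL : L + 5/2*K ≤ m / (4*c) := by
    rw [le_div_iff₀ (by positivity)]
    have hs : Real.sqrt m ^ 2 = m := Real.sq_sqrt hmpos.le
    have hs1 : c ≤ Real.sqrt m := Real.le_sqrt_of_sq_le hcm
    have hs2 : 4 * (L + 5/2*K) ≤ Real.sqrt m := Real.le_sqrt_of_sq_le hm
    nlinarith [Real.sqrt_nonneg (m:ℝ)]
  set G : H := c⁻¹ • W with hG
  have hGn : ⟪G, G⟫_ℝ = 1 := by
    rw [hG, real_inner_self_eq_norm_sq, norm_smul, norm_inv, Real.norm_of_nonneg hWpos.le, ← hc,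
      inv_mul_cancel₀ hWpos.ne']
    norm_num
  have hwh : ∀ w ∈ ws, ⟪w, h⟫_ℝ = 0 := fun w hw => (w2 w hw).1 h hEh
  have hEG : ∀ e ∈ E, ⟪e, G⟫_ℝ = 0 := by
    intro e he
    rw [hG, inner_smul_right, inner_sum_zero, mul_zero]
    intro b hb
    rw [real_inner_comm]
    exact (w2 b hb).1 e he
  have hwG : ∀ w ∈ ws, ⟪w, G⟫_ℝ = ‖w‖^2 / c := by
    intro w hw
    rw [hG, inner_smul_right, inner_list_sum w1 hw]
    field_simp
  have hGD : Supp G D := (Supp.list_sum ws (fun w hw => (w2 w hw).2.1)).smul _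
  let f : H → H := fun w => ‖w‖⁻¹ • w - (‖w‖/c) • (G - h)
  have hff : ∀ a ∈ ws, ∀ b ∈ ws, ⟪f a, f b⟫_ℝ = ‖a‖⁻¹ * ‖b‖⁻¹ * ⟪a, b⟫_ℝ := by
    intro a ha b hb
    have ha0 : ‖a‖ ≠ 0 := norm_ne_zero_iff.mpr (w2 a ha).2.2
    have hb0 : ‖b‖ ≠ 0 := norm_ne_zero_iff.mpr (w2 b hb).2.2
    show ⟪‖a‖⁻¹ • a - (‖a‖/c) • (G - h), ‖b‖⁻¹ • b - (‖b‖/c) • (G - h)⟫_ℝ = _
    simp only [inner_sub_left, inner_sub_right, inner_smul_left, inner_smul_right,
      RCLike.conj_to_real]
    rw [hwG a ha, hwh a ha, real_inner_comm b G, hwG b hb, real_inner_comm b h, hwh b hb, hGn,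
      hEG h hEh, real_inner_comm h G, hEG h hEh, real_inner_self_eq_norm_sq h, hh]
    field_simp
    ring
  refine ⟨ws.map f, B ∪ {t | K ≤ |G t|} ∪ {t | K ≤ |h t|}, ?_, ⟨?_, ?_⟩, ?_, ?_, ?_, ?_⟩
  · simpa using hne
  · rw [List.pairwise_map]
    refine List.Pairwise.imp_of_mem ?_ w1
    intro a b ha hb hab
    rw [hff a ha b hb, hab, mul_zero]
  · intro u hu
    obtain ⟨a, ha, rfl⟩ := List.mem_map.mp hu
    have ha0 : ‖a‖ ≠ 0 := norm_ne_zero_iff.mpr (w2 a ha).2.2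
    have h1 := hff a ha a ha
    rw [real_inner_self_eq_norm_sq, real_inner_self_eq_norm_sq] at h1
    have h2 : ‖f a‖^2 = 1 := by rw [h1]; field_simp
    nlinarith [norm_nonneg (f a)]
  · intro a ha u hu
    obtain ⟨b, hb, rfl⟩ := List.mem_map.mp hu
    show ⟪a, ‖b‖⁻¹ • b - (‖b‖/c) • (G - h)⟫_ℝ = 0
    simp only [inner_sub_right, inner_smul_right]
    rw [real_inner_comm, (w2 b hb).1 a (hEl a ha), hEG a (hEl a ha), hhl a ha]
    ring
  · intro u hu
    obtain ⟨b, hb, rfl⟩ := List.mem_map.mp hu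
    exact ((w2 b hb).2.1.smul _).sub ((hGD.sub hhD).smul _)
  · calc mu (B ∪ {t | K ≤ |G t|} ∪ {t | K ≤ |h t|})
        ≤ mu (B ∪ {t | K ≤ |G t|}) + mu {t | K ≤ |h t|} := measure_union_le _ _
      _ ≤ mu B + mu {t | K ≤ |G t|} + mu {t | K ≤ |h t|} := by gcongr; exact measure_union_le _ _
      _ ≤ ENNReal.ofReal (η/2) + ENNReal.ofReal (η/4) + ENNReal.ofReal (η/4) := by
        gcongr
        · refine (cheb G K hKpos).trans (ENNReal.ofReal_le_ofReal ?_)
          rw [← real_inner_self_eq_norm_sq, hGn, hK2]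
        · refine (cheb h K hKpos).trans (ENNReal.ofReal_le_ofReal ?_)
          rw [hh, one_pow, hK2]
      _ = ENNReal.ofReal η := by
          rw [← ENNReal.ofReal_add (by positivity) (by positivity),
            ← ENNReal.ofReal_add (by positivity) (by positivity)]
          congr 1; ring
  · have hft : ∀ᵐ t ∂mu, ∀ w ∈ ws, (f w : ℝ → ℝ) t = ‖w‖⁻¹ * w t - (‖w‖/c) * (G t - h t) := by
      apply ae_list
      intro w hw
      filter_upwards [Lp.coeFn_sub (‖w‖⁻¹ • w) ((‖w‖/c) • (G - h)), Lp.coeFn_smul (‖w‖⁻¹) w,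
        Lp.coeFn_smul (‖w‖/c) (G - h), Lp.coeFn_sub G h] with t h1 h2 h3 h4
      show ((‖w‖⁻¹ • w - (‖w‖/c) • (G - h) : H) : ℝ → ℝ) t = _
      rw [h1, Pi.sub_apply, h2, h3, Pi.smul_apply, Pi.smul_apply, h4, Pi.sub_apply, smul_eq_mul,
        smul_eq_mul]
    filter_upwards [hft, w5, coe_list_sum ws, Lp.coeFn_smul c⁻¹ W] with t t1 t2 t3 t4 tD tB
    have hB1 : t ∉ B := fun h => tB (Or.inl (Or.inl h))
    have hB2 : |G t| < K := by
      by_contra hcon
      exact tB (Or.inl (Or.inr (not_lt.mp hcon)))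
    have hB3 : |h t| < K := by
      by_contra hcon
      exact tB (Or.inr (not_lt.mp hcon))
    obtain ⟨T, hT, hTs⟩ := t2 tD hB1
    refine ⟨T.map f, hT.map f, ?_⟩
    intro p hp
    have hGt : G t = (ws.map (fun w : H => w t)).sum * c⁻¹ := by
      rw [hG, t4, Pi.smul_apply, smul_eq_mul, hW, t3, mul_comm]
    have e1 : ((T.map f).map (fun u : H => ⟪u, p⟫_ℝ * u t)).sum =
        ⟪h, p⟫_ℝ * ((T.map (fun w : H => w t)).sum * c⁻¹ -
          (T.map (fun w => ‖w‖^2)).sum * ((G t - h t) / c^2)) := by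
      rw [← list_sum_affine, List.map_map]
      congr 1
      apply List.map_congr_left
      intro w hw
      have hw' : w ∈ ws := hT.subset hw
      have hw0 : ‖w‖ ≠ 0 := norm_ne_zero_iff.mpr (w2 w hw').2.2
      have h5 : ⟪f w, p⟫_ℝ = (‖w‖/c) * ⟪h, p⟫_ℝ := by
        show ⟪‖w‖⁻¹ • w - (‖w‖/c) • (G - h), p⟫_ℝ = _
        simp only [inner_sub_left, inner_smul_left, RCLike.conj_to_real]
        rw [(w2 w hw').1 p (hEV p hp), real_inner_comm p G, hEG p (hEV p hp)]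
        ring
      rw [Function.comp_apply, h5, t1 w hw']
      field_simp
    rw [e1, abs_mul, mul_comm L]
    apply mul_le_mul_of_nonneg_left _ (abs_nonneg _)
    rw [le_abs]
    right
    obtain ⟨q1, q2⟩ := prefix_sum_le hT
    rw [← hsum] at q2
    have q3 : |(T.map (fun w => ‖w‖^2)).sum * ((G t - h t) / c^2)| ≤ |G t - h t| := by
      rw [abs_mul, abs_div, abs_of_nonneg q1, abs_of_nonneg (sq_nonneg c)]
      rw [mul_div_assoc', div_le_iff₀ (by positivity), mul_comm]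
      exact mul_le_mul_of_nonneg_left q2 (abs_nonneg _)
    have q4 : |G t - h t| ≤ |G t| + |h t| := abs_sub _ _
    have q5 : (T.map (fun w : H => w t)).sum * c⁻¹ ≤ (G t - (m:ℝ)/2 * c⁻¹) / 2 := by
      rw [hGt]
      have := mul_le_mul_of_nonneg_right hTs (inv_nonneg.mpr hWpos.le)
      refine this.trans (le_of_eq ?_)
      ring
    have q6 : (m:ℝ)/2 * c⁻¹ / 2 = m / (4*c) := by field_simp; norm_num
    have q7 := neg_abs_le ((T.map (fun w => ‖w‖^2)).sum * ((G t - h t) / c^2))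
    have q8 := le_abs_self (G t)
    have q9 : (T.map (fun w : H => w t)).sum * c⁻¹ ≤ G t / 2 - m / (4*c) := by
      rw [← q6]; linarith
    linarith

end

end Pool.Agent.H7.Banach
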