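import Mathlib
import Pool.Agent.H7.BanachB

set_option autoImplicit false
open MeasureTheory Set Filter Topology
open scoped ENNReal NNReal InnerProductSpace

namespace Pool.Agent.H7.Banach

noncomputable section

lemma ext_list (l : List H) (hl : ON l) (D : Set ℝ) (hlD : ∀ a ∈ l, Supp a D) (v : H)
    (hv : Supp v D) : ∃ l' : List H, l <+: l' ∧ ON l' ∧ (∀ a ∈ l', Supp a D) ∧
      v ∈ Submodule.span ℝ {a | a ∈ l'} := by
  have hfin : FiniteDimensional ℝ (Submodule.span ℝ {a | a ∈ l} : Submodule ℝ H) :=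
    FiniteDimensional.span_of_finite ℝ (List.finite_toSet l)
  set K : Submodule ℝ H := Submodule.span ℝ {a | a ∈ l} with hK
  set q : H := K.starProjection v with hq
  have hqK : q ∈ K := Submodule.starProjection_apply_mem K v
  have hKs : ∀ k ∈ K, Supp k D := by
    intro k hk
    refine Submodule.span_induction (p := fun x _ => Supp x D) ?_ ?_ ?_ ?_ hk
    · intro x hx; exact hlD x hx
    · exact supp_zero D
    · intro x y _ _ hx hy; exact hx.add hy
    · intro a x _ hx; exact hx.smul a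
  have hwK : ∀ k ∈ K, ⟪k, v - q⟫_ℝ = 0 := by
    intro k hk
    have := Submodule.sub_starProjection_mem_orthogonal (K := K) v
    exact (Submodule.mem_orthogonal K _).mp this k hk
  by_cases h0 : v - q = 0
  · refine ⟨l, List.prefix_refl l, hl, hlD, ?_⟩
    rw [sub_eq_zero.mp h0]
    exact hqK
  · have hn : ‖v - q‖ ≠ 0 := norm_ne_zero_iff.mpr h0
    refine ⟨l ++ [‖v - q‖⁻¹ • (v - q)], List.prefix_append _ _, ⟨?_, ?_⟩, ?_, ?_⟩
    · rw [List.pairwise_append]
      refine ⟨hl.1, by simp, ?_⟩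
      intro a ha b hb
      rw [List.mem_singleton] at hb
      subst hb
      rw [inner_smul_right, hwK a (Submodule.subset_span ha), mul_zero]
    · intro a ha
      rcases List.mem_append.mp ha with ha | ha
      · exact hl.2 a ha
      · rw [List.mem_singleton] at ha
        subst ha
        rw [norm_smul, norm_inv, norm_norm, inv_mul_cancel₀ hn]
    · intro a ha
      rcases List.mem_append.mp ha with ha | ha
      · exact hlD a ha
      · rw [List.mem_singleton] at ha
        subst ha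
        exact (hv.sub (hKs q hqK)).smul _
    · have h1 : v = q + ‖v - q‖ • (‖v - q‖⁻¹ • (v - q)) := by
        rw [smul_smul, mul_inv_cancel₀ hn, one_smul]; abel
      have h2 : K ≤ Submodule.span ℝ {a | a ∈ l ++ [‖v - q‖⁻¹ • (v - q)]} := by
        apply Submodule.span_mono
        intro a ha
        exact List.mem_append_left _ ha
      have h3 : ‖v - q‖⁻¹ • (v - q) ∈ Submodule.span ℝ {a | a ∈ l ++ [‖v - q‖⁻¹ • (v - q)]} :=
        Submodule.subset_span (List.mem_append_right l (List.mem_singleton_self _))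
      have h4 := Submodule.add_mem _ (h2 hqK) (Submodule.smul_mem _ (‖v - q‖) h3)
      rw [← h1] at h4
      exact h4

/-- the sets -/
def Dn (j : ℕ) : Set ℝ := Set.Ici ((1/2:ℝ)^j)

lemma Dn_meas (j : ℕ) : MeasurableSet (Dn j) := measurableSet_Ici

lemma Dn_mono {j k : ℕ} (h : j ≤ k) : Dn j ⊆ Dn k := by
  intro t ht
  have h1 : (1/2:ℝ)^k ≤ (1/2:ℝ)^j := pow_le_pow_of_le_one (by norm_num) (by norm_num) h
  exact le_trans h1 ht

lemma mu_Dn (j : ℕ) : mu (Dn j) = ENNReal.ofReal (1 - (1/2)^j) := by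
  rw [Measure.restrict_apply (Dn_meas j)]
  have h1 : Dn j ∩ Set.Icc (0:ℝ) 1 = Set.Icc ((1/2:ℝ)^j) 1 := by
    ext t
    simp only [Dn, Set.mem_inter_iff, Set.mem_Ici, Set.mem_Icc]
    constructor
    · rintro ⟨h1, h2, h3⟩; exact ⟨h1, h3⟩
    · rintro ⟨h1, h2⟩
      exact ⟨h1, le_trans (by positivity) h1, h2⟩
  rw [h1, Real.volume_Icc]

def An (j : ℕ) : Set ℝ := Set.Ico ((1/2:ℝ)^(j+1)) ((1/2:ℝ)^j)

lemma An_meas (j : ℕ) : MeasurableSet (An j) := measurableSet_Ico

lemma mu_An (j : ℕ) : mu (An j) = ENNReal.ofReal ((1/2)^(j+1)) := by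
  rw [Measure.restrict_apply (An_meas j)]
  have h1 : An j ∩ Set.Icc (0:ℝ) 1 = An j := by
    apply Set.inter_eq_left.mpr
    intro t ht
    refine ⟨le_trans (by positivity) ht.1, le_trans ht.2.le ?_⟩
    exact pow_le_one₀ (by norm_num) (by norm_num)
  rw [h1, An, Real.volume_Ico]
  congr 1
  ring

lemma An_sub (j : ℕ) : An j ⊆ Dn (j+1) := fun t ht => ht.1

lemma An_disj (j : ℕ) : Disjoint (Dn j) (An j) := by
  rw [Set.disjoint_left]
  intro t h1 h2
  exact absurd h2.2 (not_lt.mpr h1)

def cn (j : ℕ) : ℝ := (Real.sqrt ((1/2:ℝ)^(j+1)))⁻¹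

lemma hn_memLp (j : ℕ) : MemLp ((An j).indicator (fun _ => cn j)) 2 mu :=
  (memLp_const (cn j)).indicator (An_meas j)

def hn (j : ℕ) : H := (hn_memLp j).toLp _

lemma hn_norm (j : ℕ) : ‖hn j‖ = 1 := by
  have h0 : ‖hn j‖^2 = 1 := by
    rw [norm_sq_eq]
    have h1 : ∫ t, hn j t * hn j t ∂mu = ∫ t, (An j).indicator (fun _ => cn j * cn j) t ∂mu := by
      apply integral_congr_ae
      filter_upwards [(hn_memLp j).coeFn_toLp] with t h1
      unfold hn
      rw [h1]
      by_cases ht : t ∈ An j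
      · rw [Set.indicator_of_mem ht, Set.indicator_of_mem ht]
      · rw [Set.indicator_of_notMem ht, Set.indicator_of_notMem ht, mul_zero]
    rw [h1, integral_indicator (An_meas j), integral_const, Measure.real,
      Measure.restrict_apply MeasurableSet.univ, Set.univ_inter, mu_An,
      ENNReal.toReal_ofReal (by positivity), smul_eq_mul]
    unfold cn
    rw [← mul_inv, Real.mul_self_sqrt (by positivity)]
    exact mul_inv_cancel₀ (by positivity)
  nlinarith [norm_nonneg (hn j)]

lemma hn_supp (j : ℕ) : Supp (hn j) (An j) := by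
  filter_upwards [(hn_memLp j).coeFn_toLp] with t h1 h2
  unfold hn
  rw [h1, Set.indicator_of_notMem h2]

/-- polynomials -/
lemma poly_memLp (p : Polynomial ℝ) : MemLp (fun t => p.eval t) 2 mu := by
  obtain ⟨C, hC⟩ := (isCompact_Icc (a := (0:ℝ)) (b := 1)).exists_bound_of_continuousOn
    (p.continuous.continuousOn)
  apply MemLp.of_bound p.continuous.aestronglyMeasurable C
  rw [ae_restrict_iff' measurableSet_Icc]
  filter_upwards with t ht
  exact hC t ht

def pl : Polynomial ℝ →ₗ[ℝ] H where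
  toFun p := (poly_memLp p).toLp _
  map_add' p q := by
    apply Lp.ext
    filter_upwards [(poly_memLp (p+q)).coeFn_toLp, (poly_memLp p).coeFn_toLp,
      (poly_memLp q).coeFn_toLp, Lp.coeFn_add ((poly_memLp p).toLp _) ((poly_memLp q).toLp _)]
      with t h1 h2 h3 h4
    rw [h4, Pi.add_apply, h1, h2, h3, Polynomial.eval_add]
  map_smul' c p := by
    apply Lp.ext
    filter_upwards [(poly_memLp (c • p)).coeFn_toLp, (poly_memLp p).coeFn_toLp,
      Lp.coeFn_smul c ((poly_memLp p).toLp _)] with t h1 h2 h3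
    rw [RingHom.id_apply, h3, Pi.smul_apply, h1, h2, Polynomial.eval_smul]

def Vn (j : ℕ) : Submodule ℝ H := (Polynomial.degreeLT ℝ j).map pl

instance (j : ℕ) : FiniteDimensional ℝ (Vn j) := by
  have : FiniteDimensional ℝ (Polynomial.degreeLT ℝ j) :=
    Module.Finite.equiv (Polynomial.degreeLTEquiv ℝ j).symm
  unfold Vn
  infer_instance

lemma pl_mem (p : Polynomial ℝ) (j : ℕ) (h : p.natDegree < j) : pl p ∈ Vn j := by
  apply Submodule.mem_map_of_mem
  rw [Polynomial.mem_degreeLT]
  exact lt_of_le_of_lt Polynomial.degree_le_natDegree (by exact_mod_cast h)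

def Ln (j : ℕ) : ℝ := ((2:ℝ)^(j+1))^j

lemma inner_hn (j : ℕ) (p : Polynomial ℝ) :
    ⟪hn j, pl p⟫_ℝ = cn j * ∫ t in An j, p.eval t := by
  rw [inner_eq]
  have h1 : ∫ t, pl p t * hn j t ∂mu = ∫ t, (An j).indicator (fun t => cn j * p.eval t) t ∂mu := by
    apply integral_congr_ae
    filter_upwards [(hn_memLp j).coeFn_toLp, (poly_memLp p).coeFn_toLp] with t h1 h2
    show ((poly_memLp p).toLp _ : ℝ → ℝ) t * ((hn_memLp j).toLp _ : ℝ → ℝ) t = _
    rw [h1, h2]
    by_cases ht : t ∈ An j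
    · rw [Set.indicator_of_mem ht, Set.indicator_of_mem ht, mul_comm]
    · rw [Set.indicator_of_notMem ht, Set.indicator_of_notMem ht, mul_zero]
  rw [h1, integral_indicator (An_meas j), ← integral_const_mul]
  rw [Measure.restrict_restrict (An_meas j)]
  have h2 : An j ∩ Set.Icc (0:ℝ) 1 = An j := by
    apply Set.inter_eq_left.mpr
    intro t ht
    refine ⟨le_trans (by positivity) ht.1, le_trans ht.2.le ?_⟩
    exact pow_le_one₀ (by norm_num) (by norm_num)
  rw [h2]

lemma growth (p : Polynomial ℝ) (hp : p ≠ 0) : ∀ᶠ j in atTop, 1 ≤ Ln j * |⟪hn j, pl p⟫_ℝ| := by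
  obtain ⟨q, hq, hq0⟩ := Polynomial.exists_eq_pow_rootMultiplicity_mul_and_not_dvd p hp 0
  set d := p.rootMultiplicity 0 with hd
  have hq0' : q.eval 0 ≠ 0 := by
    intro h
    apply hq0
    rw [Polynomial.dvd_iff_isRoot]
    exact h
  set a : ℝ := q.eval 0 with ha
  have hapos : 0 < |a| := abs_pos.mpr hq0'
  have h1 : ∀ᶠ t in 𝓝 (0:ℝ), |q.eval t - a| < |a|/2 := by
    have : Tendsto (fun t => |q.eval t - a|) (𝓝 0) (𝓝 |a - a|) := by
      have hc : Continuous (fun t => |q.eval t - a|) := (q.continuous.sub continuous_const).abs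
      exact hc.tendsto 0
    rw [sub_self, abs_zero] at this
    exact this.eventually (gt_mem_nhds (by positivity))
  obtain ⟨δ, hδ, h2⟩ := Metric.eventually_nhds_iff.mp h1
  have h3 : ∀ᶠ j : ℕ in atTop, (1/2:ℝ)^j < δ := by
    have := tendsto_pow_atTop_nhds_zero_of_lt_one (r := (1/2:ℝ)) (by norm_num) (by norm_num)
    exact this.eventually (gt_mem_nhds hδ)
  have h4 : ∀ᶠ j : ℕ in atTop, 2/|a| ≤ (2:ℝ)^(j+1) := by
    have := (tendsto_pow_atTop_atTop_of_one_lt (r := (2:ℝ)) (by norm_num)).comp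
      (tendsto_add_atTop_nat 1)
    exact this.eventually_ge_atTop _
  filter_upwards [h3, h4, eventually_ge_atTop (d+2)] with j hj1 hj2 hj3
  rw [inner_hn]
  have hc1 : 1 ≤ cn j := by
    unfold cn
    apply (one_le_inv₀ (by positivity)).mpr
    rw [Real.sqrt_le_one]
    exact pow_le_one₀ (by norm_num) (by norm_num)
  -- lower bound on integral
  have hpt : ∀ t ∈ An j, ((1/2:ℝ)^(j+1))^d * (|a|/2) ≤ (SignType.sign a : ℝ) * p.eval t := by
    intro t ht
    have ht0 : 0 < t := lt_of_lt_of_le (by positivity) ht.1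
    have htd : dist t 0 < δ := by
      rw [Real.dist_eq, sub_zero, abs_of_pos ht0]
      exact ht.2.trans hj1
    have h5 := h2 htd
    have h6 : |a|/2 ≤ (SignType.sign a : ℝ) * q.eval t := by
      rcases lt_or_gt_of_ne hq0' with hneg | hpos
      · rw [sign_neg hneg]
        rw [abs_of_neg hneg] at h5 ⊢
        have := (abs_lt.mp h5).2
        simp
        linarith
      · rw [sign_pos hpos]
        rw [abs_of_pos hpos] at h5 ⊢
        have := (abs_lt.mp h5).1
        simp
        linarith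
    have h7 : p.eval t = t^d * q.eval t := by
      rw [hq]
      simp
    rw [h7, mul_left_comm]
    apply mul_le_mul _ h6 (by positivity) (by positivity)
    exact pow_le_pow_left₀ (by positivity) ht.1 d
  have hint : IntegrableOn (fun t => (SignType.sign a : ℝ) * p.eval t) (An j) := by
    apply (ContinuousOn.integrableOn_Icc (μ := volume) (a := (1/2:ℝ)^(j+1)) (b := (1/2:ℝ)^j)
      (Continuous.continuousOn (by fun_prop))).mono_set
    exact Set.Ico_subset_Icc_self
  have hvol : volume (An j) = ENNReal.ofReal ((1/2)^(j+1)) := by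
    rw [An, Real.volume_Ico]
    congr 1
    ring
  have hI : ((1/2:ℝ)^(j+1))^d * (|a|/2) * (1/2)^(j+1) ≤ |∫ t in An j, p.eval t| := by
    have h8 := setIntegral_mono_on (μ := volume) (s := An j)
      (f := fun _ => ((1/2:ℝ)^(j+1))^d * (|a|/2)) (g := fun t => (SignType.sign a : ℝ) * p.eval t)
      (by
        apply integrableOn_const
        · rw [hvol]; exact ENNReal.ofReal_ne_top
        · exact enorm_ne_top) hint (An_meas j) hpt
    rw [setIntegral_const, Measure.real, hvol, ENNReal.toReal_ofReal (by positivity), smul_eq_mul,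
      integral_const_mul] at h8
    have h9 : |(SignType.sign a : ℝ)| = 1 := by
      rcases lt_or_gt_of_ne hq0' with hneg | hpos
      · rw [sign_neg hneg]; simp
      · rw [sign_pos hpos]; simp
    have h10 : (SignType.sign a : ℝ) * ∫ t in An j, p.eval t ≤ |∫ t in An j, p.eval t| := by
      refine (le_abs_self _).trans ?_
      rw [abs_mul, h9, one_mul]
    linarith
  rw [abs_mul, abs_of_pos (lt_of_lt_of_le one_pos hc1)]
  set I := |∫ t in An j, p.eval t| with hIdef
  have hI0 : 0 ≤ I := abs_nonneg _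
  have hLpos : 0 < Ln j := by unfold Ln; positivity
  have h11 : Ln j * I ≤ Ln j * (cn j * I) := by
    apply mul_le_mul_of_nonneg_left _ hLpos.le
    nlinarith
  refine le_trans ?_ h11
  refine le_trans ?_ (mul_le_mul_of_nonneg_left hI hLpos.le)
  unfold Ln
  set x : ℝ := (2:ℝ)^(j+1) with hx
  have hx0 : 0 < x := by positivity
  have hx1 : 1 ≤ x := one_le_pow₀ (by norm_num)
  have hxi : (1/2:ℝ)^(j+1) = x⁻¹ := by rw [hx, one_div, inv_pow]
  rw [hxi]
  have h12 : x^j = x^(j - (d+1)) * x^d * x := by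
    rw [← pow_add, ← pow_succ]
    congr 1
    omega
  rw [h12]
  have h13 : x^(j - (d+1)) * x^d * x * (x⁻¹^d * (|a|/2) * x⁻¹) = x^(j-(d+1)) * (|a|/2) := by
    have : x^d * x⁻¹^d = 1 := by rw [← mul_pow, mul_inv_cancel₀ hx0.ne', one_pow]
    calc x^(j - (d+1)) * x^d * x * (x⁻¹^d * (|a|/2) * x⁻¹)
        = x^(j - (d+1)) * (|a|/2) * (x^d * x⁻¹^d) * (x * x⁻¹) := by ring
      _ = _ := by rw [this, mul_inv_cancel₀ hx0.ne']; ring
  rw [h13]
  have h14 : x ≤ x^(j-(d+1)) := by
    calc x = x^1 := (pow_one x).symm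
      _ ≤ x^(j-(d+1)) := pow_le_pow_right₀ hx1 (by omega)
  have h15 : 1 ≤ x * (|a|/2) := by
    rw [div_le_iff₀ hapos] at hj2
    linarith
  calc (1:ℝ) ≤ x * (|a|/2) := h15
    _ ≤ _ := by gcongr

end

end Pool.Agent.H7.Banach
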