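import Mathlib
import Pool.Agent.H7.BanachC

set_option autoImplicit false
open MeasureTheory Set Filter Topology
open scoped ENNReal NNReal InnerProductSpace

namespace Pool.Agent.H7.Banach

noncomputable section

def Good (j : ℕ) (l : List H) : Prop := ON l ∧ ∀ a ∈ l, Supp a (Dn j)

instance fact2 : Fact ((2:ℝ≥0∞) ≠ ⊤) := ⟨by simp⟩

instance sepH : TopologicalSpace.SeparableSpace H := by
  have : SecondCountableTopology (Lp ℝ 2 mu) := inferInstance
  infer_instance

def gs : ℕ → H := TopologicalSpace.denseSeq H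

def Rel (j : ℕ) (l l' : List H) : Prop :=
  ind (Dn (j+1)) (Dn_meas (j+1)) (gs (Nat.unpair j).1) ∈ Submodule.span ℝ {a | a ∈ l'} ∧
  ∃ (ps : List H) (B : Set ℝ), ps ≠ [] ∧ (l ++ ps) <+: l' ∧
    mu B ≤ ENNReal.ofReal ((1/2)^(j+2)) ∧
    ∀ᵐ t ∂mu, t ∈ Dn (j+1) → t ∉ B → ∃ T, T <+: ps ∧ ∀ p ∈ Vn j,
        Ln j * |⟪hn j, p⟫_ℝ| ≤ |(T.map (fun u : H => ⟪u, p⟫_ℝ * u t)).sum|

lemma step (j : ℕ) (l : List H) (hl : Good j l) : ∃ l', Good (j+1) l' ∧ Rel j l l' := by
  have hb : (1/2:ℝ)^(j+1) ≤ 1/2 := by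
    rw [pow_succ]
    have : (1/2:ℝ)^j ≤ 1 := pow_le_one₀ (by norm_num) (by norm_num)
    linarith
  have hη : ENNReal.ofReal ((1/2:ℝ)^(j+2)) < mu (Dn (j+1)) := by
    rw [mu_Dn]
    rw [ENNReal.ofReal_lt_ofReal_iff (by linarith)]
    have : (1/2:ℝ)^(j+2) = (1/2)^(j+1) * (1/2) := pow_succ _ _
    rw [this]; linarith
  have hpos : mu (Dn (j+1)) ≠ 0 := (lt_of_le_of_lt (by simp) hη).ne'
  obtain ⟨ps, B, h1, h2, h3, h4, h5, h6⟩ := block l (Dn (j+1)) (Dn_meas (j+1)) hpos (hn j)
    (hn_norm j) (fun a ha => inner_eq_zero_of_supp (hl.2 a ha) (hn_supp j) (An_disj j))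
    ((hn_supp j).mono (An_sub j)) (Vn j) (Ln j) (by unfold Ln; positivity) ((1/2)^(j+2))
    (by positivity) hη
  have hON : ON (l ++ ps) := by
    refine ⟨?_, ?_⟩
    · rw [List.pairwise_append]
      exact ⟨hl.1.1, h2.1, h3⟩
    · intro a ha
      rcases List.mem_append.mp ha with ha | ha
      · exact hl.1.2 a ha
      · exact h2.2 a ha
  have hS : ∀ a ∈ l ++ ps, Supp a (Dn (j+1)) := by
    intro a ha
    rcases List.mem_append.mp ha with ha | ha
    · exact (hl.2 a ha).mono (Dn_mono (Nat.le_succ j))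
    · exact h4 a ha
  obtain ⟨l', q1, q2, q3, q4⟩ := ext_list (l ++ ps) hON (Dn (j+1)) hS
    (ind (Dn (j+1)) (Dn_meas (j+1)) (gs (Nat.unpair j).1)) (supp_ind _ _)
  exact ⟨l', ⟨q2, q3⟩, q4, ps, B, h1, q1, h5, h6⟩

lemma exists_seq : ∃ s : ℕ → List H, (∀ j, Good j (s j)) ∧ ∀ j, Rel j (s j) (s (j+1)) := by
  choose next hnext using step
  let s : ∀ j : ℕ, {l : List H // Good j l} := fun j =>
    Nat.rec (motive := fun j => {l : List H // Good j l}) ⟨[], ⟨⟨by simp, by simp⟩, by simp⟩⟩
      (fun j x => ⟨next j x.1 x.2, (hnext j x.1 x.2).1⟩) j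
  exact ⟨fun j => (s j).1, fun j => (s j).2, fun j => (hnext j (s j).1 (s j).2).2⟩

lemma getD_prefix {X Y : List H} (h : X <+: Y) {i : ℕ} (hi : i < X.length) :
    Y.getD i 0 = X.getD i 0 := by
  obtain ⟨r, rfl⟩ := h
  exact List.getD_append _ _ _ _ hi

lemma sum_getD (g : H → ℝ) : ∀ X : List H,
    ∑ i ∈ Finset.range X.length, g (X.getD i 0) = (X.map g).sum
  | [] => by simp
  | a :: X => by
    rw [List.length_cons, Finset.sum_range_succ', List.map_cons, List.sum_cons,
      List.getD_cons_zero, add_comm]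
    congr 1
    rw [← sum_getD g X]
    apply Finset.sum_congr rfl
    intro i _
    rw [List.getD_cons_succ]

theorem main : ∃ e : ℕ → H,
    (∀ n m, ⟪e n, e m⟫_ℝ = if n = m then 1 else 0) ∧
    (∀ f : H, (∀ n, ⟪e n, f⟫_ℝ = 0) → f = 0) ∧
    ∀ p : Polynomial ℝ, p ≠ 0 → ∀ᵐ t ∂mu,
      ¬ ∃ L : ℝ, Tendsto (fun N : ℕ => ∑ n ∈ Finset.range N, ⟪e n, pl p⟫_ℝ * e n t)
        atTop (𝓝 L) := by
  obtain ⟨s, hg, hr⟩ := exists_seq
  have hpre1 : ∀ j, s j <+: s (j+1) := by
    intro j
    obtain ⟨_, ps, B, _, h2, _⟩ := hr j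
    exact (List.prefix_append _ _).trans h2
  have hpre : ∀ j k, j ≤ k → s j <+: s k := by
    intro j k h
    induction k, h using Nat.le_induction with
    | base => exact List.prefix_refl _
    | succ k _ ih => exact ih.trans (hpre1 k)
  have hlen : ∀ j, j ≤ (s j).length := by
    intro j
    induction j with
    | zero => exact Nat.zero_le _
    | succ j ih =>
      obtain ⟨_, ps, B, h1, h2, _⟩ := hr j
      have h3 := h2.length_le
      rw [List.length_append] at h3
      have h4 : 0 < ps.length := List.length_pos_of_ne_nil h1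
      omega
  let e : ℕ → H := fun n => (s (n+1)).getD n 0
  have he : ∀ (X : List H) (k : ℕ), X <+: s k → ∀ i, i < X.length → e i = X.getD i 0 := by
    intro X k hX i hi
    have h1 : e i = (s (max k (i+1))).getD i 0 := by
      show (s (i+1)).getD i 0 = _
      rw [getD_prefix (hpre (i+1) (max k (i+1)) (le_max_right _ _))
        (lt_of_lt_of_le (Nat.lt_succ_self i) (hlen (i+1)))]
    rw [h1, getD_prefix (hX.trans (hpre k (max k (i+1)) (le_max_left _ _))) hi]
  have hemem : ∀ k, ∀ a ∈ s k, ∃ n, e n = a := by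
    intro k a ha
    obtain ⟨i, hi, rfl⟩ := List.getElem_of_mem ha
    refine ⟨i, ?_⟩
    rw [he (s k) k (List.prefix_refl _) i hi, List.getD_eq_getElem _ _ hi]
  refine ⟨e, ?_, ?_, ?_⟩
  · -- orthonormality
    have hlt : ∀ n m, n < m → ⟪e n, e m⟫_ℝ = 0 := by
      intro n m hnm
      have hm := lt_of_lt_of_le (Nat.lt_succ_self m) (hlen (m+1))
      have hn' := hnm.trans hm
      rw [he (s (m+1)) (m+1) (List.prefix_refl _) n hn', he (s (m+1)) (m+1) (List.prefix_refl _) m hm,
        List.getD_eq_getElem _ _ hn', List.getD_eq_getElem _ _ hm]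
      exact List.pairwise_iff_getElem.mp (hg (m+1)).1.1 n m hn' hm hnm
    intro n m
    rcases lt_trichotomy n m with h | h | h
    · rw [if_neg h.ne, hlt n m h]
    · subst h
      rw [if_pos rfl, real_inner_self_eq_norm_sq]
      have hn' := lt_of_lt_of_le (Nat.lt_succ_self n) (hlen (n+1))
      rw [he (s (n+1)) (n+1) (List.prefix_refl _) n hn', List.getD_eq_getElem _ _ hn',
        (hg (n+1)).1.2 _ (List.getElem_mem _)]
      norm_num
    · rw [if_neg h.ne', real_inner_comm, hlt m n h]
  · -- completeness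
    intro f hf
    have h1 : ∀ k, ∀ v ∈ Submodule.span ℝ {a | a ∈ s k}, ⟪v, f⟫_ℝ = 0 := by
      intro k v hv
      refine Submodule.span_induction (p := fun x _ => ⟪x, f⟫_ℝ = 0) ?_ ?_ ?_ ?_ hv
      · intro x hx
        obtain ⟨n, rfl⟩ := hemem k x hx
        exact hf n
      · exact inner_zero_left _
      · intro x y _ _ hx hy; rw [inner_add_left, hx, hy, add_zero]
      · intro a x _ hx
        show ⟪a • x, f⟫_ℝ = 0
        rw [inner_smul_left, hx]
        simp
    have h2 : ∀ i, ⟪gs i, f⟫_ℝ = 0 := by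
      intro i
      have hU : (⋃ n, Dn n) = Set.Ioi 0 := by
        ext t
        rw [Set.mem_iUnion]
        constructor
        · rintro ⟨n, hn⟩
          have h0 : (0:ℝ) < (1/2:ℝ)^n := by positivity
          exact lt_of_lt_of_le h0 hn
        · intro ht
          obtain ⟨n, hn⟩ := exists_pow_lt_of_lt_one (show (0:ℝ) < t from ht)
            (show (1/2:ℝ) < 1 by norm_num)
          exact ⟨n, hn.le⟩
      have hint : Integrable (fun t => f t * gs i t) mu :=
        (Lp.memLp f).integrable_mul (Lp.memLp (gs i))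
      have h3 := tendsto_setIntegral_of_monotone (μ := mu) (s := Dn)
        (f := fun t => f t * gs i t) Dn_meas (fun a b h => Dn_mono h) hint.integrableOn
      have h4 : ∀ n, ∫ t in Dn (Nat.pair i n + 1), f t * gs i t ∂mu = 0 := by
        intro n
        have h5 := h1 _ _ (hr (Nat.pair i n)).1
        rw [Nat.unpair_pair] at h5
        rw [inner_eq] at h5
        rw [← h5, ← integral_indicator (Dn_meas _)]
        apply integral_congr_ae
        filter_upwards [coe_ind (Dn_meas (Nat.pair i n + 1)) (gs i)] with t h6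
        rw [h6]
        by_cases ht : t ∈ Dn (Nat.pair i n + 1)
        · rw [Set.indicator_of_mem ht, Set.indicator_of_mem ht]
        · rw [Set.indicator_of_notMem ht, Set.indicator_of_notMem ht, mul_zero]
      have h5 : Tendsto (fun n => Nat.pair i n + 1) atTop atTop := by
        apply tendsto_atTop_mono (f := fun n => n)
        · intro n
          have := Nat.right_le_pair i n
          omega
        · exact tendsto_id
      have h6 := h3.comp h5
      have h7 : (fun n => ∫ t in Dn n, f t * gs i t ∂mu) ∘ (fun n => Nat.pair i n + 1) =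
          fun _ => (0:ℝ) := by
        funext n
        exact h4 n
      rw [h7] at h6
      have h8 := tendsto_nhds_unique h6 tendsto_const_nhds
      rw [hU] at h8
      rw [inner_eq, ← h8, ← integral_indicator measurableSet_Ioi]
      apply integral_congr_ae
      have h9 : ∀ᵐ t ∂mu, t ≠ 0 := by
        have : mu {(0:ℝ)} = 0 := by
          refine le_antisymm ?_ (by simp)
          refine (Measure.restrict_apply_le _ _).trans ?_
          simp
        exact measure_eq_zero_iff_ae_notMem.mp this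
      have h10 : ∀ᵐ t ∂mu, t ∈ Set.Icc (0:ℝ) 1 := ae_restrict_mem measurableSet_Icc
      filter_upwards [h9, h10] with t h11 h12
      rw [Set.indicator_of_mem]
      exact lt_of_le_of_ne h12.1 (Ne.symm h11)
    have h3 : ∀ g : H, ⟪g, f⟫_ℝ = 0 := by
      intro g
      have hc : Continuous (fun g : H => ⟪g, f⟫_ℝ) := by fun_prop
      have hd := TopologicalSpace.denseRange_denseSeq H
      have := hd.equalizer (g := fun g : H => ⟪g, f⟫_ℝ) (h := fun _ => (0:ℝ)) hc
        continuous_const (by funext i; exact h2 i)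
      exact congrFun this g
    exact inner_self_eq_zero.mp (h3 f)
  · -- divergence
    intro p hp
    choose ps B q1 q2 q3 q4 using fun j => (hr j).2
    have hBC : ∀ᵐ t ∂mu, ∀ᶠ j in atTop, t ∉ B j := by
      apply ae_eventually_notMem
      have h1 : (∑' j, mu (B j)) ≤ ∑' j : ℕ, ENNReal.ofReal ((1/2)^(j+2)) :=
        ENNReal.tsum_le_tsum q3
      have h2 : Summable (fun j : ℕ => (1/2:ℝ)^(j+2)) := by
        have := (summable_geometric_of_lt_one (r := (1/2:ℝ)) (by norm_num) (by norm_num))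
        exact (summable_nat_add_iff 2).mpr this
      rw [← ENNReal.ofReal_tsum_of_nonneg (fun n => by positivity) h2] at h1
      exact (lt_of_le_of_lt h1 ENNReal.ofReal_lt_top).ne
    have h10 : ∀ᵐ t ∂mu, t ∈ Set.Icc (0:ℝ) 1 := ae_restrict_mem measurableSet_Icc
    have h9 : ∀ᵐ t ∂mu, t ≠ 0 := by
      have : mu {(0:ℝ)} = 0 := by
        refine le_antisymm ?_ (by simp)
        refine (Measure.restrict_apply_le _ _).trans ?_
        simp
      exact measure_eq_zero_iff_ae_notMem.mp this
    filter_upwards [hBC, ae_all_iff.mpr q4, h9, h10] with t t1 t2 t3 t4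
    rintro ⟨L, hL⟩
    have htpos : 0 < t := lt_of_le_of_ne t4.1 (Ne.symm t3)
    have htD : ∀ᶠ j in atTop, t ∈ Dn (j+1) := by
      obtain ⟨n, hn⟩ := exists_pow_lt_of_lt_one htpos (show (1/2:ℝ) < 1 by norm_num)
      filter_upwards [eventually_ge_atTop n] with j hj
      exact Dn_mono (by omega : n ≤ j+1) hn.le
    have hcau := hL.cauchySeq
    rw [Metric.cauchySeq_iff] at hcau
    obtain ⟨N0, hN0⟩ := hcau 1 one_pos
    obtain ⟨j, j1, j2, j3, j4, j5⟩ := (t1.and (htD.and ((growth p hp).and
      ((eventually_ge_atTop N0).and (eventually_gt_atTop p.natDegree))))).exists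
    obtain ⟨T, hT, hTs⟩ := t2 j j2 j1
    have h11 := hTs (pl p) (pl_mem p j j5)
    have h12 : (1:ℝ) ≤ |(T.map (fun u : H => ⟪u, pl p⟫_ℝ * u t)).sum| := j3.trans h11
    have hS : ∀ (X : List H) (k : ℕ), X <+: s k →
        ∑ n ∈ Finset.range X.length, ⟪e n, pl p⟫_ℝ * e n t =
          (X.map (fun u : H => ⟪u, pl p⟫_ℝ * u t)).sum := by
      intro X k hX
      rw [← sum_getD (fun u : H => ⟪u, pl p⟫_ℝ * u t) X]
      apply Finset.sum_congr rfl
      intro i hi
      rw [he X k hX i (Finset.mem_range.mp hi)]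
    have hpX : (s j ++ T) <+: s (j+1) := by
      refine List.IsPrefix.trans ?_ (q2 j)
      rw [List.prefix_append_right_inj]
      exact hT
    have h13 := hS (s j ++ T) (j+1) hpX
    have h14 := hS (s j) j (List.prefix_refl _)
    have hlj := hlen j
    have h15 := hN0 (s j ++ T).length (by rw [List.length_append]; omega) (s j).length (by omega)
    rw [Real.dist_eq, h13, h14, List.map_append, List.sum_append, add_sub_cancel_left] at h15
    linarith

end

end Pool.Agent.H7.Banach
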