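import Mathlib

set_option autoImplicit false

namespace Pool.Agent.H7.Bes

open scoped ENNReal
open MeasureTheory

/-- The closed strip of width `w` with unit normal vector `u`; the plane is `ℂ`, and the inner
product of `u` and `z` is the real part of `conj u * z`. -/
def strip (u : ℂ) (c w : ℝ) : Set ℂ :=
  {z | c ≤ (starRingEnd ℂ u * z).re ∧ (starRingEnd ℂ u * z).re ≤ c + w}

/-- A Besicovitch set: bounded, of planar Lebesgue measure zero, containing a closed segment of
length `1` in every direction. -/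
def IsBesicovitch (E : Set ℂ) : Prop :=
  Bornology.IsBounded E ∧ volume E = 0 ∧ ∀ e : ℂ, ‖e‖ = 1 → ∃ a : ℂ, segment ℝ a (a + e) ⊆ E

/-- Every covering of `E` by countably (or finitely) many strips has total width at least `ε`. -/
def StripBound (E : Set ℂ) (ε : ℝ) : Prop :=
  ∀ (ι : Type) [Countable ι] (u : ι → ℂ) (c w : ι → ℝ), (∀ i, ‖u i‖ = 1 ∧ 0 < w i) →
    E ⊆ ⋃ i, strip (u i) (c i) (w i) → ENNReal.ofReal ε ≤ ∑' i, ENNReal.ofReal (w i)

/-- Property (S): for every `ε > 0` there is a strip covering of total width less than `ε`. -/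
def PropS (E : Set ℂ) : Prop :=
  ∀ ε : ℝ, 0 < ε → ∃ (ι : Type) (_ : Countable ι) (u : ι → ℂ) (c w : ι → ℝ),
    (∀ i, ‖u i‖ = 1 ∧ 0 < w i) ∧ E ⊆ ⋃ i, strip (u i) (c i) (w i) ∧
      ∑' i, ENNReal.ofReal (w i) < ENNReal.ofReal ε

end Pool.Agent.H7.Bes
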