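import Mathlib
import Pool.Agent.H7.BesDefs

set_option autoImplicit false
open Set Filter Topology MeasureTheory
open scoped ENNReal

namespace Pool.Agent.H7.Bes

noncomputable section

/-- the slopes at which the construction is compressed -/
def ph (j : ℕ) : ℝ :=
  min 1 (((Nat.unpair (Nat.unpair (Nat.log 2 j)).1).1 : ℝ) / ((Nat.unpair (Nat.unpair (Nat.log 2 j)).1).2 + 1))

lemma ph_nonneg (j : ℕ) : 0 ≤ ph j := le_min zero_le_one (by positivity)
lemma ph_le (j : ℕ) : ph j ≤ 1 := min_le_left _ _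

lemma ph_block (p r M : ℕ) (hp : p ≤ r + 1) : ∃ k : ℕ, ∀ j, j < M → ph (j + k) = (p:ℝ) / (r + 1) := by
  set m := Nat.pair (Nat.pair p r) M with hm
  have hmM : M ≤ m := Nat.right_le_pair _ _
  refine ⟨2^m, ?_⟩
  intro j hj
  have h1 : Nat.log 2 (j + 2^m) = m := by
    rw [Nat.log_eq_iff (Or.inr ⟨by norm_num, by positivity⟩)]
    refine ⟨by omega, ?_⟩
    have : m < 2^m := Nat.lt_two_pow_self
    rw [pow_succ]; omega
  unfold ph
  rw [h1, hm, Nat.unpair_pair]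
  simp only [Nat.unpair_pair]
  apply min_eq_right
  rw [div_le_one (by positivity)]
  exact_mod_cast hp

def A (j : ℕ) (a : ℝ) : ℝ := (⌊(2:ℝ)^j * a⌋₊ : ℝ) / 2^j
def D (j : ℕ) (a : ℝ) : ℝ := A (j+1) a - A j a

lemma D_bd (j : ℕ) (a : ℝ) (ha : 0 ≤ a) : 0 ≤ D j a ∧ D j a ≤ (1/2)^(j+1) := by
  have h2 : (0:ℝ) < 2^j := by positivity
  have h1 := Nat.floor_le (show 0 ≤ (2:ℝ)^j * a by positivity)
  have h1' := Nat.lt_floor_add_one ((2:ℝ)^j * a)
  have h3 := Nat.floor_le (show 0 ≤ (2:ℝ)^(j+1) * a by positivity)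
  set m := ⌊(2:ℝ)^j * a⌋₊ with hm
  set l := ⌊(2:ℝ)^(j+1) * a⌋₊ with hl
  have e1 : 2 * m ≤ l := by
    apply Nat.le_floor
    push_cast
    rw [pow_succ]; linarith
  have e2 : l < 2 * m + 2 := by
    rw [hl, Nat.floor_lt (by positivity)]
    push_cast
    rw [pow_succ]; linarith
  have e1' : 2 * (m:ℝ) ≤ l := by exact_mod_cast e1
  have e2' : (l:ℝ) ≤ 2 * m + 1 := by
    have : l ≤ 2 * m + 1 := by omega
    exact_mod_cast this
  have e3 : D j a = ((l:ℝ) - 2 * m) * (1/2)^(j+1) := by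
    unfold D A
    rw [← hm, ← hl, one_div, inv_pow, pow_succ]
    field_simp
  rw [e3]
  have h5 : (0:ℝ) < (1/2)^(j+1) := by positivity
  constructor
  · apply mul_nonneg _ h5.le; linarith
  · nlinarith

lemma D_hasSum (a : ℝ) (ha : 0 ≤ a) : HasSum (fun j => D j a) (a - A 0 a) := by
  rw [hasSum_iff_tendsto_nat_of_nonneg (fun j => (D_bd j a ha).1)]
  have h1 : ∀ n, ∑ j ∈ Finset.range n, D j a = A n a - A 0 a := by
    intro n
    exact Finset.sum_range_sub (fun j => A j a) n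
  simp only [h1]
  apply Tendsto.sub_const
  have h2 : Tendsto (fun n : ℕ => a - (1/2:ℝ)^n) atTop (𝓝 (a - 0)) :=
    (tendsto_pow_atTop_nhds_zero_of_lt_one (by norm_num) (by norm_num)).const_sub a
  rw [sub_zero] at h2
  apply tendsto_of_tendsto_of_tendsto_of_le_of_le h2 tendsto_const_nhds
  · intro n
    have h3 := Nat.lt_floor_add_one ((2:ℝ)^n * a)
    have h4 : (0:ℝ) < 2^n := by positivity
    simp only [A]
    rw [le_div_iff₀ h4, sub_mul]
    have h5 : (1/2:ℝ)^n * 2^n = 1 := by rw [← mul_pow]; norm_num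
    rw [h5]; linarith
  · intro n
    have h3 := Nat.floor_le (show 0 ≤ (2:ℝ)^n * a by positivity)
    have h4 : (0:ℝ) < 2^n := by positivity
    simp only [A]
    rw [div_le_iff₀ h4]; linarith

def g (a : ℝ) : ℝ := - ∑' j, ph j * D j a

lemma phD_summable (a : ℝ) (ha : 0 ≤ a) : Summable (fun j => ph j * D j a) := by
  apply Summable.of_nonneg_of_le (fun j => mul_nonneg (ph_nonneg j) (D_bd j a ha).1) _ (D_hasSum a ha).summable
  intro j
  have := ph_le j
  have := (D_bd j a ha).1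
  nlinarith

lemma g_bd (a : ℝ) (ha : a ∈ Icc (0:ℝ) 1) : |g a| ≤ 1 := by
  unfold g
  rw [abs_neg, abs_of_nonneg (tsum_nonneg (fun j => mul_nonneg (ph_nonneg j) (D_bd j a ha.1).1))]
  have h1 : ∑' j, ph j * D j a ≤ ∑' j, D j a := by
    apply (phD_summable a ha.1).tsum_le_tsum _ (D_hasSum a ha.1).summable
    intro j
    have := ph_le j
    have := (D_bd j a ha.1).1
    nlinarith
  rw [(D_hasSum a ha.1).tsum_eq] at h1
  have h2 : 0 ≤ A 0 a := by unfold A; positivity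
  linarith [ha.2]

lemma line_eq (t a : ℝ) (ha : 0 ≤ a) : HasSum (fun j => (t - ph j) * D j a) (t * a + g a - t * A 0 a) := by
  have h1 := ((D_hasSum a ha).mul_left t).sub (phD_summable a ha).hasSum
  have h2 : t * (a - A 0 a) - ∑' j, ph j * D j a = t * a + g a - t * A 0 a := by
    unfold g; ring
  rw [h2] at h1
  have h3 : (fun j => (t - ph j) * D j a) = fun j => t * D j a - ph j * D j a := by
    funext j; ring
  rw [h3]
  exact h1

lemma close (t a b : ℝ) (ht : t ∈ Icc (0:ℝ) 1) (ha : 0 ≤ a) (hb : 0 ≤ b) (k M : ℕ) (c : ℝ)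
    (hc : ∀ j, j < M → ph (j + k) = c) (hab : ⌊(2:ℝ)^k * a⌋₊ = ⌊(2:ℝ)^k * b⌋₊) :
    |(t * a + g a) - (t * b + g b)| ≤ (1/2)^k * (|t - c| + 2 * (2/3)^M) := by
  have hA : ∀ j, j ≤ k → A j a = A j b := by
    intro j hj
    have e : ∀ u : ℝ, (2:ℝ)^j * u = (2:ℝ)^k * u / ((2^(k-j) : ℕ) : ℝ) := by
      intro u
      have : (2:ℝ)^k = 2^j * 2^(k-j) := by rw [← pow_add]; congr 1; omega
      rw [this]
      push_cast
      field_simp
    unfold A
    rw [e a, e b, Nat.floor_div_natCast, Nat.floor_div_natCast, hab]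
  have h1 := (line_eq t a ha).sub (line_eq t b hb)
  have h0 : t * a + g a - t * A 0 a - (t * b + g b - t * A 0 b) = (t * a + g a) - (t * b + g b) := by
    rw [hA 0 (by omega)]; ring
  rw [h0] at h1
  set d : ℕ → ℝ := fun j => (t - ph j) * D j a - (t - ph j) * D j b with hd
  have hdz : ∀ j, j < k → d j = 0 := by
    intro j hj
    simp only [hd]
    unfold D
    rw [hA j (by omega), hA (j+1) (by omega), sub_self]
  rw [← h1.tsum_eq, ← h1.summable.sum_add_tsum_nat_add k,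
    Finset.sum_eq_zero (fun j hj => hdz j (Finset.mem_range.mp hj)), zero_add]
  have hb1 : ∀ j, |d (j + k)| ≤ (1/2)^k * (|t - c| * (1/2)^(j+1) + (2/3)^M * ((1/2) * (3/4)^j)) := by
    intro j
    obtain ⟨p1, p2⟩ := D_bd (j+k) a ha
    obtain ⟨q1, q2⟩ := D_bd (j+k) b hb
    have e1 : |D (j+k) a - D (j+k) b| ≤ (1/2)^(j+k+1) := by
      rw [abs_le]; constructor <;> linarith
    have e2 : d (j+k) = (t - ph (j+k)) * (D (j+k) a - D (j+k) b) := by simp only [hd]; ring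
    have e3 : |t - ph (j+k)| ≤ |t - c| + (2/3)^M * (3/2)^j := by
      rcases lt_or_ge j M with h | h
      · rw [hc j h]
        have : (0:ℝ) ≤ (2/3)^M * (3/2)^j := by positivity
        linarith
      · have e4 : |t - ph (j+k)| ≤ 1 := by
          rw [abs_le]
          constructor <;> linarith [ht.1, ht.2, ph_nonneg (j+k), ph_le (j+k)]
        have e5 : (1:ℝ) ≤ (2/3)^M * (3/2)^j := by
          have : (3/2:ℝ)^j = (3/2)^M * (3/2)^(j-M) := by rw [← pow_add]; congr 1; omega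
          rw [this, ← mul_assoc, ← mul_pow]
          norm_num
          exact one_le_pow₀ (by norm_num)
        have := abs_nonneg (t - c)
        linarith
    rw [e2, abs_mul]
    calc |t - ph (j+k)| * |D (j+k) a - D (j+k) b| ≤ (|t - c| + (2/3)^M * (3/2)^j) * (1/2)^(j+k+1) := by
          apply mul_le_mul e3 e1 (abs_nonneg _) (by positivity)
      _ = (1/2)^k * (|t - c| * (1/2)^(j+1) + (2/3)^M * ((1/2) * ((3/2)^j * (1/2)^j))) := by
          rw [show j + k + 1 = k + j + 1 by omega, pow_succ, pow_add]; ring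
      _ = _ := by rw [← mul_pow]; norm_num
  have hgeo : HasSum (fun j : ℕ => (1/2:ℝ)^k * (|t - c| * (1/2)^(j+1) + (2/3)^M * ((1/2) * (3/4)^j)))
      ((1/2)^k * (|t - c| * 1 + (2/3)^M * ((1/2) * 4))) := by
    apply HasSum.mul_left
    apply HasSum.add
    · apply HasSum.mul_left
      have h3 := (hasSum_geometric_of_lt_one (r := (1/2:ℝ)) (by norm_num) (by norm_num)).mul_left (1/2)
      convert h3 using 1
      · funext m; rw [pow_succ]; ring
      · norm_num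
    · apply HasSum.mul_left
      apply HasSum.mul_left
      have h3 := hasSum_geometric_of_lt_one (r := (3/4:ℝ)) (by norm_num) (by norm_num)
      have e : (1 - 3/4:ℝ)⁻¹ = 4 := by norm_num
      rw [e] at h3
      exact h3
  have h2 := tsum_of_norm_bounded hgeo (fun m => by rw [Real.norm_eq_abs]; exact hb1 m)
  rw [Real.norm_eq_abs] at h2
  refine h2.trans (le_of_eq ?_)
  ring

/-- the compressed union of segments, as a subset of `ℝ × ℝ` -/
def E2 : Set (ℝ × ℝ) := {q | q.1 ∈ Icc (0:ℝ) 1 ∧ ∃ a ∈ Icc (0:ℝ) 1, q.2 = q.1 * a + g a}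

lemma slab (x1 x2 α β ε : ℝ) (hx : x1 ≤ x2) (_hε : 0 ≤ ε) :
    volume {q : ℝ × ℝ | q.1 ∈ Icc x1 x2 ∧ |q.2 - (q.1 * α + β)| ≤ ε} ≤
      ENNReal.ofReal ((x2 - x1) * (2 * ε)) := by
  have hm : MeasurableSet {q : ℝ × ℝ | q.1 ∈ Icc x1 x2 ∧ |q.2 - (q.1 * α + β)| ≤ ε} := by
    apply MeasurableSet.inter
    · exact measurable_fst measurableSet_Icc
    · have hc : Continuous (fun q : ℝ × ℝ => |q.2 - (q.1 * α + β)|) := by fun_prop
      exact (isClosed_le hc continuous_const).measurableSet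
  rw [Measure.volume_eq_prod, Measure.prod_apply hm]
  have h1 : ∀ x, volume (Prod.mk x ⁻¹' {q : ℝ × ℝ | q.1 ∈ Icc x1 x2 ∧ |q.2 - (q.1 * α + β)| ≤ ε}) ≤
      (Icc x1 x2).indicator (fun _ => ENNReal.ofReal (2 * ε)) x := by
    intro x
    by_cases hxI : x ∈ Icc x1 x2
    · rw [indicator_of_mem hxI]
      have : Prod.mk x ⁻¹' {q : ℝ × ℝ | q.1 ∈ Icc x1 x2 ∧ |q.2 - (q.1 * α + β)| ≤ ε} ⊆
        Icc (x * α + β - ε) (x * α + β + ε) := by
        rintro y ⟨_, hy⟩
        simp only at hy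
        rw [abs_le] at hy
        constructor <;> linarith [hy.1, hy.2]
      refine (measure_mono this).trans ?_
      rw [Real.volume_Icc]
      apply ENNReal.ofReal_le_ofReal
      linarith
    · have : Prod.mk x ⁻¹' {q : ℝ × ℝ | q.1 ∈ Icc x1 x2 ∧ |q.2 - (q.1 * α + β)| ≤ ε} = ∅ := by
        ext y
        simp only [mem_preimage, Set.mem_ofPred_eq, mem_empty_iff_false, iff_false, not_and]
        intro h; exact absurd h hxI
      rw [this, measure_empty]
      exact zero_le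
  refine (lintegral_mono h1).trans ?_
  rw [lintegral_indicator measurableSet_Icc, setLIntegral_const, Real.volume_Icc, mul_comm,
    ← ENNReal.ofReal_mul (by linarith)]

lemma E2_window (p r : ℕ) (hp : p < r + 1) :
    volume (E2 ∩ {q : ℝ × ℝ | q.1 ∈ Icc ((p:ℝ)/(r+1)) (((p:ℝ)+1)/(r+1))}) ≤
      ENNReal.ofReal (8 * (1/((r:ℝ)+1))^2) := by
  have hr : (0:ℝ) < 1/((r:ℝ)+1) := by positivity
  obtain ⟨M, hM⟩ := exists_pow_lt_of_lt_one (show 0 < (1/((r:ℝ)+1))/2 by positivity) (show (2/3:ℝ) < 1 by norm_num)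
  obtain ⟨k, hk⟩ := ph_block p r M hp.le
  set ε := (1/2:ℝ)^k * (2 * (1/((r:ℝ)+1))) with hε
  have h2k : (0:ℝ) < 2^k := by positivity
  have hsub : E2 ∩ {q : ℝ × ℝ | q.1 ∈ Icc ((p:ℝ)/(r+1)) (((p:ℝ)+1)/(r+1))} ⊆
      ⋃ m ∈ Finset.range (2^k+1), {q : ℝ × ℝ | q.1 ∈ Icc ((p:ℝ)/(r+1)) (((p:ℝ)+1)/(r+1)) ∧
        |q.2 - (q.1 * ((m:ℝ)/2^k) + g ((m:ℝ)/2^k))| ≤ ε} := by
    rintro ⟨t, y⟩ ⟨⟨ht, a, ha, hy⟩, htw⟩
    simp only at ht hy htw
    have hmle : ⌊(2:ℝ)^k * a⌋₊ < 2^k + 1 := by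
      have : ⌊(2:ℝ)^k * a⌋₊ ≤ 2^k := by
        apply Nat.floor_le_of_le
        push_cast
        nlinarith [ha.2]
      omega
    have h1 := close t a ((⌊(2:ℝ)^k * a⌋₊ : ℝ)/2^k) ht ha.1 (by positivity) k M ((p:ℝ)/(r+1)) hk (by
      rw [mul_div_cancel₀ _ h2k.ne', Nat.floor_natCast])
    simp only [mem_iUnion]
    refine ⟨⌊(2:ℝ)^k * a⌋₊, Finset.mem_range.mpr hmle, htw, ?_⟩
    simp only
    rw [hy]
    refine h1.trans ?_
    rw [hε]
    apply mul_le_mul_of_nonneg_left _ (by positivity)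
    have h3 : |t - (p:ℝ)/(r+1)| ≤ 1/((r:ℝ)+1) := by
      rw [abs_of_nonneg (by linarith [htw.1])]
      have : ((p:ℝ)+1)/(r+1) = (p:ℝ)/(r+1) + 1/((r:ℝ)+1) := by ring
      linarith [htw.2]
    linarith
  refine (measure_mono hsub).trans ?_
  refine (measure_biUnion_finset_le _ _).trans ?_
  have hle : (p:ℝ)/(r+1) ≤ ((p:ℝ)+1)/(r+1) := by gcongr; linarith
  refine (Finset.sum_le_sum (s := Finset.range (2^k+1)) (fun (m : ℕ) _ => slab _ _ ((m:ℝ)/2^k) (g ((m:ℝ)/2^k)) ε hle (by positivity))).trans ?_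
  rw [Finset.sum_const, Finset.card_range, nsmul_eq_mul]
  have e3 : ((2^k + 1 : ℕ) : ℝ≥0∞) = ENNReal.ofReal ((2:ℝ)^k + 1) := by
    rw [← ENNReal.ofReal_natCast]
    push_cast
    rfl
  rw [e3, ← ENNReal.ofReal_mul (by positivity)]
  apply ENNReal.ofReal_le_ofReal
  have e4 : (2:ℝ)^k * (1/2)^k = 1 := by rw [← mul_pow]; norm_num
  have e5 : ((p:ℝ)+1)/(r+1) - (p:ℝ)/(r+1) = 1/((r:ℝ)+1) := by ring
  have e6 : (1/2:ℝ)^k ≤ 1 := pow_le_one₀ (by norm_num) (by norm_num)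
  rw [e5, hε]
  set x := 1/((r:ℝ)+1) with hx
  have e7 : ((2:ℝ)^k + 1) * (x * (2 * ((1/2)^k * (2 * x)))) = 4 * x^2 * ((2:ℝ)^k * (1/2)^k + (1/2)^k) := by ring
  rw [e7, e4]
  nlinarith [sq_nonneg x]

lemma E2_le (r : ℕ) : volume E2 ≤ ENNReal.ofReal (8 * (1/((r:ℝ)+1))) := by
  have hr : (0:ℝ) < (r:ℝ) + 1 := by positivity
  have hsub : E2 ⊆ ⋃ p ∈ Finset.range (r+1), (E2 ∩ {q : ℝ × ℝ | q.1 ∈ Icc ((p:ℝ)/(r+1)) (((p:ℝ)+1)/(r+1))}) := by
    rintro q hq
    have hq1 := hq.1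
    simp only [mem_iUnion]
    by_cases h1 : q.1 = 1
    · refine ⟨r, Finset.mem_range.mpr (by omega), hq, ?_⟩
      simp only [Set.mem_ofPred_eq]
      rw [h1]
      constructor
      · rw [div_le_one hr]; linarith
      · rw [le_div_iff₀ hr]; linarith
    · have hlt : q.1 < 1 := lt_of_le_of_ne hq1.2 h1
      have hfl : ⌊((r:ℝ)+1) * q.1⌋₊ < r + 1 := by
        rw [Nat.floor_lt (by have := hq1.1; positivity)]
        push_cast
        nlinarith
      refine ⟨⌊((r:ℝ)+1) * q.1⌋₊, Finset.mem_range.mpr hfl, hq, ?_⟩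
      have h3 := Nat.floor_le (show 0 ≤ ((r:ℝ)+1) * q.1 by have := hq1.1; positivity)
      have h4 := Nat.lt_floor_add_one (((r:ℝ)+1) * q.1)
      constructor
      · rw [div_le_iff₀ hr]; linarith
      · rw [le_div_iff₀ hr]; linarith
  refine (measure_mono hsub).trans ?_
  refine (measure_biUnion_finset_le _ _).trans ?_
  refine (Finset.sum_le_sum (fun p hp => E2_window p r (Finset.mem_range.mp hp))).trans ?_
  rw [Finset.sum_const, Finset.card_range, nsmul_eq_mul]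
  have e3 : ((r + 1 : ℕ) : ℝ≥0∞) = ENNReal.ofReal ((r:ℝ) + 1) := by
    rw [← ENNReal.ofReal_natCast]
    push_cast
    rfl
  rw [e3, ← ENNReal.ofReal_mul (by positivity)]
  apply ENNReal.ofReal_le_ofReal
  apply le_of_eq
  field_simp

lemma E2_null : volume E2 = 0 := by
  apply le_antisymm _ (zero_le)
  have h1 : Tendsto (fun n : ℕ => ENNReal.ofReal (8 * (1/((n:ℝ)+1))))
      atTop (𝓝 (ENNReal.ofReal (8 * 0))) := by
    apply ENNReal.tendsto_ofReal
    exact tendsto_one_div_add_atTop_nhds_zero_nat.const_mul _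
  rw [mul_zero, ENNReal.ofReal_zero] at h1
  exact ge_of_tendsto' h1 E2_le

end

end Pool.Agent.H7.Bes
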