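import Mathlib
import Pool.Agent.H7.BesDefs

set_option autoImplicit false
open Set Filter Topology MeasureTheory
open scoped ENNReal

namespace Pool.Agent.H7.Bes

noncomputable section

def T (t : ℝ) : ℝ := ∑' n : ℕ, (⌊(2:ℝ)^n * t⌋₊ : ℝ) * (3/8)^n

lemma T_summable (t : ℝ) : Summable (fun n : ℕ => (⌊(2:ℝ)^n * t⌋₊ : ℝ) * (3/8)^n) := by
  have hs : Summable (fun n : ℕ => |t| * (3/4:ℝ)^n) :=
    (summable_geometric_of_lt_one (by norm_num) (by norm_num)).mul_left _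
  apply Summable.of_nonneg_of_le (fun n => by positivity) _ hs
  intro n
  have h1 : (⌊(2:ℝ)^n * t⌋₊ : ℝ) ≤ 2^n * |t| := by
    rcases le_or_gt 0 ((2:ℝ)^n * t) with h | h
    · refine (Nat.floor_le h).trans ?_
      exact mul_le_mul_of_nonneg_left (le_abs_self t) (by positivity)
    · rw [Nat.floor_of_nonpos h.le]
      simp
  calc (⌊(2:ℝ)^n * t⌋₊ : ℝ) * (3/8)^n ≤ 2^n * |t| * (3/8)^n := by gcongr
    _ = |t| * (2^n * (3/8:ℝ)^n) := by ring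
    _ = |t| * (3/4:ℝ)^n := by rw [← mul_pow]; norm_num

lemma T_mono : Monotone T := by
  intro s t hst
  apply (T_summable s).tsum_le_tsum _ (T_summable t)
  intro n
  have h : ⌊(2:ℝ)^n * s⌋₊ ≤ ⌊(2:ℝ)^n * t⌋₊ := Nat.floor_mono (by gcongr)
  gcongr

lemma T_nonneg (t : ℝ) : 0 ≤ T t := tsum_nonneg (fun n => by positivity)

lemma T_zero : T 0 = 0 := by simp [T]

lemma T_lower (s t : ℝ) (hs : 0 ≤ s) (n : ℕ) (h : (1/2:ℝ)^n ≤ t - s) :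
    (3/8:ℝ)^n ≤ T t - T s := by
  unfold T
  rw [← (T_summable t).tsum_sub (T_summable s)]
  have hst : s ≤ t := by
    have : (0:ℝ) < (1/2)^n := by positivity
    linarith
  have hnn : ∀ k, 0 ≤ (⌊(2:ℝ)^k * t⌋₊ : ℝ) * (3/8)^k - (⌊(2:ℝ)^k * s⌋₊ : ℝ) * (3/8)^k := by
    intro k
    have h : ⌊(2:ℝ)^k * s⌋₊ ≤ ⌊(2:ℝ)^k * t⌋₊ := Nat.floor_mono (by gcongr)
    have h' : (⌊(2:ℝ)^k * s⌋₊ : ℝ) ≤ ⌊(2:ℝ)^k * t⌋₊ := by exact_mod_cast h
    have : (⌊(2:ℝ)^k * s⌋₊ : ℝ) * (3/8)^k ≤ (⌊(2:ℝ)^k * t⌋₊ : ℝ) * (3/8)^k := by gcongr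
    linarith
  refine le_trans ?_ (((T_summable t).sub (T_summable s)).le_tsum n (fun k _ => hnn k))
  have h1 : ⌊(2:ℝ)^n * s⌋₊ + 1 ≤ ⌊(2:ℝ)^n * t⌋₊ := by
    have h2 : (2:ℝ)^n * s + 1 ≤ (2:ℝ)^n * t := by
      have h3 : (2:ℝ)^n * (1/2)^n = 1 := by rw [← mul_pow]; norm_num
      have h4 := mul_le_mul_of_nonneg_left h (show (0:ℝ) ≤ 2^n by positivity)
      rw [h3] at h4
      linarith
    calc ⌊(2:ℝ)^n * s⌋₊ + 1 = ⌊(2:ℝ)^n * s + 1⌋₊ := (Nat.floor_add_one (by positivity)).symm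
      _ ≤ _ := Nat.floor_mono h2
  have h1' : (⌊(2:ℝ)^n * s⌋₊ : ℝ) + 1 ≤ ⌊(2:ℝ)^n * t⌋₊ := by exact_mod_cast h1
  have h5 : (0:ℝ) < (3/8)^n := by positivity
  nlinarith

lemma T_upper (s t : ℝ) (hs : 0 ≤ s) (ht : 0 ≤ t) (n : ℕ)
    (h : ⌊(2:ℝ)^n * s⌋₊ = ⌊(2:ℝ)^n * t⌋₊) : |T s - T t| ≤ 3 * (3/8:ℝ)^n := by
  unfold T
  rw [← (T_summable s).tsum_sub (T_summable t)]
  set d : ℕ → ℝ := fun k => (⌊(2:ℝ)^k * s⌋₊ : ℝ) * (3/8)^k - (⌊(2:ℝ)^k * t⌋₊ : ℝ) * (3/8)^k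
    with hd
  have hdsum : Summable d := (T_summable s).sub (T_summable t)
  have hsmall : ∀ k, k ≤ n → d k = 0 := by
    intro k hk
    have e : ∀ u : ℝ, (2:ℝ)^k * u = (2:ℝ)^n * u / ((2^(n-k) : ℕ) : ℝ) := by
      intro u
      have : (2:ℝ)^n = 2^k * 2^(n-k) := by rw [← pow_add]; congr 1; omega
      rw [this]
      push_cast
      field_simp
    have : ⌊(2:ℝ)^k * s⌋₊ = ⌊(2:ℝ)^k * t⌋₊ := by
      rw [e s, e t, Nat.floor_div_natCast, Nat.floor_div_natCast, h]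
    simp only [hd]
    rw [this, sub_self]
  have hbig : ∀ m, |d (m + (n+1))| ≤ (3/8:ℝ)^n * (3/4)^(m+1) := by
    intro m
    have h1 : (2:ℝ)^(m + (n+1)) = 2^n * 2^(m+1) := by rw [← pow_add]; congr 1; omega
    have hs1 := Nat.floor_le (show 0 ≤ (2:ℝ)^n * s by positivity)
    have hs2 := Nat.lt_floor_add_one ((2:ℝ)^n * s)
    have ht1 := Nat.floor_le (show 0 ≤ (2:ℝ)^n * t by positivity)
    have ht2 := Nat.lt_floor_add_one ((2:ℝ)^n * t)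
    rw [← h] at ht1 ht2
    have hP : (0:ℝ) < 2^(m+1) := by positivity
    have key : ∀ u v : ℝ, (2:ℝ)^n * u ≤ (⌊(2:ℝ)^n * s⌋₊ : ℝ) + 1 → (⌊(2:ℝ)^n * s⌋₊ : ℝ) ≤ 2^n * v →
        0 ≤ u → 0 ≤ v →
        (⌊(2:ℝ)^(m + (n+1)) * u⌋₊ : ℝ) - ⌊(2:ℝ)^(m + (n+1)) * v⌋₊ ≤ 2^(m+1) := by
      intro u v hu hv hu0 hv0
      have e1 : (⌊(2:ℝ)^(m + (n+1)) * u⌋₊ : ℝ) ≤ 2^(m+1) * ((⌊(2:ℝ)^n * s⌋₊ : ℝ) + 1) := by
        refine (Nat.floor_le (by positivity)).trans ?_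
        rw [h1]
        nlinarith
      have e2 : 2^(m+1) * (⌊(2:ℝ)^n * s⌋₊ : ℝ) ≤ (⌊(2:ℝ)^(m + (n+1)) * v⌋₊ : ℝ) := by
        have e3 : (2^(m+1) * ⌊(2:ℝ)^n * s⌋₊ : ℕ) ≤ ⌊(2:ℝ)^(m + (n+1)) * v⌋₊ := by
          apply Nat.le_floor
          push_cast
          rw [h1]
          nlinarith
        exact_mod_cast e3
      nlinarith
    have k1 := key s t hs2.le ht1 hs ht
    have k2 := key t s ht2.le hs1 ht hs
    have hx : (0:ℝ) < (3/8)^(m + (n+1)) := by positivity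
    have e4 : d (m + (n+1)) = ((⌊(2:ℝ)^(m + (n+1)) * s⌋₊ : ℝ) - ⌊(2:ℝ)^(m + (n+1)) * t⌋₊) *
        (3/8)^(m + (n+1)) := by simp only [hd]; ring
    rw [e4, abs_mul, abs_of_pos hx]
    have e5 : |(⌊(2:ℝ)^(m + (n+1)) * s⌋₊ : ℝ) - ⌊(2:ℝ)^(m + (n+1)) * t⌋₊| ≤ 2^(m+1) := by
      rw [abs_le]; constructor <;> linarith
    calc _ ≤ 2^(m+1) * (3/8:ℝ)^(m + (n+1)) := by gcongr
      _ = (3/8:ℝ)^n * (2^(m+1) * (3/8)^(m+1)) := by
          rw [show m + (n+1) = n + (m+1) by omega, pow_add]; ring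
      _ = (3/8:ℝ)^n * (3/4)^(m+1) := by rw [← mul_pow]; norm_num
  rw [← hdsum.sum_add_tsum_nat_add (n+1)]
  rw [Finset.sum_eq_zero (fun k hk => hsmall k (by have := Finset.mem_range.mp hk; omega)), zero_add]
  have hgeo : HasSum (fun m : ℕ => (3/8:ℝ)^n * (3/4)^(m+1)) ((3/8:ℝ)^n * 3) := by
    apply HasSum.mul_left
    have h1 := (hasSum_geometric_of_lt_one (r := (3/4:ℝ)) (by norm_num) (by norm_num)).mul_left (3/4)
    convert h1 using 1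
    · funext m; rw [pow_succ]; ring
    · norm_num
  have h2 := tsum_of_norm_bounded hgeo (fun m => by rw [Real.norm_eq_abs]; exact hbig m)
  rw [Real.norm_eq_abs] at h2
  linarith

lemma T_le (t : ℝ) (ht : t ∈ Ico (0:ℝ) 1) : T t ≤ 3 := by
  have := T_upper t 0 ht.1 le_rfl 0 (by
    rw [pow_zero, one_mul, one_mul, Nat.floor_eq_zero.mpr ht.2, Nat.floor_zero])
  rw [T_zero, sub_zero, pow_zero, mul_one] at this
  exact (le_abs_self _).trans this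

lemma T_gap (s t : ℝ) (hs : 0 ≤ s) (hst : s < t) (ht : t - s ≤ 1) :
    ((t - s)/2)^3 ≤ (T t - T s)^2 := by
  have h1 : 0 < t - s := by linarith
  obtain ⟨n, hn1, hn2⟩ := exists_nat_pow_near_of_lt_one h1 ht
    (show (0:ℝ) < 1/2 by norm_num) (by norm_num)
  have h2 := T_lower s t hs (n+1) hn1.le
  have h3 : (t - s)/2 ≤ (1/2:ℝ)^(n+1) := by rw [pow_succ]; linarith
  calc ((t-s)/2)^3 ≤ ((1/2:ℝ)^(n+1))^3 := by gcongr
    _ = ((1/2:ℝ)^3)^(n+1) := by rw [← pow_mul, ← pow_mul, mul_comm]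
    _ ≤ ((3/8:ℝ)^2)^(n+1) := by gcongr; norm_num
    _ = ((3/8:ℝ)^(n+1))^2 := by rw [← pow_mul, ← pow_mul, mul_comm]
    _ ≤ (T t - T s)^2 := by gcongr

/-- the null radial set -/
def N : Set ℂ := {z | ∃ t ∈ Ico (0:ℝ) 1, ‖z‖ = 1 + T t}

lemma N_bdd : Bornology.IsBounded N := by
  rw [isBounded_iff_forall_norm_le]
  refine ⟨4, ?_⟩
  rintro z ⟨t, ht, hz⟩
  rw [hz]
  linarith [T_le t ht]

lemma annulus (a δ : ℝ) (ha : 0 ≤ a) (hδ : 0 ≤ δ) :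
    volume {z : ℂ | a ≤ ‖z‖ ∧ ‖z‖ ≤ a + δ} ≤ ENNReal.ofReal (Real.pi * (δ * (2 * a + δ))) := by
  have h1 : {z : ℂ | a ≤ ‖z‖ ∧ ‖z‖ ≤ a + δ} ⊆ Metric.closedBall 0 (a + δ) \ Metric.ball 0 a := by
    rintro z ⟨h1, h2⟩
    exact ⟨by simpa using h2, by simpa using h1⟩
  refine (measure_mono h1).trans ?_
  rw [measure_sdiff _ measurableSet_ball.nullMeasurableSet (measure_ball_lt_top.ne)]
  · rw [Complex.volume_closedBall, Complex.volume_ball]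
    apply tsub_le_iff_right.mpr
    have e : ∀ x : ℝ, 0 ≤ x → ENNReal.ofReal x ^ 2 * (NNReal.pi : ℝ≥0∞) = ENNReal.ofReal (Real.pi * x^2) := by
      intro x hx
      rw [← ENNReal.ofReal_pow hx, ← ENNReal.ofReal_coe_nnreal, NNReal.coe_real_pi,
        ← ENNReal.ofReal_mul (by positivity), mul_comm]
    rw [e _ (by positivity), e _ ha, ← ENNReal.ofReal_add (by positivity) (by positivity)]
    apply ENNReal.ofReal_le_ofReal
    nlinarith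
  · exact Metric.ball_subset_closedBall.trans (Metric.closedBall_subset_closedBall (by linarith))

lemma N_le (n : ℕ) : volume N ≤ ENNReal.ofReal (33 * Real.pi * (3/4)^n) := by
  have h2n : (0:ℝ) < 2^n := by positivity
  have hsub : N ⊆ ⋃ j ∈ Finset.range (2^n),
      {z : ℂ | 1 + T ((j:ℝ)/2^n) ≤ ‖z‖ ∧ ‖z‖ ≤ 1 + T ((j:ℝ)/2^n) + 3 * (3/8)^n} := by
    rintro z ⟨t, ht, hz⟩
    have hjlt : ⌊(2:ℝ)^n * t⌋₊ < 2^n := by
      rw [Nat.floor_lt (by have := ht.1; positivity)]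
      push_cast
      nlinarith [ht.2]
    have hle : ((⌊(2:ℝ)^n * t⌋₊ : ℝ))/2^n ≤ t := by
      rw [div_le_iff₀ h2n, mul_comm t]
      exact Nat.floor_le (by have := ht.1; positivity)
    have h1 := T_mono hle
    have h2 := T_upper t ((⌊(2:ℝ)^n * t⌋₊ : ℝ)/2^n) ht.1 (by positivity) n (by
      rw [mul_div_cancel₀ _ h2n.ne', Nat.floor_natCast])
    have h3 := (le_abs_self _).trans h2
    simp only [mem_iUnion]
    refine ⟨⌊(2:ℝ)^n * t⌋₊, Finset.mem_range.mpr hjlt, ?_, ?_⟩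
    · rw [hz]; linarith
    · rw [hz]; linarith
  refine (measure_mono hsub).trans ?_
  refine (measure_biUnion_finset_le _ _).trans ?_
  have h38 : (0:ℝ) < (3/8)^n := by positivity
  have h38' : (3/8:ℝ)^n ≤ 1 := pow_le_one₀ (by norm_num) (by norm_num)
  have hpi := Real.pi_pos
  have h1 : ∀ j ∈ Finset.range (2^n),
      volume {z : ℂ | 1 + T ((j:ℝ)/2^n) ≤ ‖z‖ ∧ ‖z‖ ≤ 1 + T ((j:ℝ)/2^n) + 3 * (3/8)^n} ≤
      ENNReal.ofReal (33 * Real.pi * (3/8)^n) := by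
    intro j hj
    have hT0 := T_nonneg ((j:ℝ)/2^n)
    have hT3 := T_le ((j:ℝ)/2^n) ⟨by positivity, by
      rw [div_lt_one h2n]
      exact_mod_cast Finset.mem_range.mp hj⟩
    refine (annulus _ _ (by linarith) (by positivity)).trans ?_
    apply ENNReal.ofReal_le_ofReal
    have e1 : 3 * (3/8:ℝ)^n * (2 * (1 + T ((j:ℝ)/2^n)) + 3 * (3/8)^n) ≤ 3 * (3/8:ℝ)^n * 11 := by
      apply mul_le_mul_of_nonneg_left _ (by positivity)
      linarith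
    calc Real.pi * (3 * (3/8:ℝ)^n * (2 * (1 + T ((j:ℝ)/2^n)) + 3 * (3/8)^n)) ≤
        Real.pi * (3 * (3/8:ℝ)^n * 11) := mul_le_mul_of_nonneg_left e1 hpi.le
      _ = 33 * Real.pi * (3/8)^n := by ring
  refine (Finset.sum_le_sum h1).trans ?_
  rw [Finset.sum_const, Finset.card_range, nsmul_eq_mul]
  have e3 : ((2^n : ℕ) : ℝ≥0∞) = ENNReal.ofReal ((2:ℝ)^n) := by
    rw [← ENNReal.ofReal_natCast]
    push_cast
    rfl
  rw [e3, ← ENNReal.ofReal_mul (by positivity)]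
  apply ENNReal.ofReal_le_ofReal
  have e4 : (2:ℝ)^n * (3/8)^n = (3/4)^n := by rw [← mul_pow]; norm_num
  apply le_of_eq
  linear_combination (33 * Real.pi) * e4

lemma N_null : volume N = 0 := by
  apply le_antisymm _ (zero_le)
  have h1 : Tendsto (fun n : ℕ => ENNReal.ofReal (33 * Real.pi * (3/4)^n))
      atTop (𝓝 (ENNReal.ofReal (33 * Real.pi * 0))) := by
    apply ENNReal.tendsto_ofReal
    exact (tendsto_pow_atTop_nhds_zero_of_lt_one (by norm_num) (by norm_num)).const_mul _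
  rw [mul_zero, ENNReal.ofReal_zero] at h1
  exact ge_of_tendsto' h1 N_le

end

end Pool.Agent.H7.Bes
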