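import Mathlib
import Pool.Agent.H7.BesDefs
import Pool.Agent.H7.BesT

set_option autoImplicit false
open Set Filter Topology MeasureTheory
open scoped ENNReal

namespace Pool.Agent.H7.Bes

noncomputable section

lemma arccos_gap (ρ c w : ℝ) (hρ : 1 ≤ ρ) (hc : 0 ≤ c) (hw : 0 < w) (hcρ : c < ρ) :
    ∃ γ β : ℝ, 0 ≤ γ ∧ γ ≤ β ∧ β ≤ Real.pi / 2 ∧ β - γ ≤ Real.pi * w / Real.sqrt (ρ - c) ∧
      ∀ η ∈ Icc 0 (Real.pi/2), c ≤ ρ * Real.cos η → ρ * Real.cos η ≤ c + w → η ∈ Icc γ β := by
  have hρ0 : 0 < ρ := by linarith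
  have hpi := Real.pi_pos
  have hb0 : 0 ≤ c / ρ := by positivity
  have hb1 : c / ρ < 1 := by rw [div_lt_one hρ0]; exact hcρ
  set g := min 1 ((c + w)/ρ) with hg
  have hg1 : g ≤ 1 := min_le_left _ _
  have hg2 : g ≤ (c+w)/ρ := min_le_right _ _
  have hcg : c / ρ ≤ g := le_min hb1.le (by gcongr; linarith)
  have hg0 : 0 ≤ g := hb0.trans hcg
  set β := Real.arccos (c / ρ) with hβ
  set γ := Real.arccos g with hγ
  have hcosβ : Real.cos β = c / ρ := Real.cos_arccos (by linarith) hb1.le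
  have hcosγ : Real.cos γ = g := Real.cos_arccos (by linarith) hg1
  have hγ0 : 0 ≤ γ := Real.arccos_nonneg _
  have hγβ : γ ≤ β := Real.arccos_le_arccos hcg
  have hβ2 : β ≤ Real.pi / 2 := Real.arccos_le_pi_div_two.mpr hb0
  refine ⟨γ, β, hγ0, hγβ, hβ2, ?_, ?_⟩
  · have h1 : Real.cos γ - Real.cos β ≤ w / ρ := by
      rw [hcosβ, hcosγ]
      have : (c + w)/ρ - c/ρ = w/ρ := by ring
      linarith
    have h2 : Real.cos γ - Real.cos β = 2 * Real.sin ((β + γ)/2) * Real.sin ((β - γ)/2) := by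
      rw [Real.cos_sub_cos]
      have e1 : (γ + β)/2 = (β + γ)/2 := by ring
      have e2 : (γ - β)/2 = -((β - γ)/2) := by ring
      rw [e1, e2, Real.sin_neg]; ring
    have h3 : Real.sin β / 2 ≤ Real.sin ((β + γ)/2) := by
      have e1 : Real.sin β = 2 * Real.sin (β/2) * Real.cos (β/2) := by
        rw [← Real.sin_two_mul]; congr 1; ring
      have e2 : 0 ≤ Real.sin (β/2) := Real.sin_nonneg_of_nonneg_of_le_pi (by linarith) (by linarith)
      have e3 : Real.cos (β/2) ≤ 1 := Real.cos_le_one _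
      have e4 : Real.sin (β/2) ≤ Real.sin ((β+γ)/2) :=
        Real.sin_le_sin_of_le_of_le_pi_div_two (by linarith) (by linarith) (by linarith)
      nlinarith
    have h4 : (β - γ)/Real.pi ≤ Real.sin ((β - γ)/2) := by
      have := Real.mul_le_sin (x := (β-γ)/2) (by linarith) (by linarith)
      refine le_trans (le_of_eq ?_) this
      field_simp
    have hsin : Real.sin β = Real.sqrt (1 - (c/ρ)^2) := by rw [hβ, Real.sin_arccos]
    have h5 : Real.sqrt (ρ - c) ≤ ρ * Real.sin β := by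
      rw [hsin]
      apply Real.sqrt_le_iff.mpr
      refine ⟨by positivity, ?_⟩
      rw [mul_pow, Real.sq_sqrt (by nlinarith)]
      have : ρ^2 * (1 - (c/ρ)^2) = (ρ - c) * (ρ + c) := by field_simp; ring
      rw [this]
      nlinarith
    have hs0 : 0 < Real.sqrt (ρ - c) := Real.sqrt_pos.mpr (by linarith)
    rw [le_div_iff₀ hs0]
    have hsinβ0 : 0 ≤ Real.sin β := Real.sin_nonneg_of_nonneg_of_le_pi (by linarith) (by linarith)
    have h6 : Real.sin β * ((β - γ)/Real.pi) ≤ w / ρ := by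
      calc Real.sin β * ((β - γ)/Real.pi) ≤ (2 * Real.sin ((β + γ)/2)) * Real.sin ((β - γ)/2) := by
            apply mul_le_mul _ h4 (div_nonneg (by linarith) hpi.le) (by linarith)
            linarith
        _ ≤ w / ρ := by rw [← h2]; exact h1
    have h7 : ρ * Real.sin β * (β - γ) ≤ Real.pi * w := by
      have e1 : Real.sin β * (β - γ) ≤ Real.pi * (w / ρ) := by
        have := mul_le_mul_of_nonneg_left h6 hpi.le
        have e2 : Real.pi * (Real.sin β * ((β - γ)/Real.pi)) = Real.sin β * (β - γ) := by field_simp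
        rw [e2] at this
        exact this
      have e3 := mul_le_mul_of_nonneg_left e1 hρ0.le
      have e4 : ρ * (Real.pi * (w / ρ)) = Real.pi * w := by field_simp
      rw [e4] at e3
      linarith
    have h8 : (β - γ) * Real.sqrt (ρ - c) ≤ (β - γ) * (ρ * Real.sin β) :=
      mul_le_mul_of_nonneg_left h5 (by linarith)
    linarith
  · intro η hη h1 h2
    constructor
    · by_contra hcon
      push Not at hcon
      have h3 := Real.cos_lt_cos_of_nonneg_of_le_pi hη.1 (by linarith) hcon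
      rw [hcosγ] at h3
      have h4 : Real.cos η ≤ (c+w)/ρ := by rw [le_div_iff₀ hρ0]; linarith
      have h5 : Real.cos η ≤ g := le_min (Real.cos_le_one _) h4
      linarith
    · by_contra hcon
      push Not at hcon
      have h3 := Real.cos_lt_cos_of_nonneg_of_le_pi (by linarith : 0 ≤ β) (by linarith [hη.2]) hcon
      rw [hcosβ] at h3
      have h4 : c / ρ ≤ Real.cos η := by rw [div_le_iff₀ hρ0]; linarith
      linarith

lemma angle (ρ c w α : ℝ) (hρ : 1 ≤ ρ) (hc : 0 ≤ c) (hw : 0 < w) (hcρ : c < ρ)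
    (hα : α ∈ Ioc (-Real.pi) Real.pi) :
    volume {θ : ℝ | θ ∈ Ico 0 (2 * Real.pi) ∧ c ≤ ρ * |Real.cos (θ - α)| ∧
      ρ * |Real.cos (θ - α)| ≤ c + w} ≤ ENNReal.ofReal (10 * (Real.pi * w / Real.sqrt (ρ - c))) := by
  obtain ⟨γ, β, hγ0, hγβ, hβ2, hgap, hmem⟩ := arccos_gap ρ c w hρ hc hw hcρ
  have hpi := Real.pi_pos
  have hsub : {θ : ℝ | θ ∈ Ico 0 (2 * Real.pi) ∧ c ≤ ρ * |Real.cos (θ - α)| ∧
      ρ * |Real.cos (θ - α)| ≤ c + w} ⊆ ⋃ k ∈ Finset.Icc (-1:ℤ) 3,
        (Icc (α + k * Real.pi + γ) (α + k * Real.pi + β) ∪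
          Icc (α + k * Real.pi - β) (α + k * Real.pi - γ)) := by
    rintro θ ⟨hθ, h1, h2⟩
    set k : ℤ := round ((θ - α)/Real.pi) with hk
    have hr := abs_sub_round ((θ - α)/Real.pi)
    rw [← hk] at hr
    set η := θ - α - k * Real.pi with hη
    have hη1 : |η| ≤ Real.pi / 2 := by
      have e1 : η = ((θ - α)/Real.pi - k) * Real.pi := by rw [hη]; field_simp
      rw [e1, abs_mul, abs_of_pos hpi]
      nlinarith
    have hcos : |Real.cos (θ - α)| = Real.cos |η| := by
      have e1 : θ - α = η + k * Real.pi := by rw [hη]; ring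
      rw [e1, Real.cos_add_int_mul_pi, abs_mul, abs_zpow, abs_neg, abs_one, one_zpow, one_mul,
        Real.cos_abs]
      apply abs_of_nonneg
      exact Real.cos_nonneg_of_mem_Icc ⟨by linarith [(abs_le.mp hη1).1], (abs_le.mp hη1).2⟩
    rw [hcos] at h1 h2
    have hm := hmem |η| ⟨abs_nonneg _, hη1⟩ h1 h2
    have hk1 : k ∈ Finset.Icc (-1:ℤ) 3 := by
      have e1 : |η| ≤ Real.pi/2 := hη1
      obtain ⟨e2, e3⟩ := abs_le.mp e1
      rw [Finset.mem_Icc]
      constructor
      · by_contra hcon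
        push Not at hcon
        have h5 : k ≤ -2 := by omega
        have h6 : (k:ℝ) ≤ -2 := by exact_mod_cast h5
        have h7 : (k:ℝ) * Real.pi ≤ -2 * Real.pi := mul_le_mul_of_nonneg_right h6 hpi.le
        have := hθ.1; have := hα.2
        linarith
      · by_contra hcon
        push Not at hcon
        have h5 : 4 ≤ k := by omega
        have h6 : (4:ℝ) ≤ k := by exact_mod_cast h5
        have h7 : 4 * Real.pi ≤ (k:ℝ) * Real.pi := mul_le_mul_of_nonneg_right h6 hpi.le
        have := hθ.2; have := hα.1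
        linarith
    simp only [mem_iUnion]
    refine ⟨k, hk1, ?_⟩
    rcases le_or_gt 0 η with h0 | h0
    · left
      rw [abs_of_nonneg h0] at hm
      constructor <;> linarith [hm.1, hm.2]
    · right
      rw [abs_of_neg h0] at hm
      constructor <;> linarith [hm.1, hm.2]
  refine (measure_mono hsub).trans ?_
  refine (measure_biUnion_finset_le _ _).trans ?_
  have h1 : ∀ k ∈ Finset.Icc (-1:ℤ) 3, volume (Icc (α + k * Real.pi + γ) (α + k * Real.pi + β) ∪
          Icc (α + k * Real.pi - β) (α + k * Real.pi - γ)) ≤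
          ENNReal.ofReal (2 * (Real.pi * w / Real.sqrt (ρ - c))) := by
    intro k _
    refine (measure_union_le _ _).trans ?_
    rw [Real.volume_Icc, Real.volume_Icc, ← ENNReal.ofReal_add (by linarith) (by linarith)]
    apply ENNReal.ofReal_le_ofReal
    linarith
  refine (Finset.sum_le_sum h1).trans ?_
  rw [Finset.sum_const, Int.card_Icc, nsmul_eq_mul]
  have e0 : (3 + 1 - (-1) : ℤ).toNat = 5 := rfl
  have e : (((3 + 1 - (-1) : ℤ).toNat : ℕ) : ℝ≥0∞) = ENNReal.ofReal 5 := by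
    rw [e0]; norm_num
  rw [e, ← ENNReal.ofReal_mul (by norm_num)]
  apply ENNReal.ofReal_le_ofReal
  linarith

/-- the constant -/
def K : ℝ≥0∞ := ∫⁻ u in Ioo (0:ℝ) 1, ENNReal.ofReal (4 * u^(-(3/4:ℝ)))

lemma K_fin : K < ⊤ := by
  have h1 : IntervalIntegrable (fun u : ℝ => 4 * u^(-(3/4:ℝ))) volume 0 1 :=
    (intervalIntegral.intervalIntegrable_rpow' (by norm_num)).const_mul 4
  rw [intervalIntegrable_iff_integrableOn_Ioo_of_le (by norm_num)] at h1
  unfold K
  rw [← ofReal_integral_eq_lintegral_ofReal h1]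
  · exact ENNReal.ofReal_lt_top
  · rw [Filter.EventuallyLE, ae_restrict_iff' measurableSet_Ioo]
    filter_upwards with u hu
    have := hu.1
    simp only [Pi.zero_apply]
    positivity

lemma pot_bound (x d : ℝ) (hx : 0 < x) (hd : 0 < d) (h : (d/4)^3 ≤ x^2) :
    1 / Real.sqrt x ≤ 4 * d^(-(3/4:ℝ)) := by
  have h1 : (d/4)^(3/4:ℝ) ≤ Real.sqrt x := by
    have e1 : Real.sqrt x = (x^2)^(1/4:ℝ) := by
      rw [Real.sqrt_eq_rpow, ← Real.rpow_natCast x 2, ← Real.rpow_mul hx.le]
      norm_num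
    have e2 : (d/4)^(3/4:ℝ) = ((d/4)^3)^(1/4:ℝ) := by
      rw [← Real.rpow_natCast (d/4) 3, ← Real.rpow_mul (by positivity)]
      norm_num
    rw [e1, e2]
    exact Real.rpow_le_rpow (by positivity) h (by norm_num)
  have h2 : 0 < (d/4)^(3/4:ℝ) := by positivity
  have h3 : 1 / Real.sqrt x ≤ 1 / (d/4)^(3/4:ℝ) := one_div_le_one_div_of_le h2 h1
  refine h3.trans ?_
  rw [Real.div_rpow hd.le (by norm_num), one_div, inv_div, Real.rpow_neg hd.le, div_eq_mul_inv]
  apply mul_le_mul_of_nonneg_right _ (by positivity)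
  calc (4:ℝ)^(3/4:ℝ) ≤ (4:ℝ)^(1:ℝ) := Real.rpow_le_rpow_of_exponent_le (by norm_num) (by norm_num)
    _ = 4 := Real.rpow_one 4

lemma pot (c : ℝ) :
    ∫⁻ t in Ico (0:ℝ) 1, (if c < 1 + T t then ENNReal.ofReal (1 / Real.sqrt (1 + T t - c)) else 0) ≤ K := by
  by_cases hS : ∃ t ∈ Ico (0:ℝ) 1, c < 1 + T t
  · obtain ⟨t1, ht1, ht1c⟩ := hS
    set S := {t : ℝ | t ∈ Ico (0:ℝ) 1 ∧ c < 1 + T t} with hSdef
    have hSne : S.Nonempty := ⟨t1, ht1, ht1c⟩
    have hSb : BddBelow S := ⟨0, fun t ht => ht.1.1⟩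
    set t0 := sInf S with ht0
    have ht00 : 0 ≤ t0 := le_csInf hSne (fun t ht => ht.1.1)
    set H : ℝ → ℝ≥0∞ := (Ioo (0:ℝ) 1).indicator (fun u => ENNReal.ofReal (4 * u^(-(3/4:ℝ)))) with hH
    have hHK : ∫⁻ u, H u = K := by
      rw [hH, lintegral_indicator measurableSet_Ioo]; rfl
    have hshift : ∫⁻ t, H (t - t0) = K := by
      rw [← hHK]
      exact lintegral_sub_right_eq_self H t0
    rw [← hshift, ← lintegral_indicator measurableSet_Ico]
    apply lintegral_mono_ae
    have h4 : ∀ᵐ t : ℝ, t ≠ t0 := by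
      rw [ae_iff]; simp
    filter_upwards [h4] with t ht
    by_cases htI : t ∈ Ico (0:ℝ) 1
    · rw [indicator_of_mem htI]
      split_ifs with hct
      · have htS : t ∈ S := ⟨htI, hct⟩
        have h5 : t0 ≤ t := csInf_le hSb htS
        have h6 : t0 < t := lt_of_le_of_ne h5 (Ne.symm ht)
        have hmem : t - t0 ∈ Ioo (0:ℝ) 1 := ⟨by linarith, by linarith [htI.2]⟩
        rw [hH, indicator_of_mem hmem]
        apply ENNReal.ofReal_le_ofReal
        obtain ⟨s, hs, hst⟩ := exists_lt_of_csInf_lt hSne (show t0 < (t + t0)/2 by linarith)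
        have hs0 : t0 ≤ s := csInf_le hSb hs
        have h7 := T_gap s t hs.1.1 (by linarith) (by linarith [htI.2, hs.1.1])
        have h8 := T_mono (show s ≤ t by linarith)
        have h9 := hs.2
        apply pot_bound _ _ (by linarith) hmem.1
        calc ((t - t0)/4)^3 ≤ ((t - s)/2)^3 := by
              apply pow_le_pow_left₀ (by linarith); linarith
          _ ≤ (T t - T s)^2 := h7
          _ ≤ (1 + T t - c)^2 := by
              apply pow_le_pow_left₀ (by linarith); linarith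
      · exact zero_le
    · rw [indicator_of_notMem htI]
      exact zero_le
  · push Not at hS
    have h0 : ∫⁻ t in Ico (0:ℝ) 1, (if c < 1 + T t then ENNReal.ofReal (1 / Real.sqrt (1 + T t - c)) else 0) = 0 := by
      rw [setLIntegral_congr_fun measurableSet_Ico (g := fun _ => 0)]
      · simp
      · intro t ht
        simp only
        rw [if_neg (not_lt.mpr (hS t ht))]
    rw [h0]
    exact zero_le

lemma T_meas : Measurable T := T_mono.measurable

def Phi (p : ℝ × ℝ) : ℂ := ((1 + T p.1 : ℝ) : ℂ) * Complex.exp (Complex.I * (p.2 : ℂ))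

lemma Phi_meas : Measurable Phi := by
  unfold Phi
  apply Measurable.mul
  · exact Complex.measurable_ofReal.comp (measurable_const.add (T_meas.comp measurable_fst))
  · exact Complex.measurable_exp.comp ((Complex.measurable_ofReal.comp measurable_snd).const_mul _)

lemma strip_meas (u : ℂ) (c w : ℝ) : MeasurableSet (strip u c w) := by
  have hc : Continuous (fun z : ℂ => (starRingEnd ℂ u * z).re) := by fun_prop
  exact ((isClosed_le continuous_const hc).inter (isClosed_le hc continuous_const)).measurableSet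

def mu : Measure (ℝ × ℝ) :=
  (volume.restrict (Ico (0:ℝ) 1)).prod (volume.restrict (Ico (0:ℝ) (2 * Real.pi)))

lemma strip_bound (u : ℂ) (c w : ℝ) (hu : ‖u‖ = 1) (hw : 0 < w) :
    mu (Phi ⁻¹' strip u c w) ≤ ENNReal.ofReal w * (ENNReal.ofReal (10 * Real.pi) * K) := by
  have hpi := Real.pi_pos
  set α := Complex.arg u with hα
  have hαm : α ∈ Ioc (-Real.pi) Real.pi := Complex.arg_mem_Ioc u
  have hu' : u = Complex.exp (Complex.I * (α : ℂ)) := by
    have := Complex.norm_mul_exp_arg_mul_I u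
    rw [hu] at this
    rw [mul_comm, ← this]
    simp [hα]
  have hre : ∀ ρ θ : ℝ, (starRingEnd ℂ u * ((ρ : ℂ) * Complex.exp (Complex.I * (θ : ℂ)))).re =
      ρ * Real.cos (θ - α) := by
    intro ρ θ
    have e1 : starRingEnd ℂ u = Complex.exp (-(Complex.I * (α : ℂ))) := by
      rw [hu', ← Complex.exp_conj]
      congr 1
      simp
    have e2 : starRingEnd ℂ u * ((ρ : ℂ) * Complex.exp (Complex.I * (θ : ℂ))) =
        (ρ : ℂ) * Complex.exp (((θ - α : ℝ) : ℂ) * Complex.I) := by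
      rw [e1]
      have : Complex.exp (((θ - α : ℝ) : ℂ) * Complex.I) =
        Complex.exp (-(Complex.I * (α : ℂ))) * Complex.exp (Complex.I * (θ : ℂ)) := by
        rw [← Complex.exp_add]; congr 1; push_cast; ring
      rw [this]; ring
    rw [e2, Complex.re_ofReal_mul, Complex.exp_ofReal_mul_I_re]
  set c' := max 0 (max c (-(c+w))) with hc'
  have hc0 : 0 ≤ c' := le_max_left _ _
  have hc1 : c ≤ c' := (le_max_left _ _).trans (le_max_right _ _)
  have hc2 : -(c+w) ≤ c' := (le_max_right _ _).trans (le_max_right _ _)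
  have habs : ∀ x : ℝ, c ≤ x → x ≤ c + w → c' ≤ |x| ∧ |x| ≤ c' + w := by
    intro x h1 h2
    constructor
    · apply max_le (abs_nonneg _)
      apply max_le (h1.trans (le_abs_self _))
      have := neg_abs_le x
      linarith
    · rw [abs_le]
      constructor <;> linarith
  unfold mu
  rw [Measure.prod_apply (Phi_meas (strip_meas u c w))]
  have hae : ∀ᵐ t ∂(volume.restrict (Ico (0:ℝ) 1)),
      (volume.restrict (Ico (0:ℝ) (2 * Real.pi))) (Prod.mk t ⁻¹' (Phi ⁻¹' strip u c w)) ≤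
      ENNReal.ofReal w * (ENNReal.ofReal (10 * Real.pi) *
        (if c' < 1 + T t then ENNReal.ofReal (1 / Real.sqrt (1 + T t - c')) else 0)) := by
    rw [ae_restrict_iff' measurableSet_Ico]
    have hsub : volume {t : ℝ | t ∈ Ico (0:ℝ) 1 ∧ 1 + T t = c'} = 0 := by
      apply Set.Subsingleton.measure_zero
      rintro s ⟨hs1, hs2⟩ t ⟨ht1, ht2⟩
      by_contra hne
      rcases lt_or_gt_of_ne hne with h | h
      · have h7 := T_gap s t hs1.1 h (by linarith [ht1.2, hs1.1])
        have h8 : T t - T s = 0 := by linarith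
        rw [h8] at h7
        have : 0 < ((t - s)/2)^3 := by
          have : 0 < t - s := by linarith
          positivity
        norm_num at h7
        linarith
      · have h7 := T_gap t s ht1.1 h (by linarith [hs1.2, ht1.1])
        have h8 : T s - T t = 0 := by linarith
        rw [h8] at h7
        have : 0 < ((s - t)/2)^3 := by
          have : 0 < s - t := by linarith
          positivity
        norm_num at h7
        linarith
    have hae0 : ∀ᵐ t : ℝ, ¬ (t ∈ Ico (0:ℝ) 1 ∧ 1 + T t = c') := by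
      rw [ae_iff]
      simp only [not_not]
      exact hsub
    filter_upwards [hae0] with t ht0 ht
    have hne : 1 + T t ≠ c' := fun h => ht0 ⟨ht, h⟩
    have hρ : 1 ≤ 1 + T t := by linarith [T_nonneg t]
    have hsub2 : Prod.mk t ⁻¹' (Phi ⁻¹' strip u c w) ∩ Ico (0:ℝ) (2 * Real.pi) ⊆
        {θ : ℝ | θ ∈ Ico 0 (2 * Real.pi) ∧ c' ≤ (1 + T t) * |Real.cos (θ - α)| ∧
      (1 + T t) * |Real.cos (θ - α)| ≤ c' + w} := by
      rintro θ ⟨h1, h2⟩
      obtain ⟨h3, h4⟩ := h1
      simp only [Phi] at h3 h4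
      rw [hre] at h3 h4
      have h5 := habs _ h3 h4
      rw [abs_mul, abs_of_nonneg (by linarith : 0 ≤ 1 + T t)] at h5
      exact ⟨h2, h5⟩
    rw [Measure.restrict_apply (measurable_prodMk_left (Phi_meas (strip_meas u c w)))]
    refine (measure_mono hsub2).trans ?_
    split_ifs with hlt
    · refine (angle (1 + T t) c' w α hρ hc0 hw hlt hαm).trans ?_
      rw [← ENNReal.ofReal_mul (by positivity), ← ENNReal.ofReal_mul hw.le]
      apply ENNReal.ofReal_le_ofReal
      apply le_of_eq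
      ring
    · have hgt : 1 + T t < c' := lt_of_le_of_ne (not_lt.mp hlt) hne
      have hemp : {θ : ℝ | θ ∈ Ico 0 (2 * Real.pi) ∧ c' ≤ (1 + T t) * |Real.cos (θ - α)| ∧
        (1 + T t) * |Real.cos (θ - α)| ≤ c' + w} = ∅ := by
        ext θ
        simp only [Set.mem_ofPred_eq, mem_empty_iff_false, iff_false, not_and]
        intro _ h3 _
        have := Real.abs_cos_le_one (θ - α)
        nlinarith
      rw [hemp, measure_empty]
      exact zero_le
  refine (lintegral_mono_ae hae).trans ?_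
  rw [lintegral_const_mul' _ _ ENNReal.ofReal_ne_top, lintegral_const_mul' _ _ ENNReal.ofReal_ne_top]
  gcongr
  exact pot c'

lemma N_strip : ∃ ε : ℝ, 0 < ε ∧ StripBound N ε := by
  set C : ℝ≥0∞ := ENNReal.ofReal (10 * Real.pi) * K with hC
  have hCfin : C < ⊤ := ENNReal.mul_lt_top ENNReal.ofReal_lt_top K_fin
  have hC1 : C + 1 ≠ ⊤ := (ENNReal.add_lt_top.mpr ⟨hCfin, ENNReal.one_lt_top⟩).ne
  have hpi := Real.pi_pos
  set x : ℝ≥0∞ := ENNReal.ofReal (2 * Real.pi) / (C + 1) with hx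
  have hx0 : x ≠ 0 := by
    rw [hx, Ne, ENNReal.div_eq_zero_iff]
    push Not
    refine ⟨?_, hC1⟩
    rw [Ne, ENNReal.ofReal_eq_zero]
    push Not
    positivity
  have hxt : x ≠ ⊤ := by
    rw [hx]
    exact (ENNReal.div_lt_top ENNReal.ofReal_ne_top (by simp)).ne
  refine ⟨x.toReal, ENNReal.toReal_pos hx0 hxt, ?_⟩
  intro ι _ u c w huw hcov
  rw [ENNReal.ofReal_toReal hxt]
  have h1 : (Ico (0:ℝ) 1) ×ˢ (Ico (0:ℝ) (2 * Real.pi)) ⊆ ⋃ i, Phi ⁻¹' strip (u i) (c i) (w i) := by
    rintro ⟨t, θ⟩ ⟨ht, hθ⟩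
    rw [← preimage_iUnion]
    apply hcov
    refine ⟨t, ht, ?_⟩
    simp only [Phi]
    rw [norm_mul, Complex.norm_exp_I_mul_ofReal, mul_one, Complex.norm_real, Real.norm_eq_abs,
      abs_of_nonneg (by linarith [T_nonneg t])]
  have h2 : mu ((Ico (0:ℝ) 1) ×ˢ (Ico (0:ℝ) (2 * Real.pi))) = ENNReal.ofReal (2 * Real.pi) := by
    unfold mu
    rw [Measure.prod_prod, Measure.restrict_apply_self, Measure.restrict_apply_self,
      Real.volume_Ico, Real.volume_Ico]
    simp
  have h3 : ENNReal.ofReal (2 * Real.pi) ≤ (∑' i, ENNReal.ofReal (w i)) * C := by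
    rw [← h2]
    refine (measure_mono h1).trans ?_
    refine (measure_iUnion_le _).trans ?_
    rw [← ENNReal.tsum_mul_right]
    exact ENNReal.tsum_le_tsum (fun i => strip_bound _ _ _ (huw i).1 (huw i).2)
  rw [hx]
  refine ENNReal.div_le_of_le_mul ?_
  refine h3.trans ?_
  gcongr
  exact le_self_add

lemma StripBound.mono {E F : Set ℂ} {ε : ℝ} (h : StripBound E ε) (hEF : E ⊆ F) : StripBound F ε := by
  intro ι _ u c w huw hcov
  exact h ι u c w huw (hEF.trans hcov)

lemma StripBound.not_propS {E : Set ℂ} {ε : ℝ} (h : StripBound E ε) (hε : 0 < ε) : ¬ PropS E := by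
  intro hS
  obtain ⟨ι, _, u, c, w, huw, hcov, hlt⟩ := hS ε hε
  exact absurd hlt (not_lt.mpr (h ι u c w huw hcov))

theorem cond : ∃ ε : ℝ, 0 < ε ∧ ∃ N : Set ℂ, Bornology.IsBounded N ∧ volume N = 0 ∧ StripBound N ε ∧
    ∀ E : Set ℂ, IsBesicovitch E →
      IsBesicovitch (E ∪ N) ∧ StripBound (E ∪ N) ε ∧ ¬ PropS (E ∪ N) := by
  obtain ⟨ε, hε, hN⟩ := N_strip
  refine ⟨ε, hε, N, N_bdd, N_null, hN, ?_⟩
  rintro E ⟨hE1, hE2, hE3⟩
  have h1 : StripBound (E ∪ N) ε := hN.mono subset_union_right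
  refine ⟨⟨hE1.union N_bdd, ?_, ?_⟩, h1, h1.not_propS hε⟩
  · exact measure_union_null hE2 N_null
  · intro e he
    obtain ⟨a, ha⟩ := hE3 e he
    exact ⟨a, ha.trans subset_union_left⟩

end

end Pool.Agent.H7.Bes
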