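import Mathlib
import Pool.Agent.H7.BesDefs
import Pool.Agent.H7.BesM
import Pool.Agent.H7.BesE

set_option autoImplicit false
open Set Filter Topology MeasureTheory
open scoped ENNReal

namespace Pool.Agent.H7.Bes

noncomputable section

def E1 : Set ℂ := {z | (z.re, z.im) ∈ E2}

lemma E1_null : volume E1 = 0 := by
  have h1 : E1 = Complex.measurableEquivRealProd ⁻¹' E2 := rfl
  rw [h1]
  exact Complex.volume_preserving_equiv_real_prod.quasiMeasurePreserving.preimage_null E2_null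

lemma E1_bdd (z : ℂ) (hz : z ∈ E1) : ‖z‖ ≤ 3 := by
  obtain ⟨h1, a, ha, h2⟩ := hz
  simp only at h1 h2
  have h3 := Complex.norm_le_abs_re_add_abs_im z
  have h4 : |z.re| ≤ 1 := by rw [abs_le]; constructor <;> linarith [h1.1, h1.2]
  have h5 : |z.im| ≤ 2 := by
    rw [h2]
    have h6 := abs_add_le (z.re * a) (g a)
    have h7 := g_bd a ha
    have h8 : |z.re * a| ≤ 1 := by
      rw [abs_of_nonneg (mul_nonneg h1.1 ha.1)]
      nlinarith [h1.1, h1.2, ha.1, ha.2]
    linarith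
  linarith

lemma seg (F : ℂ ≃ₗᵢ[ℝ] ℂ) (e : ℂ) (he : ‖e‖ = 1) (h1 : 0 < (F e).re) (h2 : 0 ≤ (F e).im)
    (h3 : (F e).im ≤ (F e).re) : ∃ a : ℂ, segment ℝ a (a + e) ⊆ F ⁻¹' E1 := by
  set s := (F e).im / (F e).re with hs
  have hs1 : s ∈ Icc (0:ℝ) 1 := ⟨by positivity, by rw [hs, div_le_one h1]; exact h3⟩
  have hre : (F e).re ≤ 1 := by
    have := Complex.re_le_norm (F e)
    rw [F.norm_map, he] at this
    exact this
  refine ⟨F.symm ⟨0, g s⟩, ?_⟩
  rw [segment_eq_image']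
  rintro _ ⟨τ, hτ, rfl⟩
  simp only [add_sub_cancel_left]
  have h4 : F (F.symm ⟨0, g s⟩ + τ • e) = ⟨0, g s⟩ + τ • F e := by
    rw [map_add, F.apply_symm_apply, map_smul]
  change F (F.symm ⟨0, g s⟩ + τ • e) ∈ E1
  rw [h4]
  have e1 : ((⟨0, g s⟩ : ℂ) + τ • F e).re = τ * (F e).re := by simp
  have e2 : ((⟨0, g s⟩ : ℂ) + τ • F e).im = g s + τ * (F e).im := by simp
  refine ⟨?_, s, hs1, ?_⟩
  · simp only
    rw [e1]
    constructor
    · exact mul_nonneg hτ.1 h1.le
    · nlinarith [hτ.1, hτ.2]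
  · simp only
    rw [e1, e2, hs]
    field_simp
    ring

def cI : Circle := ⟨Complex.I, by simp [Submonoid.unitSphere]⟩

def Fm (k : ℕ) : ℂ ≃ₗᵢ[ℝ] ℂ := rotation (cI ^ k)
def Fc (k : ℕ) : ℂ ≃ₗᵢ[ℝ] ℂ := Complex.conjLIE.trans (rotation (cI ^ k))

lemma Fm_apply (k : ℕ) (z : ℂ) : Fm k z = Complex.I ^ k * z := by
  unfold Fm
  rw [rotation_apply, Circle.coe_pow]
  rfl

lemma Fc_apply (k : ℕ) (z : ℂ) : Fc k z = Complex.I ^ k * starRingEnd ℂ z := by
  unfold Fc
  rw [LinearIsometryEquiv.trans_apply, rotation_apply, Circle.coe_pow, Complex.conjLIE_apply]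
  rfl

def E0 : Set ℂ := ⋃ k ∈ Finset.range 4, (Fm k ⁻¹' E1 ∪ Fc k ⁻¹' E1)

lemma E0_null : volume E0 = 0 := by
  unfold E0
  refine le_antisymm ((measure_biUnion_finset_le _ _).trans ?_) zero_le
  apply le_of_eq
  apply Finset.sum_eq_zero
  intro k _
  apply measure_union_null
  · exact (Fm k).measurePreserving.quasiMeasurePreserving.preimage_null E1_null
  · exact (Fc k).measurePreserving.quasiMeasurePreserving.preimage_null E1_null

lemma E0_bdd : Bornology.IsBounded E0 := by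
  rw [isBounded_iff_forall_norm_le]
  refine ⟨3, ?_⟩
  intro z hz
  simp only [E0, mem_iUnion] at hz
  obtain ⟨k, _, hz | hz⟩ := hz
  · have := E1_bdd _ hz
    rwa [(Fm k).norm_map] at this
  · have := E1_bdd _ hz
    rwa [(Fc k).norm_map] at this

lemma subm (k : ℕ) (hk : k < 4) : Fm k ⁻¹' E1 ⊆ E0 := by
  intro z hz
  simp only [E0, mem_iUnion]
  exact ⟨k, Finset.mem_range.mpr hk, Or.inl hz⟩

lemma subc (k : ℕ) (hk : k < 4) : Fc k ⁻¹' E1 ⊆ E0 := by
  intro z hz
  simp only [E0, mem_iUnion]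
  exact ⟨k, Finset.mem_range.mpr hk, Or.inr hz⟩

lemma E0_dir (e : ℂ) (he : ‖e‖ = 1) : ∃ a : ℂ, segment ℝ a (a + e) ⊆ E0 := by
  have hne : e.re ≠ 0 ∨ e.im ≠ 0 := by
    by_contra hcon
    push Not at hcon
    have : e = 0 := Complex.ext hcon.1 hcon.2
    rw [this, norm_zero] at he
    exact zero_ne_one he
  have hI3 : Complex.I ^ 3 = -Complex.I := Complex.I_pow_three
  have m0 : Fm 0 e = e := by rw [Fm_apply]; simp
  have c0 : Fc 0 e = starRingEnd ℂ e := by rw [Fc_apply]; simp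
  have m1 : Fm 1 e = Complex.I * e := by rw [Fm_apply]; simp
  have c1 : Fc 1 e = Complex.I * starRingEnd ℂ e := by rw [Fc_apply]; simp
  have m2 : Fm 2 e = - e := by rw [Fm_apply]; simp
  have c2 : Fc 2 e = - starRingEnd ℂ e := by rw [Fc_apply]; simp
  have m3 : Fm 3 e = - Complex.I * e := by rw [Fm_apply, hI3]
  have c3 : Fc 3 e = - Complex.I * starRingEnd ℂ e := by rw [Fc_apply, hI3]
  have fin : ∀ F : ℂ ≃ₗᵢ[ℝ] ℂ, F ⁻¹' E1 ⊆ E0 → 0 < (F e).re → 0 ≤ (F e).im →
      (F e).im ≤ (F e).re → ∃ a : ℂ, segment ℝ a (a + e) ⊆ E0 := by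
    intro F hF h1 h2 h3
    obtain ⟨a, ha⟩ := seg F e he h1 h2 h3
    exact ⟨a, ha.trans hF⟩
  rcases le_total |e.im| |e.re| with h | h
  · have hre : e.re ≠ 0 := by
      rcases hne with h' | h'
      · exact h'
      · intro h0; rw [h0, abs_zero] at h; exact h' (abs_nonpos_iff.mp h)
    rcases lt_or_gt_of_ne hre with hr | hr
    · rw [abs_of_neg hr, abs_le] at h
      rcases le_or_gt 0 e.im with hi | hi
      · exact fin (Fc 2) (subc 2 (by norm_num)) (by rw [c2]; simpa using hr) (by rw [c2]; simpa using hi)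
          (by rw [c2]; simp; linarith)
      · exact fin (Fm 2) (subm 2 (by norm_num)) (by rw [m2]; simpa using hr) (by rw [m2]; simpa using hi.le)
          (by rw [m2]; simp; linarith)
    · rw [abs_of_pos hr, abs_le] at h
      rcases le_or_gt 0 e.im with hi | hi
      · exact fin (Fm 0) (subm 0 (by norm_num)) (by rw [m0]; exact hr) (by rw [m0]; exact hi)
          (by rw [m0]; linarith)
      · exact fin (Fc 0) (subc 0 (by norm_num)) (by rw [c0]; simpa using hr) (by rw [c0]; simpa using hi.le)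
          (by rw [c0]; simp; linarith)
  · have him : e.im ≠ 0 := by
      rcases hne with h' | h'
      · intro h0; rw [h0, abs_zero] at h; exact h' (abs_nonpos_iff.mp h)
      · exact h'
    rcases lt_or_gt_of_ne him with hi | hi
    · rw [abs_of_neg hi, abs_le] at h
      rcases le_or_gt 0 e.re with hr | hr
      · exact fin (Fm 1) (subm 1 (by norm_num)) (by rw [m1]; simpa using hi) (by rw [m1]; simpa using hr)
          (by rw [m1]; simp; linarith)
      · exact fin (Fc 3) (subc 3 (by norm_num)) (by rw [c3]; simpa using hi) (by rw [c3]; simpa using hr.le)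
          (by rw [c3]; simp; linarith)
    · rw [abs_of_pos hi, abs_le] at h
      rcases le_or_gt 0 e.re with hr | hr
      · exact fin (Fc 1) (subc 1 (by norm_num)) (by rw [c1]; simpa using hi) (by rw [c1]; simpa using hr)
          (by rw [c1]; simp; linarith)
      · exact fin (Fm 3) (subm 3 (by norm_num)) (by rw [m3]; simpa using hi) (by rw [m3]; simpa using hr.le)
          (by rw [m3]; simp; linarith)

lemma E0_bes : IsBesicovitch E0 := ⟨E0_bdd, E0_null, E0_dir⟩

theorem uncond : ∃ E : Set ℂ, IsBesicovitch E ∧ ∃ ε : ℝ, 0 < ε ∧ StripBound E ε := by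
  obtain ⟨ε, hε, N, _, _, _, h⟩ := cond
  obtain ⟨h1, h2, _⟩ := h E0 E0_bes
  exact ⟨E0 ∪ N, h1, ε, hε, h2⟩

end

end Pool.Agent.H7.Bes
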