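import Mathlib

set_option autoImplicit false
open Set
open scoped NNReal ENNReal

namespace Pool.Agent.H7.LipFree

noncomputable section

/-- The set underlying `Lip₀(M)`, base point `z`: Lipschitz `f : M → ℝ` with `f z = 0`. -/
def Lip0 (M : Type) [MetricSpace M] (z : M) : Type :=
  {f : M → ℝ // f z = 0 ∧ ∃ K : ℝ≥0, LipschitzWith K f}

variable {M : Type} [MetricSpace M] {z : M}

/-- The best Lipschitz constant `sup {|f x - f y| / d(x,y)}`, the norm of `Lip₀(M)`. -/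
def lipNorm (f : Lip0 M z) : ℝ := ⨆ p : M × M, |f.1 p.1 - f.1 p.2| / dist p.1 p.2

/-- `δ(x)`: evaluation at `x`, as a function on `Lip₀(M)`. -/
def evalAt (x : M) : Lip0 M z → ℝ := fun f => f.1 x

/-- The elements of `F(M)`: functionals `φ` on `Lip₀(M)` that are dual-norm limits of elements of
the linear span of the `δ(x)`. -/
def Free (M : Type) [MetricSpace M] (z : M) : Set (Lip0 M z → ℝ) :=
  {φ | ∀ ε : ℝ, 0 < ε → ∃ m ∈ Submodule.span ℝ (range (evalAt : M → Lip0 M z → ℝ)),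
    ∀ f, |φ f - m f| ≤ ε * lipNorm f}

/-- The dual norm: the least `C ≥ 0` with `|φ f| ≤ C ‖f‖` for all `f`. -/
def dualNorm (φ : Lip0 M z → ℝ) : ℝ := sInf {C : ℝ | 0 ≤ C ∧ ∀ f, |φ f| ≤ C * lipNorm f}

/-- the real Banach space `ℓ_∞` -/
abbrev Linf : Type := lp (fun _ : ℕ => ℝ) ⊤

/-- `Lip₀(ℓ_∞)` -/
def LipInf : Type := Lip0 Linf 0

/-- `F(ℓ_∞)` -/
def FreeInf : Set (LipInf → ℝ) := Free Linf 0

/-- the canonical norm of `F(ℓ_∞)` -/
def normInf (φ : LipInf → ℝ) : ℝ := dualNorm (M := Linf) (z := 0) φ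

end

end Pool.Agent.H7.LipFree
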