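import Mathlib
import Pool.Agent.H7.LipFreeDefs

set_option autoImplicit false
open Set Filter Topology
open scoped NNReal ENNReal

namespace Pool.Agent.H7.LipFree

noncomputable section

/-- The real vector space of Lipschitz functions `f : M → ℝ` with `f z = 0`. -/
def lipSub (M : Type) [MetricSpace M] (z : M) : Submodule ℝ (M → ℝ) where
  carrier := {f | f z = 0 ∧ ∃ K : ℝ≥0, LipschitzWith K f}
  zero_mem' := ⟨rfl, 0, LipschitzWith.const 0⟩
  add_mem' := by
    rintro f g ⟨h1, K, hK⟩ ⟨h2, L, hL⟩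
    exact ⟨by simp [h1, h2], K + L, hK.add hL⟩
  smul_mem' := by
    rintro c f ⟨h1, K, hK⟩
    refine ⟨by simp [h1], ‖c‖₊ * K, ?_⟩
    apply LipschitzWith.of_dist_le_mul
    intro x y
    have h := hK.dist_le_mul x y
    rw [Real.dist_eq] at h ⊢
    simp only [Pi.smul_apply, smul_eq_mul]
    rw [← mul_sub, abs_mul]
    push_cast
    rw [Real.norm_eq_abs, mul_assoc]
    exact mul_le_mul_of_nonneg_left h (abs_nonneg c)

variable {M : Type} [MetricSpace M] {z : M}

instance : AddCommGroup (Lip0 M z) := inferInstanceAs (AddCommGroup ↥(lipSub M z))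
instance : Module ℝ (Lip0 M z) := inferInstanceAs (Module ℝ ↥(lipSub M z))

/-- the function underlying an element of `Lip₀(M)` -/
def Lip0.fn (f : Lip0 M z) : M → ℝ := f.1

instance : Norm (Lip0 M z) := ⟨lipNorm⟩

lemma norm_def (f : Lip0 M z) :
    ‖f‖ = ⨆ p : M × M, |f.fn p.1 - f.fn p.2| / dist p.1 p.2 := rfl

lemma bdd (f : Lip0 M z) :
    BddAbove (range fun p : M × M => |f.fn p.1 - f.fn p.2| / dist p.1 p.2) := by
  obtain ⟨_, K, hK⟩ := f.2
  refine ⟨K, ?_⟩
  rintro _ ⟨p, rfl⟩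
  have h := hK.dist_le_mul p.1 p.2
  rw [Real.dist_eq] at h
  rcases eq_or_lt_of_le (dist_nonneg (x := p.1) (y := p.2)) with h0 | h0
  · simp only [← h0, div_zero]
    exact K.2
  · simp only
    rw [div_le_iff₀ h0]
    exact h

lemma abs_sub_le (f : Lip0 M z) (x y : M) : |f.fn x - f.fn y| ≤ ‖f‖ * dist x y := by
  rcases eq_or_ne x y with h | h
  · subst h; simp
  · have h0 : 0 < dist x y := dist_pos.mpr h
    rw [← div_le_iff₀ h0]
    exact le_ciSup (bdd f) (x, y)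

lemma norm_nonneg' (f : Lip0 M z) : 0 ≤ ‖f‖ := by
  have h := le_ciSup (bdd f) (z, z)
  simp only [sub_self, abs_zero, zero_div] at h
  exact h

lemma norm_le_of (f : Lip0 M z) (C : ℝ) (hC : 0 ≤ C)
    (h : ∀ x y, |f.fn x - f.fn y| ≤ C * dist x y) : ‖f‖ ≤ C := by
  have : Nonempty (M × M) := ⟨(z, z)⟩
  apply ciSup_le
  intro p
  rcases eq_or_lt_of_le (dist_nonneg (x := p.1) (y := p.2)) with h0 | h0
  · rw [← h0, div_zero]; exact hC
  · rw [div_le_iff₀ h0]; exact h _ _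

lemma fn_add (f g : Lip0 M z) (x : M) : (f + g).fn x = f.fn x + g.fn x := rfl
lemma fn_smul (c : ℝ) (f : Lip0 M z) (x : M) : (c • f).fn x = c * f.fn x := rfl
lemma fn_sub (f g : Lip0 M z) (x : M) : (f - g).fn x = f.fn x - g.fn x := rfl
lemma fn_base (f : Lip0 M z) : f.fn z = 0 := f.2.1

lemma core : NormedSpace.Core ℝ (Lip0 M z) where
  norm_nonneg := norm_nonneg'
  norm_smul := by
    intro c f
    apply le_antisymm
    · apply norm_le_of _ _ (mul_nonneg (norm_nonneg _) (norm_nonneg' f))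
      intro x y
      rw [fn_smul, fn_smul, ← mul_sub, abs_mul, mul_assoc]
      exact mul_le_mul_of_nonneg_left (abs_sub_le f x y) (abs_nonneg c)
    · rcases eq_or_ne c 0 with hc | hc
      · subst hc
        simp only [norm_zero, zero_mul]
        exact norm_nonneg' _
      · have hc' : 0 < ‖c‖ := norm_pos_iff.mpr hc
        rw [← le_div_iff₀' hc']
        apply norm_le_of _ _ (div_nonneg (norm_nonneg' _) hc'.le)
        intro x y
        have h := abs_sub_le (c • f) x y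
        rw [fn_smul, fn_smul, ← mul_sub, abs_mul] at h
        rw [div_mul_eq_mul_div, le_div_iff₀' hc']
        exact h
  norm_triangle := by
    intro f g
    apply norm_le_of _ _ (add_nonneg (norm_nonneg' f) (norm_nonneg' g))
    intro x y
    rw [fn_add, fn_add]
    calc |f.fn x + g.fn x - (f.fn y + g.fn y)| = |(f.fn x - f.fn y) + (g.fn x - g.fn y)| := by
          congr 1; ring
      _ ≤ |f.fn x - f.fn y| + |g.fn x - g.fn y| := abs_add_le _ _
      _ ≤ ‖f‖ * dist x y + ‖g‖ * dist x y := add_le_add (abs_sub_le f x y) (abs_sub_le g x y)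
      _ = _ := by ring
  norm_eq_zero_iff := by
    intro f
    constructor
    · intro h
      apply Subtype.ext
      funext x
      have h1 := abs_sub_le f x z
      rw [h, zero_mul, fn_base, sub_zero] at h1
      exact abs_eq_zero.mp (le_antisymm h1 (abs_nonneg _))
    · intro h
      subst h
      apply le_antisymm _ (norm_nonneg' _)
      apply norm_le_of _ _ le_rfl
      intro x y
      show |(0:ℝ) - 0| ≤ _
      simp

instance : NormedAddCommGroup (Lip0 M z) := NormedAddCommGroup.ofCore core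
instance : NormedSpace ℝ (Lip0 M z) := NormedSpace.ofCore core

/-- the evaluation functional `δ(x) ∈ Lip₀(M)*` -/
def delta (x : M) : Lip0 M z →L[ℝ] ℝ :=
  LinearMap.mkContinuous
    { toFun := fun f => f.fn x
      map_add' := fun f g => rfl
      map_smul' := fun c f => rfl } (dist x z) (by
    intro f
    have h := abs_sub_le f x z
    rw [fn_base, sub_zero, mul_comm] at h
    exact h)

lemma delta_apply (x : M) (f : Lip0 M z) : delta x f = f.fn x := rfl

/-- The Lipschitz-free space: closed linear span of the `δ(x)` in `Lip₀(M)*`, dual norm. -/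
def FreeSpace (M : Type) [MetricSpace M] (z : M) : Submodule ℝ (Lip0 M z →L[ℝ] ℝ) :=
  (Submodule.span ℝ (range (delta : M → Lip0 M z →L[ℝ] ℝ))).topologicalClosure

/-- finite coordinate projections -/
def pr (n : ℕ) (x : Linf) : Fin n → ℝ := fun i => x i

lemma pr_dist (n : ℕ) (x y : Linf) : dist (pr n x) (pr n y) ≤ dist x y := by
  rw [dist_pi_le_iff dist_nonneg]
  intro i
  rw [dist_eq_norm, dist_eq_norm]
  exact lp.norm_apply_le_norm (by simp) (x - y) i

lemma pr_large (x y : Linf) : ∀ᶠ n in atTop, dist x y ≤ 2 * dist (pr n x) (pr n y) := by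
  rcases eq_or_ne x y with h | h
  · subst h; simp
  · have h0 : 0 < ‖x - y‖ := norm_pos_iff.mpr (sub_ne_zero.mpr h)
    have h1 : ∃ i, ‖x - y‖ / 2 < ‖(x - y : Linf) i‖ := by
      by_contra hcon
      push Not at hcon
      have := lp.norm_le_of_forall_le (f := x - y) (by positivity) hcon
      linarith
    obtain ⟨i, hi⟩ := h1
    filter_upwards [eventually_gt_atTop i] with n hn
    have h2 := dist_le_pi_dist (pr n x) (pr n y) ⟨i, hn⟩
    have h3 : dist (pr n x ⟨i, hn⟩) (pr n y ⟨i, hn⟩) = ‖(x - y : Linf) i‖ := by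
      rw [dist_eq_norm]; rfl
    rw [h3] at h2
    rw [dist_eq_norm]
    linarith

/-- 2-Lipschitz functions on `ℝⁿ` -/
def LF (n : ℕ) : Type := {g : C(Fin n → ℝ, ℝ) // LipschitzWith 2 g}

instance (n : ℕ) : TopologicalSpace (LF n) := instTopologicalSpaceSubtype
instance (n : ℕ) : Nonempty (LF n) :=
  ⟨⟨⟨fun _ => 0, continuous_const⟩, (LipschitzWith.const 0).weaken (by simp)⟩⟩
instance (n : ℕ) : SecondCountableTopology (LF n) :=
  Topology.IsEmbedding.subtypeVal.secondCountableTopology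
instance (n : ℕ) : TopologicalSpace.SeparableSpace (LF n) := inferInstance

/-- the countable family -/
def hfun (n k : ℕ) : Lip0 Linf 0 :=
  ⟨fun x => (TopologicalSpace.denseSeq (LF n) k).1 (pr n x) -
      (TopologicalSpace.denseSeq (LF n) k).1 (pr n 0), by
    refine ⟨by simp, 2, ?_⟩
    apply LipschitzWith.of_dist_le_mul
    intro x y
    have h := (TopologicalSpace.denseSeq (LF n) k).2.dist_le_mul (pr n x) (pr n y)
    rw [Real.dist_eq] at h ⊢
    rw [sub_sub_sub_cancel_right]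
    refine h.trans ?_
    exact mul_le_mul_of_nonneg_left (pr_dist n x y) (by norm_num)⟩

lemma hfun_fn (n k : ℕ) (x : Linf) : (hfun n k).fn x =
    (TopologicalSpace.denseSeq (LF n) k).1 (pr n x) -
      (TopologicalSpace.denseSeq (LF n) k).1 (pr n 0) := rfl

lemma hfun_norm (n k : ℕ) : ‖hfun n k‖ ≤ 2 := by
  apply norm_le_of _ _ (by norm_num)
  intro x y
  have h := (TopologicalSpace.denseSeq (LF n) k).2.dist_le_mul (pr n x) (pr n y)
  rw [Real.dist_eq] at h
  rw [hfun_fn, hfun_fn, sub_sub_sub_cancel_right]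
  refine h.trans ?_
  exact mul_le_mul_of_nonneg_left (pr_dist n x y) (by norm_num)

lemma approx (f : Lip0 Linf 0) (hf : ‖f‖ ≤ 1) (S : Finset Linf) (ε : ℝ) (hε : 0 < ε) :
    ∃ n k, ∀ x ∈ S, |f.fn x - (hfun n k).fn x| < ε := by
  classical
  let S' : Finset Linf := insert 0 S
  have h1 : ∀ᶠ n in atTop, ∀ x ∈ S', ∀ y ∈ S', dist x y ≤ 2 * dist (pr n x) (pr n y) := by
    rw [Filter.eventually_all_finset]
    intro x _
    rw [Filter.eventually_all_finset]
    intro y _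
    exact pr_large x y
  obtain ⟨n, hn⟩ := h1.exists
  have hinj : Set.InjOn (pr n) (S' : Set Linf) := by
    intro x hx y hy hxy
    have h := hn x hx y hy
    rw [hxy, dist_self, mul_zero] at h
    exact dist_le_zero.mp h
  let g0 : (Fin n → ℝ) → ℝ := fun v => f.fn (Function.invFunOn (pr n) (S' : Set Linf) v)
  have hg0 : ∀ x ∈ S', g0 (pr n x) = f.fn x := by
    intro x hx
    show f.fn (Function.invFunOn (pr n) (S' : Set Linf) (pr n x)) = f.fn x
    congr 1
    exact hinj (Function.invFunOn_mem ⟨x, hx, rfl⟩) hx (Function.invFunOn_eq ⟨x, hx, rfl⟩)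
  have hLip : LipschitzOnWith 2 g0 (pr n '' (S' : Set Linf)) := by
    apply LipschitzOnWith.of_dist_le_mul
    rintro _ ⟨x, hx, rfl⟩ _ ⟨y, hy, rfl⟩
    rw [hg0 x hx, hg0 y hy, Real.dist_eq]
    refine (abs_sub_le f x y).trans ?_
    refine le_trans ?_ (hn x hx y hy)
    have := dist_nonneg (x := x) (y := y)
    nlinarith
  obtain ⟨g, hgL, hgE⟩ := hLip.extend_real
  let G : LF n := ⟨⟨g, hgL.continuous⟩, hgL⟩
  let U : Set (LF n) := {q | ∀ x ∈ S', |q.1 (pr n x) - g (pr n x)| < ε / 2}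
  have hU : IsOpen U := by
    have h2 : U = ⋂ x ∈ S', {q : LF n | |q.1 (pr n x) - g (pr n x)| < ε / 2} := by
      ext q; simp [U]
    rw [h2]
    apply isOpen_biInter_finset
    intro x _
    have hc : Continuous (fun q : LF n => |q.1 (pr n x) - g (pr n x)|) := by
      have : Continuous (fun q : LF n => q.1 (pr n x)) :=
        (continuous_eval_const (F := C(Fin n → ℝ, ℝ)) (pr n x)).comp continuous_subtype_val
      exact (this.sub continuous_const).abs
    exact isOpen_lt hc continuous_const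
  have hne : U.Nonempty := ⟨G, fun x _ => by
    show |g (pr n x) - g (pr n x)| < ε/2
    simp [hε]⟩
  obtain ⟨k, hk⟩ := (TopologicalSpace.denseRange_denseSeq (LF n)).exists_mem_open hU hne
  refine ⟨n, k, ?_⟩
  intro x hx
  have hx' : x ∈ S' := Finset.mem_insert_of_mem hx
  have h0' : (0 : Linf) ∈ S' := Finset.mem_insert_self _ _
  have e1 : g (pr n x) = f.fn x := by rw [← hgE ⟨x, hx', rfl⟩, hg0 x hx']
  have e2 : g (pr n 0) = 0 := by rw [← hgE ⟨0, h0', rfl⟩, hg0 0 h0', fn_base]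
  have k1 := hk x hx'
  have k2 := hk 0 h0'
  rw [e1] at k1
  rw [e2, sub_zero] at k2
  rw [hfun_fn]
  calc |f.fn x - ((TopologicalSpace.denseSeq (LF n) k).1 (pr n x) -
        (TopologicalSpace.denseSeq (LF n) k).1 (pr n 0))|
      = |-((TopologicalSpace.denseSeq (LF n) k).1 (pr n x) - f.fn x) +
        (TopologicalSpace.denseSeq (LF n) k).1 (pr n 0)| := by congr 1; ring
    _ ≤ |-((TopologicalSpace.denseSeq (LF n) k).1 (pr n x) - f.fn x)| +
        |(TopologicalSpace.denseSeq (LF n) k).1 (pr n 0)| := abs_add_le _ _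
    _ < ε := by rw [abs_neg]; linarith

lemma separating (μ : Lip0 Linf 0 →L[ℝ] ℝ) (hμ : μ ∈ FreeSpace Linf 0)
    (h : ∀ n k, μ (hfun n k) = 0) : μ = 0 := by
  have key : ∀ f : Lip0 Linf 0, ‖f‖ ≤ 1 → μ f = 0 := by
    intro f hf
    have hbound : ∀ ε : ℝ, 0 < ε → |μ f| ≤ 4 * ε := by
      intro ε hε
      have hcl : μ ∈ closure ((Submodule.span ℝ
          (range (delta : Linf → Lip0 Linf 0 →L[ℝ] ℝ)) : Submodule ℝ _) :
          Set (Lip0 Linf 0 →L[ℝ] ℝ)) := hμ
      obtain ⟨ν, hν, hd⟩ := Metric.mem_closure_iff.mp hcl ε hε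
      have hν' : ∃ (S : Finset Linf) (C : ℝ), 0 ≤ C ∧ ∀ (g : Lip0 Linf 0) (e : ℝ),
          (∀ x ∈ S, |g.fn x| ≤ e) → 0 ≤ e → |ν g| ≤ C * e := by
        classical
        refine Submodule.span_induction (p := fun ν _ => ∃ (S : Finset Linf) (C : ℝ), 0 ≤ C ∧
          ∀ (g : Lip0 Linf 0) (e : ℝ), (∀ x ∈ S, |g.fn x| ≤ e) → 0 ≤ e → |ν g| ≤ C * e)
          ?_ ?_ ?_ ?_ hν
        · rintro _ ⟨x, rfl⟩
          refine ⟨{x}, 1, zero_le_one, fun g e hg _ => ?_⟩
          rw [delta_apply, one_mul]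
          exact hg x (Finset.mem_singleton_self x)
        · exact ⟨∅, 0, le_rfl, fun g e _ _ => by simp⟩
        · rintro a b _ _ ⟨S, C, hC, hS⟩ ⟨T, D, hD, hT⟩
          refine ⟨S ∪ T, C + D, add_nonneg hC hD, fun g e hg he => ?_⟩
          have h1 := hS g e (fun x hx => hg x (Finset.mem_union_left _ hx)) he
          have h2 := hT g e (fun x hx => hg x (Finset.mem_union_right _ hx)) he
          rw [add_apply]
          refine (abs_add_le _ _).trans ?_
          linarith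
        · rintro c a _ ⟨S, C, hC, hS⟩
          refine ⟨S, |c| * C, mul_nonneg (abs_nonneg _) hC, fun g e hg he => ?_⟩
          have h1 := hS g e hg he
          show |c * a g| ≤ _
          rw [abs_mul, mul_assoc]
          exact mul_le_mul_of_nonneg_left h1 (abs_nonneg _)
      obtain ⟨S, C, hC, hS⟩ := hν'
      obtain ⟨n, k, hnk⟩ := approx f hf S (ε / (C + 1)) (by positivity)
      have e1 : μ f = μ (f - hfun n k) := by rw [map_sub, h n k, sub_zero]
      have e2 : |ν (f - hfun n k)| ≤ C * (ε / (C + 1)) :=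
        hS (f - hfun n k) _ (fun x hx => by rw [fn_sub]; exact (hnk x hx).le) (by positivity)
      have e3 : C * (ε / (C + 1)) ≤ ε := by
        rw [mul_div_assoc', div_le_iff₀ (by positivity)]
        nlinarith
      have e4 : ‖f - hfun n k‖ ≤ 3 := by
        refine (norm_sub_le _ _).trans ?_
        have := hfun_norm n k
        linarith
      have e5 : |(μ - ν) (f - hfun n k)| ≤ ε * 3 := by
        refine ((μ - ν).le_opNorm _).trans ?_
        rw [dist_eq_norm] at hd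
        exact mul_le_mul hd.le e4 (norm_nonneg _) hε.le
      have e6 : μ (f - hfun n k) = (μ - ν) (f - hfun n k) + ν (f - hfun n k) := by
        rw [sub_apply]; ring
      rw [e1, e6]
      refine (abs_add_le _ _).trans ?_
      linarith
    by_contra hne
    have hpos : 0 < |μ f| := abs_pos.mpr hne
    have := hbound (|μ f| / 8) (by positivity)
    linarith
  ext f
  rcases eq_or_ne f 0 with h0 | h0
  · rw [h0]; simp
  · have hn : 0 < ‖f‖ := norm_pos_iff.mpr h0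
    have h1 := key (‖f‖⁻¹ • f) (by rw [norm_smul, norm_inv, norm_norm, inv_mul_cancel₀ hn.ne'])
    rw [map_smul, smul_eq_mul] at h1
    rcases mul_eq_zero.mp h1 with h2 | h2
    · exact absurd h2 (inv_ne_zero hn.ne')
    · exact h2

/-- enumeration of the countable family -/
def hk (k : ℕ) : Lip0 Linf 0 := hfun (Nat.unpair k).1 (Nat.unpair k).2

lemma hk_bound (μ : Lip0 Linf 0 →L[ℝ] ℝ) (k : ℕ) : |μ (hk k)| ≤ 2 * ‖μ‖ := by
  have h1 := μ.le_opNorm (hk k)
  have h2 : ‖hk k‖ ≤ 2 := hfun_norm _ _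
  rw [Real.norm_eq_abs] at h1
  nlinarith [norm_nonneg μ]

lemma term_bound (μ : Lip0 Linf 0 →L[ℝ] ℝ) (k : ℕ) :
    ‖(1/2:ℝ)^k * μ (hk k)‖ ^ (2:ℝ) ≤ (1/4:ℝ)^k * (4 * ‖μ‖^2) := by
  have h := hk_bound μ k
  rw [Real.rpow_two, norm_mul, mul_pow, Real.norm_eq_abs, Real.norm_eq_abs, abs_pow]
  have e1 : (|(1/2:ℝ)|^k)^2 = (1/4:ℝ)^k := by
    rw [← pow_mul, mul_comm k 2, pow_mul]; norm_num
  rw [e1]
  apply mul_le_mul_of_nonneg_left _ (by positivity)
  calc |μ (hk k)|^2 ≤ (2 * ‖μ‖)^2 := pow_le_pow_left₀ (abs_nonneg _) h 2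
    _ = 4 * ‖μ‖^2 := by ring

lemma term_summable (μ : Lip0 Linf 0 →L[ℝ] ℝ) :
    Summable (fun k => ‖(1/2:ℝ)^k * μ (hk k)‖ ^ (2:ℝ)) := by
  apply Summable.of_nonneg_of_le (fun k => by positivity) (term_bound μ)
  exact (summable_geometric_of_lt_one (by norm_num) (by norm_num)).mul_right _

/-- a bounded injective map into `ℓ²` -/
def T : FreeSpace Linf 0 →ₗ[ℝ] lp (fun _ : ℕ => ℝ) 2 where
  toFun μ := ⟨fun k => (1/2:ℝ)^k * (μ : Lip0 Linf 0 →L[ℝ] ℝ) (hk k), by
    apply memℓp_gen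
    simpa using term_summable (μ : Lip0 Linf 0 →L[ℝ] ℝ)⟩
  map_add' μ ν := by
    ext k
    show (1/2:ℝ)^k * ((μ + ν : FreeSpace Linf 0) : Lip0 Linf 0 →L[ℝ] ℝ) (hk k) =
      (1/2:ℝ)^k * (μ : Lip0 Linf 0 →L[ℝ] ℝ) (hk k) + (1/2:ℝ)^k * (ν : Lip0 Linf 0 →L[ℝ] ℝ) (hk k)
    rw [Submodule.coe_add, add_apply]
    ring
  map_smul' c μ := by
    ext k
    show (1/2:ℝ)^k * ((c • μ : FreeSpace Linf 0) : Lip0 Linf 0 →L[ℝ] ℝ) (hk k) =
      c * ((1/2:ℝ)^k * (μ : Lip0 Linf 0 →L[ℝ] ℝ) (hk k))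
    rw [Submodule.coe_smul]
    show (1/2:ℝ)^k * (c * (μ : Lip0 Linf 0 →L[ℝ] ℝ) (hk k)) = _
    ring

lemma T_norm (μ : FreeSpace Linf 0) : ‖T μ‖ ≤ 4 * ‖μ‖ := by
  apply lp.norm_le_of_tsum_le (by simp) (by positivity)
  have h1 : (∑' k, ‖(T μ) k‖ ^ (2:ℝ≥0∞).toReal) ≤
      ∑' k, (1/4:ℝ)^k * (4 * ‖(μ : Lip0 Linf 0 →L[ℝ] ℝ)‖^2) := by
    have e2 : (2:ℝ≥0∞).toReal = 2 := by simp
    rw [e2]
    exact (term_summable (μ : Lip0 Linf 0 →L[ℝ] ℝ)).tsum_le_tsum
      (term_bound (μ : Lip0 Linf 0 →L[ℝ] ℝ))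
      ((summable_geometric_of_lt_one (by norm_num) (by norm_num)).mul_right _)
  refine h1.trans ?_
  rw [tsum_mul_right, tsum_geometric_of_lt_one (by norm_num) (by norm_num)]
  have e2 : (2:ℝ≥0∞).toReal = 2 := by simp
  rw [e2, Real.rpow_two, mul_pow]
  have e3 : ‖(μ : Lip0 Linf 0 →L[ℝ] ℝ)‖ = ‖μ‖ := rfl
  rw [e3]
  nlinarith [sq_nonneg ‖μ‖]

lemma T_inj (μ : FreeSpace Linf 0) (h : T μ = 0) : μ = 0 := by
  apply Subtype.ext
  apply separating _ μ.2
  intro n k
  have h1 : (T μ) (Nat.pair n k) = 0 := by rw [h]; rfl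
  have h2 : (1/2:ℝ)^(Nat.pair n k) * (μ : Lip0 Linf 0 →L[ℝ] ℝ) (hk (Nat.pair n k)) = 0 := h1
  have h3 : hk (Nat.pair n k) = hfun n k := by
    unfold hk
    rw [Nat.unpair_pair]
  rw [h3] at h2
  rcases mul_eq_zero.mp h2 with h4 | h4
  · exact absurd h4 (by positivity)
  · exact h4

/-- the strictly convex norm, on the Banach space `FreeSpace` -/
theorem main0 :
    ∃ N : FreeSpace Linf 0 → ℝ,
      (∀ x y, N (x + y) ≤ N x + N y) ∧
      (∀ (c : ℝ) x, N (c • x) = |c| * N x) ∧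
      (∃ a b : ℝ, 0 < a ∧ 0 < b ∧ ∀ x, a * ‖x‖ ≤ N x ∧ N x ≤ b * ‖x‖) ∧
      (∀ x y, N x = 1 → N y = 1 → N ((1/2 : ℝ) • (x + y)) = 1 → x = y) := by
  have hhom : ∀ (c : ℝ) (x : FreeSpace Linf 0),
      ‖c • x‖ + ‖T (c • x)‖ = |c| * (‖x‖ + ‖T x‖) := by
    intro c x
    have h1 : ‖c • x‖ = |c| * ‖x‖ := by
      show ‖((c • x : FreeSpace Linf 0) : Lip0 Linf 0 →L[ℝ] ℝ)‖ =
        |c| * ‖(x : Lip0 Linf 0 →L[ℝ] ℝ)‖
      rw [Submodule.coe_smul, norm_smul, Real.norm_eq_abs]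
    rw [map_smul, h1, norm_smul, Real.norm_eq_abs]
    ring
  refine ⟨fun x => ‖x‖ + ‖T x‖, ?_, hhom, ⟨1, 5, one_pos, by norm_num, ?_⟩, ?_⟩
  · intro x y
    have h1 := norm_add_le x y
    have h2 := norm_add_le (T x) (T y)
    simp only [map_add]
    linarith
  · intro x
    have h1 := T_norm x
    have h2 := norm_nonneg (T x)
    constructor
    · linarith
    · linarith
  · intro x y hx hy hxy
    simp only at hx hy hxy
    rw [hhom] at hxy
    have h3 : ‖x + y‖ + ‖T (x + y)‖ = 2 := by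
      rw [abs_of_pos (by norm_num)] at hxy
      linarith
    rw [map_add] at h3
    have h1 := norm_add_le x y
    have h2 := norm_add_le (T x) (T y)
    have h4 : ‖T x + T y‖ = ‖T x‖ + ‖T y‖ := by linarith
    have h5 : SameRay ℝ (T x) (T y) := sameRay_iff_norm_add.mpr h4
    rcases h5 with h6 | h6 | ⟨r₁, r₂, hr1, hr2, h7⟩
    · have := T_inj x h6
      rw [this] at hx
      simp at hx
    · have := T_inj y h6
      rw [this] at hy
      simp at hy
    · have h8 : r₁ • x = r₂ • y := by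
        rw [← sub_eq_zero]
        apply T_inj
        rw [map_sub, map_smul, map_smul, h7, sub_self]
      have h9 := hhom r₁ x
      have h10 := hhom r₂ y
      rw [h8, h10, hx, hy, abs_of_pos hr1, abs_of_pos hr2] at h9
      have h11 : r₂ = r₁ := by linarith
      rw [h11] at h8
      exact smul_right_injective _ hr1.ne' h8

/-- every element of `Free` comes from an element of the Banach space `FreeSpace` -/
lemma lift_exists (φ : Lip0 M z → ℝ) (hφ : φ ∈ Free M z) :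
    ∃ Φ : FreeSpace M z, ∀ f, (Φ : Lip0 M z →L[ℝ] ℝ) f = φ f := by
  have hspan : ∀ m ∈ Submodule.span ℝ (range (evalAt : M → Lip0 M z → ℝ)),
      ∃ m' ∈ Submodule.span ℝ (range (delta : M → Lip0 M z →L[ℝ] ℝ)), ∀ f, m' f = m f := by
    intro m hm
    refine Submodule.span_induction (p := fun m _ => ∃ m' ∈ Submodule.span ℝ
      (range (delta : M → Lip0 M z →L[ℝ] ℝ)), ∀ f, m' f = m f) ?_ ?_ ?_ ?_ hm
    · rintro _ ⟨x, rfl⟩
      exact ⟨delta x, Submodule.subset_span ⟨x, rfl⟩, fun f => rfl⟩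
    · exact ⟨0, Submodule.zero_mem _, fun f => rfl⟩
    · rintro a b _ _ ⟨a', ha, ha'⟩ ⟨b', hb, hb'⟩
      exact ⟨a' + b', Submodule.add_mem _ ha hb, fun f => by
        rw [add_apply, ha' f, hb' f]; rfl⟩
    · rintro c a _ ⟨a', ha, ha'⟩
      exact ⟨c • a', Submodule.smul_mem _ c ha, fun f => by
        show c * a' f = c * a f
        rw [ha' f]⟩
  have happ : ∀ ε : ℝ, 0 < ε → ∃ m' ∈ Submodule.span ℝ (range (delta : M → Lip0 M z →L[ℝ] ℝ)),
      ∀ f, |φ f - m' f| ≤ ε * ‖f‖ := by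
    intro ε hε
    obtain ⟨m, hm, h⟩ := hφ ε hε
    obtain ⟨m', hm', h'⟩ := hspan m hm
    exact ⟨m', hm', fun f => by rw [h' f]; exact h f⟩
  have hzero : ∀ r C : ℝ, 0 ≤ C → (∀ ε : ℝ, 0 < ε → |r| ≤ ε * C) → r = 0 := by
    intro r C hC h
    by_contra hne
    have hpos : 0 < |r| := abs_pos.mpr hne
    have h1 := h (|r| / (2 * (C + 1))) (by positivity)
    rw [div_mul_eq_mul_div, le_div_iff₀ (by positivity)] at h1
    nlinarith
  have hadd : ∀ f g, φ (f + g) = φ f + φ g := by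
    intro f g
    rw [← sub_eq_zero]
    apply hzero _ (‖f + g‖ + ‖f‖ + ‖g‖) (by positivity)
    intro ε hε
    obtain ⟨m, _, h⟩ := happ ε hε
    have e : φ (f + g) - (φ f + φ g) =
        (φ (f + g) - m (f + g)) + (-(φ f - m f)) + (-(φ g - m g)) := by
      rw [map_add]; ring
    rw [e]
    refine (abs_add_three _ _ _).trans ?_
    rw [abs_neg, abs_neg]
    linarith [h (f + g), h f, h g]
  have hsmul : ∀ (c : ℝ) f, φ (c • f) = c * φ f := by
    intro c f
    rw [← sub_eq_zero]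
    apply hzero _ (‖c • f‖ + |c| * ‖f‖) (by positivity)
    intro ε hε
    obtain ⟨m, _, h⟩ := happ ε hε
    have e : φ (c • f) - c * φ f =
        (φ (c • f) - m (c • f)) + (-(c * (φ f - m f))) := by
      rw [map_smul, smul_eq_mul]; ring
    rw [e]
    refine (abs_add_le _ _).trans ?_
    rw [abs_neg, abs_mul]
    have := mul_le_mul_of_nonneg_left (h f) (abs_nonneg c)
    linarith [h (c • f)]
  obtain ⟨m1, _, hm1⟩ := happ 1 one_pos
  let Φ : Lip0 M z →L[ℝ] ℝ := LinearMap.mkContinuous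
    { toFun := φ
      map_add' := hadd
      map_smul' := fun c f => by rw [hsmul]; rfl } (1 + ‖m1‖) (by
    intro f
    show ‖φ f‖ ≤ _
    have h1 := hm1 f
    have h2 := m1.le_opNorm f
    rw [Real.norm_eq_abs] at h2 ⊢
    have h3 : φ f = (φ f - m1 f) + m1 f := by ring
    rw [h3]
    refine (abs_add_le _ _).trans ?_
    linarith)
  have hΦ : ∀ f, Φ f = φ f := fun f => rfl
  refine ⟨⟨Φ, ?_⟩, hΦ⟩
  show Φ ∈ closure ((Submodule.span ℝ
          (range (delta : M → Lip0 M z →L[ℝ] ℝ)) : Submodule ℝ _) :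
          Set (Lip0 M z →L[ℝ] ℝ))
  rw [Metric.mem_closure_iff]
  intro ε hε
  obtain ⟨m, hm, h⟩ := happ (ε/2) (by positivity)
  refine ⟨m, hm, ?_⟩
  rw [dist_eq_norm]
  have : ‖Φ - m‖ ≤ ε/2 := by
    apply ContinuousLinearMap.opNorm_le_bound _ (by positivity)
    intro f
    rw [sub_apply, hΦ, Real.norm_eq_abs]
    exact h f
  linarith

lemma dualNorm_eq (Φ : Lip0 M z →L[ℝ] ℝ) : dualNorm (fun f => Φ f) = ‖Φ‖ := by
  rw [ContinuousLinearMap.norm_def]
  rfl

theorem main :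
    ∃ N : (Lip0 Linf 0 → ℝ) → ℝ,
      (∀ φ ∈ Free Linf 0, ∀ ψ ∈ Free Linf 0, N (φ + ψ) ≤ N φ + N ψ) ∧
      (∀ c : ℝ, ∀ φ ∈ Free Linf 0, N (c • φ) = |c| * N φ) ∧
      (∃ a b : ℝ, 0 < a ∧ 0 < b ∧
        ∀ φ ∈ Free Linf 0, a * dualNorm φ ≤ N φ ∧ N φ ≤ b * dualNorm φ) ∧
      (∀ φ ∈ Free Linf 0, ∀ ψ ∈ Free Linf 0,
        N φ = 1 → N ψ = 1 → N ((1/2 : ℝ) • (φ + ψ)) = 1 → φ = ψ) := by
  classical
  obtain ⟨N, h1, h2, ⟨a, b, ha, hb, h3⟩, h4⟩ := main0
  choose! L hL using (lift_exists (M := Linf) (z := 0))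
  have hmemL : ∀ Φ : FreeSpace Linf 0,
      (fun f => (Φ : Lip0 Linf 0 →L[ℝ] ℝ) f : Lip0 Linf 0 → ℝ) ∈ Free Linf 0 := by
    intro Φ ε hε
    have hcl : (Φ : Lip0 Linf 0 →L[ℝ] ℝ) ∈ closure ((Submodule.span ℝ
          (range (delta : Linf → Lip0 Linf 0 →L[ℝ] ℝ)) : Submodule ℝ _) :
          Set (Lip0 Linf 0 →L[ℝ] ℝ)) := Φ.2
    obtain ⟨ν, hν, hd⟩ := Metric.mem_closure_iff.mp hcl ε hε
    refine ⟨fun f => ν f, ?_, ?_⟩
    · refine Submodule.span_induction (p := fun ν _ => (fun f => ν f : Lip0 Linf 0 → ℝ) ∈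
        Submodule.span ℝ (range (evalAt : Linf → Lip0 Linf 0 → ℝ))) ?_ ?_ ?_ ?_ hν
      · rintro _ ⟨x, rfl⟩
        exact Submodule.subset_span ⟨x, rfl⟩
      · exact Submodule.zero_mem _
      · intro x y _ _ hx hy
        exact Submodule.add_mem _ hx hy
      · intro c x _ hx
        exact Submodule.smul_mem _ c hx
    · intro f
      have h5 := ((Φ : Lip0 Linf 0 →L[ℝ] ℝ) - ν).le_opNorm f
      rw [dist_eq_norm] at hd
      rw [sub_apply, Real.norm_eq_abs] at h5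
      refine h5.trans ?_
      exact mul_le_mul_of_nonneg_right hd.le (norm_nonneg' f)
  have huniq : ∀ (Φ : FreeSpace Linf 0) (φ : Lip0 Linf 0 → ℝ), φ ∈ Free Linf 0 →
      (∀ f, (Φ : Lip0 Linf 0 →L[ℝ] ℝ) f = φ f) → L φ = Φ := by
    intro Φ φ hφ h
    apply Subtype.ext
    ext f
    rw [hL φ hφ f, h f]
  have hLadd : ∀ φ ∈ Free Linf 0, ∀ ψ ∈ Free Linf 0,
      (φ + ψ) ∈ Free Linf 0 ∧ L (φ + ψ) = L φ + L ψ := by
    intro φ hφ ψ hψ
    have e : (φ + ψ : Lip0 Linf 0 → ℝ) =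
        fun f => ((L φ + L ψ : FreeSpace Linf 0) : Lip0 Linf 0 →L[ℝ] ℝ) f := by
      funext f
      rw [Submodule.coe_add, add_apply, hL φ hφ f, hL ψ hψ f]
      rfl
    have hm : (φ + ψ) ∈ Free Linf 0 := by rw [e]; exact hmemL _
    exact ⟨hm, huniq _ _ hm (fun f => (congrFun e f).symm)⟩
  have hLsmul : ∀ c : ℝ, ∀ φ ∈ Free Linf 0,
      (c • φ) ∈ Free Linf 0 ∧ L (c • φ) = c • L φ := by
    intro c φ hφ
    have e : (c • φ : Lip0 Linf 0 → ℝ) =
        fun f => ((c • L φ : FreeSpace Linf 0) : Lip0 Linf 0 →L[ℝ] ℝ) f := by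
      funext f
      rw [Submodule.coe_smul]
      show c * φ f = c * (L φ : Lip0 Linf 0 →L[ℝ] ℝ) f
      rw [hL φ hφ f]
    have hm : (c • φ) ∈ Free Linf 0 := by rw [e]; exact hmemL _
    exact ⟨hm, huniq _ _ hm (fun f => (congrFun e f).symm)⟩
  have hLnorm : ∀ φ ∈ Free Linf 0, dualNorm φ = ‖L φ‖ := by
    intro φ hφ
    have e : φ = fun f => (L φ : Lip0 Linf 0 →L[ℝ] ℝ) f := by
      funext f
      rw [hL φ hφ f]
    conv_lhs => rw [e]
    exact dualNorm_eq _
  refine ⟨fun φ => N (L φ), ?_, ?_, ⟨a, b, ha, hb, ?_⟩, ?_⟩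
  · intro φ hφ ψ hψ
    have := (hLadd φ hφ ψ hψ).2
    show N (L (φ + ψ)) ≤ N (L φ) + N (L ψ)
    rw [this]
    exact h1 _ _
  · intro c φ hφ
    have := (hLsmul c φ hφ).2
    show N (L (c • φ)) = |c| * N (L φ)
    rw [this]
    exact h2 _ _
  · intro φ hφ
    have := hLnorm φ hφ
    show a * dualNorm φ ≤ N (L φ) ∧ N (L φ) ≤ b * dualNorm φ
    rw [this]
    exact h3 _
  · intro φ hφ ψ hψ e1 e2 e3
    have h5 := (hLadd φ hφ ψ hψ)
    have h6 := (hLsmul (1/2) (φ + ψ) h5.1).2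
    have h7 : N (L ((1/2 : ℝ) • (φ + ψ))) = 1 := e3
    rw [h6, h5.2] at h7
    have h8 := h4 (L φ) (L ψ) e1 e2 h7
    funext f
    have h9 := hL φ hφ f
    have h10 := hL ψ hψ f
    rw [h8] at h9
    rw [← h9, h10]

end

end Pool.Agent.H7.LipFree
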