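import Mathlib

set_option autoImplicit false
open Set Filter Topology MeasureTheory Real

namespace Pool.Agent.H7.Mor

/-- generalized Laplacian vanishes at `z` -/
def GL0 (U : ℂ → ℝ) (z : ℂ) : Prop :=
  Tendsto (fun r : ℝ => (circleAverage U z r - U z) / r^2) (𝓝[>] 0) (𝓝 0)

lemma avg_sq (c p : ℂ) (r : ℝ) : circleAverage (fun z => ‖z - c‖^2) p r = ‖p - c‖^2 + r^2 := by
  have h1 : ∀ θ : ℝ, ‖circleMap p r θ - c‖^2 = (‖p - c‖^2 + r^2) +
      (2 * r * (p - c).re * cos θ + 2 * r * (p - c).im * sin θ) := by
    intro θ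
    have h2 : circleMap p r θ - c = (p - c) + r * (Complex.cos θ + Complex.sin θ * Complex.I) := by
      rw [circleMap, Complex.exp_mul_I]; ring
    rw [h2, ← Complex.normSq_eq_norm_sq, ← Complex.normSq_eq_norm_sq, Complex.normSq_apply, Complex.normSq_apply]
    simp only [Complex.add_re, Complex.add_im,
      ← Complex.ofReal_cos, ← Complex.ofReal_sin, Complex.ofReal_re, Complex.ofReal_im,
      Complex.mul_re, Complex.mul_im, Complex.I_re, Complex.I_im]
    have := Real.sin_sq_add_cos_sq θ
    linear_combination (r^2) * this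
  rw [circleAverage_def]
  simp only [h1]
  generalize ‖p - c‖^2 + r^2 = A
  rw [intervalIntegral.integral_add, intervalIntegral.integral_const, intervalIntegral.integral_add,
    intervalIntegral.integral_const_mul,
    intervalIntegral.integral_const_mul, integral_cos, integral_sin]
  · simp
    field_simp
  all_goals exact (Continuous.intervalIntegrable (by fun_prop) _ _)

lemma max_princ (U : ℂ → ℝ) (hU : Continuous U) (c : ℂ) (s : ℝ) (hs : 0 < s)
    (hG : ∀ z ∈ Metric.ball c s, GL0 U z) (m : ℝ) (hm : ∀ z ∈ Metric.sphere c s, U z ≤ m) :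
    ∀ z ∈ Metric.closedBall c s, U z ≤ m := by
  intro z hz
  apply le_of_forall_pos_le_add
  intro ε hε
  set δ := ε / s^2 with hδ
  have hδ0 : 0 < δ := by positivity
  set V : ℂ → ℝ := fun w => U w + δ * ‖w - c‖^2 with hV
  have hVc : Continuous V := by fun_prop
  obtain ⟨p, hp, hmax⟩ := (isCompact_closedBall c s).exists_isMaxOn ⟨z, hz⟩ hVc.continuousOn
  have hVp : V p ≤ m + ε := by
    by_cases hpb : p ∈ Metric.ball c s
    · exfalso
      have hg := hG p hpb
      have h1 : ∀ᶠ r in 𝓝[>] (0:ℝ), -δ < (circleAverage U p r - U p) / r^2 :=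
        hg.eventually (lt_mem_nhds (by linarith))
      have hd : 0 < s - dist p c := by
        have := Metric.mem_ball.mp hpb; linarith
      have h2 : ∀ᶠ r in 𝓝[>] (0:ℝ), r < s - dist p c :=
        eventually_nhdsWithin_of_eventually_nhds (gt_mem_nhds hd)
      have h3 : ∀ᶠ r in 𝓝[>] (0:ℝ), 0 < r := eventually_nhdsWithin_of_forall (fun r hr => hr)
      obtain ⟨r, h1, h2, h3⟩ := (h1.and (h2.and h3)).exists
      have hUi : CircleIntegrable U p r := hU.continuousOn.circleIntegrable h3.le
      have hNi : CircleIntegrable (fun w => δ * ‖w - c‖^2) p r :=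
        (Continuous.continuousOn (by fun_prop)).circleIntegrable h3.le
      have h4 : circleAverage V p r = circleAverage U p r + δ * (‖p - c‖^2 + r^2) := by
        have e1 : circleAverage V p r = circleAverage U p r + circleAverage (fun w => δ * ‖w - c‖^2) p r :=
          circleAverage_fun_add hUi hNi
        have e2 : circleAverage (fun w => δ * ‖w - c‖^2) p r = δ * circleAverage (fun w => ‖w - c‖^2) p r := by
          have := circleAverage_fun_smul (a := δ) (f := fun w : ℂ => ‖w - c‖^2) (c := p) (R := r)
          simpa using this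
        rw [e1, e2, avg_sq]
      have hVi : CircleIntegrable V p r := hVc.continuousOn.circleIntegrable h3.le
      have h5 : circleAverage V p r ≤ V p := by
        apply circleAverage_mono_on_of_le_circle hVi
        intro w hw
        apply hmax
        rw [abs_of_pos h3] at hw
        rw [Metric.mem_closedBall]
        have := Metric.mem_sphere.mp hw
        have := dist_triangle w p c
        linarith
      rw [h4] at h5
      simp only [hV] at h5
      rw [lt_div_iff₀ (by positivity)] at h1
      nlinarith
    · have hps : p ∈ Metric.sphere c s := by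
        rw [Metric.mem_sphere]
        rw [Metric.mem_ball] at hpb
        rw [Metric.mem_closedBall] at hp
        linarith
      have h1 := hm p hps
      simp only [hV]
      have h2 : ‖p - c‖ = s := by rw [← dist_eq_norm]; exact hps
      rw [h2, hδ]
      have : ε / s^2 * s^2 = ε := by field_simp
      rw [this]; linarith
  have h1 : V z ≤ V p := hmax hz
  simp only [hV] at h1 hVp
  have : 0 ≤ δ * ‖z - c‖^2 := by positivity
  linarith

lemma riemann (h : ℝ → ℝ) (hc : Continuous h) (hp : Function.Periodic h (2 * π))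
    (huc : UniformContinuous h) (ε : ℝ) (hε : 0 < ε) :
    ∃ N : ℕ, 0 < N ∧ ∀ α : ℝ, (∑ j ∈ Finset.range N, h (α + j * (2 * π / N))) / N ≤
      (2 * π)⁻¹ * (∫ θ in (0:ℝ)..(2 * π), h θ) + ε := by
  have hpi := Real.pi_pos
  obtain ⟨δ, hδ, hδh⟩ := Metric.uniformContinuous_iff.mp huc ε hε
  obtain ⟨N, hN⟩ := exists_nat_gt (2 * π / δ)
  have hNpos : (0:ℝ) < N := lt_of_le_of_lt (by positivity) hN
  refine ⟨N, by exact_mod_cast hNpos, ?_⟩
  intro α
  set x := 2 * π / N with hx
  have hx0 : 0 < x := by positivity
  have hxδ : x < δ := by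
    rw [hx, div_lt_iff₀ hNpos]
    rw [div_lt_iff₀ hδ] at hN
    linarith
  have h1 : ∫ θ in (0:ℝ)..(2 * π), h θ = ∑ j ∈ Finset.range N, ∫ θ in (α + j * x)..(α + (j + 1 : ℕ) * x), h θ := by
    rw [intervalIntegral.sum_integral_adjacent_intervals (a := fun j : ℕ => α + j * x)
      (fun k _ => hc.intervalIntegrable _ _)]
    have e1 : α + (N:ℝ) * x = α + 2 * π := by rw [hx]; field_simp
    simp only [Nat.cast_zero, zero_mul, add_zero]
    rw [e1]
    have := hp.intervalIntegral_add_eq 0 α
    rw [zero_add] at this
    exact this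
  have h2 : ∀ j ∈ Finset.range N, x * h (α + j * x) ≤ (∫ θ in (α + j * x)..(α + (j + 1 : ℕ) * x), h θ) + x * ε := by
    intro j _
    have hle : α + j * x ≤ α + (j + 1 : ℕ) * x := by push_cast; nlinarith
    have e1 : x * h (α + j * x) = ∫ θ in (α + j * x)..(α + (j + 1 : ℕ) * x), h (α + j * x) := by
      rw [intervalIntegral.integral_const, smul_eq_mul]; push_cast; ring
    have e2 : x * ε = ∫ θ in (α + j * x)..(α + (j + 1 : ℕ) * x), ε := by
      rw [intervalIntegral.integral_const, smul_eq_mul]; push_cast; ring
    rw [e1, e2, ← intervalIntegral.integral_add (hc.intervalIntegrable _ _) (by simp)]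
    apply intervalIntegral.integral_mono_on hle (by simp) ((hc.add continuous_const).intervalIntegrable _ _)
    intro θ hθ
    have h3 := hδh (a := α + j * x) (b := θ) (by
      rw [Real.dist_eq, abs_sub_comm, abs_of_nonneg (by linarith [hθ.1])]
      have := hθ.2
      push_cast at this
      linarith)
    rw [Real.dist_eq] at h3
    have := (abs_lt.mp h3).2
    change h (α + j * x) ≤ h θ + ε
    linarith
  have h3 := Finset.sum_le_sum h2
  rw [Finset.sum_add_distrib, ← h1, Finset.sum_const, Finset.card_range, nsmul_eq_mul, ← Finset.mul_sum] at h3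
  have e3 : (N:ℝ) * (x * ε) = 2 * π * ε := by rw [hx]; field_simp
  rw [e3] at h3
  rw [div_le_iff₀ hNpos]
  have e4 : ((2 * π)⁻¹ * (∫ θ in (0:ℝ)..(2 * π), h θ) + ε) * N = ((∫ θ in (0:ℝ)..(2 * π), h θ) + 2 * π * ε) / x := by
    rw [hx]; field_simp
  rw [e4, le_div_iff₀ hx0]
  linarith

/-- rotation about `c` by the unit complex number `w` -/
def rot (c w z : ℂ) : ℂ := c + w * (z - c)

lemma avg_rot (U : ℂ → ℝ) (c z : ℂ) (r α : ℝ) :
    circleAverage (fun x => U (rot c (Complex.exp (α * Complex.I)) x)) z r =
      circleAverage U (rot c (Complex.exp (α * Complex.I)) z) r := by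
  rw [circleAverage_eq_integral_add (f := U) α, circleAverage_def]
  congr 1
  apply intervalIntegral.integral_congr
  intro θ _
  simp only
  congr 1
  simp only [rot, circleMap]
  push_cast
  rw [add_mul, Complex.exp_add]
  ring

lemma mean_le (U : ℂ → ℝ) (hU : Continuous U) (c : ℂ) (s : ℝ) (hs : 0 < s)
    (hG : ∀ z ∈ Metric.ball c s, GL0 U z) : U c ≤ circleAverage U c s := by
  apply le_of_forall_pos_le_add
  intro ε hε
  have hpi := Real.pi_pos
  have huc : UniformContinuous (fun θ => U (circleMap c s θ)) := by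
    have h1 := (isCompact_closedBall c s).uniformContinuousOn_of_continuous hU.continuousOn
    rw [Metric.uniformContinuousOn_iff] at h1
    rw [Metric.uniformContinuous_iff]
    intro ε hε
    obtain ⟨δ, hδ, h2⟩ := h1 ε hε
    have h3 := (lipschitzWith_circleMap c s).uniformContinuous
    rw [Metric.uniformContinuous_iff] at h3
    obtain ⟨δ', hδ', h4⟩ := h3 δ hδ
    refine ⟨δ', hδ', fun {a b} hab => ?_⟩
    exact h2 _ (circleMap_mem_closedBall c hs.le a) _ (circleMap_mem_closedBall c hs.le b) (h4 hab)
  obtain ⟨N, hN, hR⟩ := riemann (fun θ => U (circleMap c s θ)) (by fun_prop)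
    (fun θ => by simp only; rw [periodic_circleMap c s θ]) huc ε hε
  have hNpos : (0:ℝ) < N := by exact_mod_cast hN
  set ω : ℕ → ℂ := fun j => Complex.exp (((j * (2 * π / N) : ℝ) : ℂ) * Complex.I) with hω
  have hω1 : ∀ j, ‖ω j‖ = 1 := fun j => Complex.norm_exp_ofReal_mul_I _
  set V : ℂ → ℝ := fun z => (∑ j ∈ Finset.range N, U (rot c (ω j) z)) / N with hV
  have hUj : ∀ j, Continuous (fun z => U (rot c (ω j) z)) := by
    intro j; unfold rot; fun_prop
  have hVc : Continuous V := by
    simp only [hV]
    apply Continuous.div_const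
    exact continuous_finsetSum _ (fun j _ => hUj j)
  have hball : ∀ j, ∀ z ∈ Metric.ball c s, rot c (ω j) z ∈ Metric.ball c s := by
    intro j z hz
    rw [mem_ball_iff_norm] at hz ⊢
    simp only [rot]
    rw [add_sub_cancel_left, norm_mul, hω1, one_mul]
    exact hz
  have hVG : ∀ z ∈ Metric.ball c s, GL0 V z := by
    intro z hz
    unfold GL0
    have h1 : ∀ r : ℝ, 0 < r → (circleAverage V z r - V z) / r^2 =
        (∑ j ∈ Finset.range N, (circleAverage U (rot c (ω j) z) r - U (rot c (ω j) z)) / r^2) / N := by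
      intro r hr
      have e1 : circleAverage V z r = (∑ j ∈ Finset.range N, circleAverage U (rot c (ω j) z) r) / N := by
        have e2 : circleAverage (fun z => ∑ j ∈ Finset.range N, U (rot c (ω j) z)) z r =
            ∑ j ∈ Finset.range N, circleAverage U (rot c (ω j) z) r := by
          rw [circleAverage_fun_sum (fun j _ => (hUj j).continuousOn.circleIntegrable hr.le)]
          apply Finset.sum_congr rfl
          intro j _
          exact avg_rot U c z r _
        rw [← e2]
        have e3 := circleAverage_fun_smul (a := (N:ℝ)⁻¹) (f := fun z : ℂ => ∑ j ∈ Finset.range N, U (rot c (ω j) z)) (c := z) (R := r)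
        simp only [smul_eq_mul] at e3
        rw [div_eq_inv_mul, ← e3]
        congr 1
        funext x
        simp only [hV]
        rw [div_eq_inv_mul]
      rw [e1]
      simp only [hV]
      rw [← Finset.sum_div, Finset.sum_sub_distrib]
      field_simp
    have h2 : Tendsto (fun r : ℝ => (∑ j ∈ Finset.range N, (circleAverage U (rot c (ω j) z) r - U (rot c (ω j) z)) / r^2) / N)
        (𝓝[>] 0) (𝓝 ((∑ j ∈ Finset.range N, (0:ℝ)) / N)) := by
      apply Tendsto.div_const
      apply tendsto_finsetSum
      intro j _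
      exact hG _ (hball j z hz)
    rw [Finset.sum_const_zero, zero_div] at h2
    apply h2.congr'
    filter_upwards [self_mem_nhdsWithin] with r hr
    exact (h1 r hr).symm
  have hbd : ∀ z ∈ Metric.sphere c s, V z ≤ circleAverage U c s + ε := by
    intro z hz
    have hz' : ‖z - c‖ = s := by rw [← dist_eq_norm]; exact hz
    have h1 : z = circleMap c s (Complex.arg (z - c)) := by
      rw [circleMap, ← hz', Complex.norm_mul_exp_arg_mul_I]; ring
    have h2 := hR (Complex.arg (z - c))
    have h3 : V z = (∑ j ∈ Finset.range N, U (circleMap c s (Complex.arg (z - c) + j * (2 * π / N)))) / N := by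
      simp only [hV]
      congr 1
      apply Finset.sum_congr rfl
      intro j _
      congr 1
      conv_lhs => rw [h1]
      simp only [rot, circleMap, hω]
      push_cast
      rw [add_mul, Complex.exp_add]
      ring
    rw [h3]
    refine h2.trans (le_of_eq ?_)
    rw [circleAverage_def, smul_eq_mul]
  have h4 := max_princ V hVc c s hs hVG _ hbd c (Metric.mem_closedBall_self hs.le)
  have h5 : V c = U c := by
    simp only [hV, rot, sub_self, mul_zero, add_zero]
    rw [Finset.sum_const, Finset.card_range, nsmul_eq_mul]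
    field_simp
  rw [h5] at h4
  exact h4

lemma GL0_neg {U : ℂ → ℝ} {z : ℂ} (h : GL0 U z) : GL0 (fun x => - U x) z := by
  unfold GL0 at h ⊢
  have h1 := h.neg
  rw [neg_zero] at h1
  apply h1.congr
  intro r
  have e3 := circleAverage_fun_smul (a := (-1:ℝ)) (f := U) (c := z) (R := r)
  simp only [smul_eq_mul, neg_mul, one_mul] at e3
  rw [e3]
  ring

theorem mean_eq (U : ℂ → ℝ) (hU : Continuous U) (c : ℂ) (s : ℝ) (hs : 0 < s)
    (hG : ∀ z ∈ Metric.ball c s, GL0 U z) : circleAverage U c s = U c := by
  apply le_antisymm _ (mean_le U hU c s hs hG)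
  have h1 := mean_le (fun x => - U x) hU.neg c s hs (fun z hz => GL0_neg (hG z hz))
  have e3 := circleAverage_fun_smul (a := (-1:ℝ)) (f := U) (c := c) (R := s)
  simp only [smul_eq_mul, neg_mul, one_mul] at e3
  rw [e3] at h1
  linarith

end Pool.Agent.H7.Mor
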