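import Mathlib

set_option autoImplicit false
set_option maxHeartbeats 1000000
open Set Filter Topology MeasureTheory Real

namespace Pool.Agent.H7.Mor

noncomputable section

def k (v : ℂ) : ℂ := (starRingEnd ℂ v)⁻¹

lemma k_meas : Measurable k := by
  unfold k
  exact (Complex.continuous_conj.measurable).inv

lemma k_norm (v : ℂ) : ‖k v‖ = ‖v‖⁻¹ := by
  unfold k
  rw [norm_inv, Complex.norm_conj]

lemma k_int (A : ℝ) : IntegrableOn k (Metric.ball 0 A) := by
  refine integrableOn_ball_of_norm_le_rpow (C := 1) (α := 1) ?_ ?_ ?_ ?_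
  · rw [Complex.finrank_real_complex]; norm_num
  · rw [Complex.finrank_real_complex]; norm_num
  · apply Eventually.of_forall
    intro v
    rw [k_norm, one_mul, Real.rpow_neg (norm_nonneg _), Real.rpow_one]
  · exact k_meas.aestronglyMeasurable

def hh (A : ℝ) : ℂ → ℝ := (Metric.ball (0:ℂ) A).indicator (fun v => ‖k v‖)

lemma hh_int (A : ℝ) : Integrable (hh A) := by
  unfold hh
  rw [integrable_indicator_iff Metric.isOpen_ball.measurableSet]
  exact (k_int A).norm

lemma hh_nonneg (A : ℝ) (v : ℂ) : 0 ≤ hh A v := by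
  unfold hh
  apply indicator_nonneg
  intro _ _; exact norm_nonneg _

structure Adm (g : ℂ → ℂ) (L C : ℝ) : Prop where
  cont : Continuous g
  supp : ∀ w, L ≤ ‖w‖ → g w = 0
  bd : ∀ w, ‖g w‖ ≤ C

lemma bound {g : ℂ → ℂ} {L C : ℝ} (hg : Adm g L C) (A : ℝ) (z w : ℂ) (hz : ‖z‖ ≤ A) :
    ‖g w * k (w - z)‖ ≤ C * hh (L + A) (w - z) := by
  have hC : 0 ≤ C := (norm_nonneg _).trans (hg.bd 0)
  by_cases hw : L ≤ ‖w‖
  · rw [hg.supp w hw, zero_mul, norm_zero]
    exact mul_nonneg hC (hh_nonneg _ _)
  · push Not at hw
    have h1 : w - z ∈ Metric.ball (0:ℂ) (L + A) := by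
      rw [mem_ball_zero_iff]
      exact (norm_sub_le _ _).trans_lt (by linarith)
    unfold hh
    rw [indicator_of_mem h1, norm_mul]
    exact mul_le_mul_of_nonneg_right (hg.bd w) (norm_nonneg _)

def W (g : ℂ → ℂ) (z : ℂ) : ℂ := ∫ w, g w * k (w - z)

lemma gk_meas {g : ℂ → ℂ} {L C : ℝ} (hg : Adm g L C) :
    Measurable (fun p : ℂ × ℂ => g p.2 * k (p.2 - p.1)) :=
  (hg.cont.measurable.comp measurable_snd).mul (k_meas.comp (measurable_snd.sub measurable_fst))

lemma gk_int {g : ℂ → ℂ} {L C : ℝ} (hg : Adm g L C) (z : ℂ) : Integrable (fun w => g w * k (w - z)) := by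
  apply Integrable.mono' (((hh_int (L + ‖z‖)).comp_sub_right z).const_mul C)
  · exact ((gk_meas hg).comp (measurable_prodMk_left (x := z))).aestronglyMeasurable
  · exact Eventually.of_forall (fun w => bound hg ‖z‖ z w le_rfl)

lemma W_cont {g : ℂ → ℂ} {L C : ℝ} (hg : Adm g L C) : Continuous (W g) := by
  have hC : 0 ≤ C := (norm_nonneg _).trans (hg.bd 0)
  have h1 : ∀ z, W g z = ∫ v, g (v + z) * k v := by
    intro z
    have := integral_sub_right_eq_self (μ := (volume : Measure ℂ)) (fun v => g (v + z) * k v) z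
    simp only [sub_add_cancel] at this
    exact this
  have h2 : W g = fun z => ∫ v, g (v + z) * k v := funext h1
  rw [h2, continuous_iff_continuousAt]
  intro z1
  apply continuousAt_of_dominated (bound := fun v => C * hh (L + (‖z1‖ + 1)) v)
  · apply Eventually.of_forall
    intro z
    exact ((hg.cont.comp (continuous_id.add continuous_const)).measurable.mul k_meas).aestronglyMeasurable
  · filter_upwards [Metric.ball_mem_nhds z1 one_pos] with z hz
    apply Eventually.of_forall
    intro v
    have hz2 : ‖z‖ ≤ ‖z1‖ + 1 := by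
      have h3 : ‖z - z1‖ < 1 := mem_ball_iff_norm.mp hz
      have h4 : ‖z‖ ≤ ‖z - z1‖ + ‖z1‖ := by
        calc ‖z‖ = ‖(z - z1) + z1‖ := by ring_nf
          _ ≤ _ := norm_add_le _ _
      linarith
    have := bound hg (‖z1‖ + 1) z (v + z) hz2
    rwa [add_sub_cancel_right] at this
  · exact (hh_int _).const_mul C
  · apply Eventually.of_forall
    intro v
    exact ((hg.cont.comp (continuous_const.add continuous_id)).mul continuous_const).continuousAt

lemma avg_out (z w : ℂ) (r : ℝ) (hr : 0 < r) (hw : r < ‖w - z‖) :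
    circleAverage (fun ζ => k (w - ζ)) z r = k (w - z) := by
  have h1 : circleAverage (fun ζ => (w - ζ)⁻¹) z r = (w - z)⁻¹ := by
    have hne : ∀ x ∈ Metric.closedBall z |r|, w - x ≠ 0 := by
      intro x hx h0
      rw [abs_of_pos hr, mem_closedBall_iff_norm] at hx
      have : w = x := sub_eq_zero.mp h0
      rw [this] at hw
      linarith
    apply circleAverage_of_differentiable_on_off_countable (s := ∅) countable_empty
    · exact (continuousOn_const.sub continuousOn_id).inv₀ hne
    · rintro x ⟨hx, -⟩
      exact ((differentiableAt_const w).sub differentiableAt_id).inv (hne x (Metric.ball_subset_closedBall hx))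
  have h2 := ContinuousLinearMap.circleAverage_comp_comm (Complex.conjCLE : ℂ →L[ℝ] ℂ)
    (f := fun ζ => (w - ζ)⁻¹) (c := z) (R := r) (by
      apply ContinuousOn.circleIntegrable hr.le
      apply (continuousOn_const.sub continuousOn_id).inv₀
      intro x hx h0
      have hx' := mem_sphere_iff_norm.mp hx
      have : w = x := sub_eq_zero.mp h0
      rw [this] at hw
      linarith)
  rw [h1] at h2
  have h3 : (⇑(Complex.conjCLE : ℂ →L[ℝ] ℂ) ∘ fun ζ => (w - ζ)⁻¹) = fun ζ => k (w - ζ) := by
    funext ζ
    simp [k]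
  rw [h3] at h2
  rw [h2]
  simp [k]

lemma avg_in (z w : ℂ) (r : ℝ) (hr : 0 < r) (hw : ‖w - z‖ < r) (hwz : w ≠ z) :
    circleAverage (fun ζ => k (w - ζ)) z r = 0 := by
  have hcont : ContinuousOn (fun ζ : ℂ => (w - ζ)⁻¹) (Metric.sphere z r) := by
    apply (continuousOn_const.sub continuousOn_id).inv₀
    intro x hx h0
    have hx' := mem_sphere_iff_norm.mp hx
    have : w = x := sub_eq_zero.mp h0
    rw [this] at hw
    linarith
  have h1 : circleAverage (fun ζ => (w - ζ)⁻¹) z r = 0 := by
    rw [circleAverage_eq_circleIntegral hr.ne']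
    have hwz' : w - z ≠ 0 := sub_ne_zero.mpr hwz
    have e1 : (∮ ζ in C(z, r), (ζ - z)⁻¹ • (w - ζ)⁻¹) =
        ∮ ζ in C(z, r), (w - z)⁻¹ * ((ζ - z)⁻¹ - (ζ - w)⁻¹) := by
      apply circleIntegral.integral_congr hr.le
      intro ζ hζ
      have hζ' := mem_sphere_iff_norm.mp hζ
      have h2 : ζ - z ≠ 0 := by
        intro h0; rw [h0, norm_zero] at hζ'; linarith
      have h3 : ζ - w ≠ 0 := by
        intro h0
        have : ζ = w := sub_eq_zero.mp h0
        rw [this] at hζ'; linarith
      have h4 : w - ζ ≠ 0 := by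
        intro h0; apply h3; rw [← neg_sub, h0, neg_zero]
      simp only [smul_eq_mul]
      field_simp
      ring
    have e2 : (∮ ζ in C(z, r), (w - z)⁻¹ * ((ζ - z)⁻¹ - (ζ - w)⁻¹)) = 0 := by
      have e3 := circleIntegral.integral_const_mul (w - z)⁻¹ (fun ζ : ℂ => (ζ - z)⁻¹ - (ζ - w)⁻¹) z r
      rw [e3]
      rw [circleIntegral.integral_sub]
      · rw [circleIntegral.integral_sub_inv_of_mem_ball (Metric.mem_ball_self hr),
          circleIntegral.integral_sub_inv_of_mem_ball (mem_ball_iff_norm.mpr hw), sub_self, mul_zero]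
      · apply ContinuousOn.circleIntegrable hr.le
        apply (continuousOn_id.sub continuousOn_const).inv₀
        intro x hx h0
        have hx' := mem_sphere_iff_norm.mp hx
        change x - z = 0 at h0
        rw [h0, norm_zero] at hx'; linarith
      · apply ContinuousOn.circleIntegrable hr.le
        apply (continuousOn_id.sub continuousOn_const).inv₀
        intro x hx h0
        have hx' := mem_sphere_iff_norm.mp hx
        have : x = w := sub_eq_zero.mp h0
        rw [this] at hx'; linarith
    rw [e1, e2, smul_zero]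
  have h2 := ContinuousLinearMap.circleAverage_comp_comm (Complex.conjCLE : ℂ →L[ℝ] ℂ)
    (f := fun ζ => (w - ζ)⁻¹) (c := z) (R := r) (hcont.circleIntegrable hr.le)
  rw [h1] at h2
  have h3 : (⇑(Complex.conjCLE : ℂ →L[ℝ] ℂ) ∘ fun ζ => (w - ζ)⁻¹) = fun ζ => k (w - ζ) := by
    funext ζ
    simp [k]
  rw [h3] at h2
  rw [h2]
  simp

lemma W_avg {g : ℂ → ℂ} {L C : ℝ} (hg : Adm g L C) (z : ℂ) (r : ℝ) (hr : 0 < r) :
    circleAverage (W g) z r = W g z - ∫ w in Metric.ball z r, g w * k (w - z) := by
  have hC : 0 ≤ C := (norm_nonneg _).trans (hg.bd 0)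
  have hswap : circleAverage (W g) z r = ∫ w, g w * circleAverage (fun ζ => k (w - ζ)) z r := by
    rw [circleAverage_def, intervalIntegral.integral_of_le (by positivity)]
    have hint : Integrable (fun p : ℝ × ℂ => g p.2 * k (p.2 - circleMap z r p.1))
        ((volume.restrict (Ioc 0 (2 * π))).prod volume) := by
      have hmeas : Measurable (fun p : ℝ × ℂ => g p.2 * k (p.2 - circleMap z r p.1)) :=
        (hg.cont.measurable.comp measurable_snd).mul (k_meas.comp
          (measurable_snd.sub ((continuous_circleMap z r).measurable.comp measurable_fst)))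
      rw [integrable_prod_iff hmeas.aestronglyMeasurable]
      constructor
      · apply Eventually.of_forall
        intro θ
        exact gk_int hg (circleMap z r θ)
      · apply Integrable.of_bound (C := C * ∫ v, hh (L + (‖z‖ + r)) v)
        · exact hmeas.aestronglyMeasurable.norm.integral_prod_right'
        · apply Eventually.of_forall
          intro θ
          rw [Real.norm_of_nonneg (integral_nonneg (fun w => norm_nonneg _))]
          have hζ : ‖circleMap z r θ‖ ≤ ‖z‖ + r := by
            have h1 := circleMap_mem_sphere z hr.le θ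
            have h2 := mem_sphere_iff_norm.mp h1
            calc ‖circleMap z r θ‖ = ‖(circleMap z r θ - z) + z‖ := by ring_nf
              _ ≤ _ := norm_add_le _ _
              _ = ‖z‖ + r := by rw [h2]; ring
          have e1 : ∫ w, ‖g w * k (w - circleMap z r θ)‖ ≤
              ∫ w, C * hh (L + (‖z‖ + r)) (w - circleMap z r θ) := by
            apply integral_mono (gk_int hg (circleMap z r θ)).norm
              (((hh_int (L + (‖z‖ + r))).comp_sub_right (circleMap z r θ)).const_mul C)
            intro w
            exact bound hg (‖z‖ + r) (circleMap z r θ) w hζ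
          rw [integral_const_mul, integral_sub_right_eq_self (μ := (volume : Measure ℂ))
            (hh (L + (‖z‖ + r))) (circleMap z r θ)] at e1
          exact e1
    have h1 := integral_integral_swap (μ := volume.restrict (Ioc 0 (2 * π))) (ν := (volume : Measure ℂ))
      (f := fun (θ : ℝ) (w : ℂ) => g w * k (w - circleMap z r θ)) hint
    have h2 : ∫ θ in Ioc 0 (2 * π), W g (circleMap z r θ) =
        ∫ w, ∫ θ in Ioc 0 (2 * π), g w * k (w - circleMap z r θ) := by
      unfold W
      exact h1
    rw [h2, ← integral_smul]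
    apply integral_congr_ae
    apply Eventually.of_forall
    intro w
    simp only
    rw [circleAverage_def, intervalIntegral.integral_of_le (by positivity), integral_const_mul]
    simp only [Complex.real_smul]
    ring
  rw [hswap]
  unfold W
  rw [← integral_indicator Metric.isOpen_ball.measurableSet, ← integral_sub (gk_int hg z)]
  · apply integral_congr_ae
    have hs : ∀ᵐ w : ℂ, w ∉ Metric.sphere z r := by
      rw [ae_iff]
      simp only [not_not]
      exact Measure.addHaar_sphere volume z r
    have hz : ∀ᵐ w : ℂ, w ≠ z := by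
      rw [ae_iff]; simp
    filter_upwards [hs, hz] with w hw1 hw2
    by_cases hb : w ∈ Metric.ball z r
    · rw [indicator_of_mem hb, avg_in z w r hr (mem_ball_iff_norm.mp hb) hw2, mul_zero, sub_self]
    · rw [indicator_of_notMem hb, sub_zero]
      rw [avg_out z w r hr]
      rw [mem_ball_iff_norm] at hb
      rw [mem_sphere_iff_norm] at hw1
      exact lt_of_le_of_ne (not_lt.mp hb) (Ne.symm hw1)
  · exact (gk_int hg z).indicator Metric.isOpen_ball.measurableSet

/-- the angular integral -/
def J (g : ℂ → ℂ) (z : ℂ) (ρ : ℝ) : ℂ :=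
  ∫ θ in (-π)..π, g (z + ρ * Complex.exp (θ * Complex.I)) * Complex.exp (θ * Complex.I)

lemma polar {g : ℂ → ℂ} {L C : ℝ} (hg : Adm g L C) (z : ℂ) (r : ℝ) (hr : 0 < r) :
    ∫ w in Metric.ball z r, g w * k (w - z) = ∫ ρ in (0:ℝ)..r, J g z ρ := by
  have hgc := hg.cont
  have h1 : ∫ w in Metric.ball z r, g w * k (w - z) =
      ∫ v, (Metric.ball (0:ℂ) r).indicator (fun v => g (v + z) * k v) v := by
    rw [← integral_indicator Metric.isOpen_ball.measurableSet]
    rw [← integral_sub_right_eq_self (μ := (volume : Measure ℂ))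
      ((Metric.ball (0:ℂ) r).indicator (fun v => g (v + z) * k v)) z]
    congr 1
    funext w
    by_cases hw : w ∈ Metric.ball z r
    · have hw' : w - z ∈ Metric.ball (0:ℂ) r := by
        rw [mem_ball_zero_iff]; exact mem_ball_iff_norm.mp hw
      rw [indicator_of_mem hw, indicator_of_mem hw', sub_add_cancel]
    · have hw' : w - z ∉ Metric.ball (0:ℂ) r := by
        rw [mem_ball_zero_iff]; rwa [mem_ball_iff_norm] at hw
      rw [indicator_of_notMem hw, indicator_of_notMem hw']
  rw [h1, ← Complex.integral_comp_polarCoord_symm]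
  set G : ℝ × ℝ → ℂ := fun p => g (z + p.1 * Complex.exp (p.2 * Complex.I)) * Complex.exp (p.2 * Complex.I) with hG
  have hGc : Continuous G := by
    simp only [hG]
    fun_prop
  have h2 : ∫ p in polarCoord.target, p.1 • (Metric.ball (0:ℂ) r).indicator (fun v => g (v + z) * k v)
      (Complex.polarCoord.symm p) = ∫ p in polarCoord.target, (Iio r ×ˢ univ : Set (ℝ × ℝ)).indicator G p := by
    apply setIntegral_congr_fun
    · exact polarCoord.open_target.measurableSet
    · intro p hp
      have hp1 : 0 < p.1 := hp.1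
      simp only
      have hsym : Complex.polarCoord.symm p = p.1 * Complex.exp (p.2 * Complex.I) := by
        rw [Complex.polarCoord_symm_apply, Complex.exp_mul_I, Complex.ofReal_cos, Complex.ofReal_sin]
      have hnorm : ‖Complex.polarCoord.symm p‖ = p.1 := by
        rw [hsym, norm_mul, Complex.norm_exp_ofReal_mul_I, mul_one, Complex.norm_real,
          Real.norm_of_nonneg hp1.le]
      by_cases hpr : p.1 < r
      · rw [indicator_of_mem (by rw [mem_ball_zero_iff, hnorm]; exact hpr),
          indicator_of_mem (show p ∈ (Iio r ×ˢ univ : Set (ℝ × ℝ)) from ⟨hpr, mem_univ _⟩)]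
        simp only [hG]
        rw [hsym]
        have hk : k (p.1 * Complex.exp (p.2 * Complex.I)) = (p.1 : ℂ)⁻¹ * Complex.exp (p.2 * Complex.I) := by
          unfold k
          rw [map_mul, Complex.conj_ofReal, ← Complex.exp_conj, mul_inv, ← Complex.exp_neg]
          congr 2
          simp
        rw [hk, Complex.real_smul, add_comm z]
        have hp1' : (p.1 : ℂ) ≠ 0 := by exact_mod_cast hp1.ne'
        field_simp
      · rw [indicator_of_notMem (by rw [mem_ball_zero_iff, hnorm]; exact hpr),
          indicator_of_notMem (show p ∉ (Iio r ×ˢ univ : Set (ℝ × ℝ)) from fun h => hpr h.1), smul_zero]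
  rw [h2, setIntegral_indicator (measurableSet_Iio.prod MeasurableSet.univ)]
  have h3 : polarCoord.target ∩ (Iio r ×ˢ univ : Set (ℝ × ℝ)) = Ioo 0 r ×ˢ Ioo (-π) π := by
    ext p
    simp only [polarCoord_target, mem_inter_iff, mem_prod, mem_Ioi, mem_Iio, mem_univ, and_true, mem_Ioo]
    tauto
  rw [h3]
  have h4 : IntegrableOn G (Ioo 0 r ×ˢ Ioo (-π) π) :=
    (hGc.continuousOn.integrableOn_compact (isCompact_Icc.prod isCompact_Icc)).mono_set
      (prod_mono Ioo_subset_Icc_self Ioo_subset_Icc_self)
  rw [Measure.volume_eq_prod] at h4 ⊢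
  rw [setIntegral_prod _ h4, intervalIntegral.integral_of_le hr.le, integral_Ioc_eq_integral_Ioo]
  apply setIntegral_congr_fun measurableSet_Ioo
  intro ρ _
  simp only [J]
  rw [intervalIntegral.integral_of_le (by linarith [Real.pi_pos]), integral_Ioc_eq_integral_Ioo]

lemma J_cont {g : ℂ → ℂ} (hg : Continuous g) (z : ℂ) : Continuous (J g z) := by
  unfold J
  apply intervalIntegral.continuous_parametric_intervalIntegral_of_continuous'
  fun_prop

lemma J_circle {g : ℂ → ℂ} (z : ℂ) (ρ : ℝ) : (∮ ζ in C(z, ρ), g ζ) = ρ * Complex.I * J g z ρ := by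
  rw [circleIntegral]
  have hper : Function.Periodic (fun θ : ℝ => g (z + ρ * Complex.exp (θ * Complex.I)) * Complex.exp (θ * Complex.I)) (2 * π) := by
    intro θ
    have : Complex.exp (((θ + 2 * π : ℝ) : ℂ) * Complex.I) = Complex.exp (θ * Complex.I) := by
      rw [← Complex.exp_periodic (θ * Complex.I)]
      congr 1
      push_cast; ring
    simp only [this]
  have h1 := hper.intervalIntegral_add_eq 0 (-π)
  have e1 : -π + 2 * π = π := by ring
  rw [zero_add, e1] at h1
  unfold J
  rw [← h1, ← intervalIntegral.integral_const_mul]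
  apply intervalIntegral.integral_congr
  intro θ _
  simp only [deriv_circleMap, smul_eq_mul, circleMap, zero_add]
  ring

end

end Pool.Agent.H7.Mor
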