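import Mathlib
import Pool.Agent.H7.MorA
import Pool.Agent.H7.MorB

set_option autoImplicit false
set_option maxHeartbeats 1000000
open Set Filter Topology MeasureTheory Real

namespace Pool.Agent.H7.Mor

noncomputable section

lemma localize (D : Set ℂ) (hD : IsOpen D) (f : ℂ → ℂ) (hf : ContinuousOn f D) (z0 : ℂ) (R : ℝ)
    (hR : 0 < R) (hsub : Metric.closedBall z0 (3 * R) ⊆ D) :
    ∃ (g : ℂ → ℂ) (L C : ℝ), Adm g L C ∧ ∀ w ∈ Metric.closedBall z0 (2 * R), g w = f w := by
  set χ : ℂ → ℝ := fun w => max 0 (min 1 (3 - ‖w - z0‖ / R)) with hχ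
  have hχc : Continuous χ := by fun_prop
  have hχ0 : ∀ w, 3 * R < ‖w - z0‖ → χ w = 0 := by
    intro w hw
    have h1 : 3 < ‖w - z0‖ / R := by rw [lt_div_iff₀ hR]; exact hw
    simp only [hχ]
    apply max_eq_left
    exact (min_le_right _ _).trans (by linarith)
  set g : ℂ → ℂ := fun w => (χ w : ℂ) * f w with hg
  have hgc : Continuous g := by
    rw [continuous_iff_continuousAt]
    intro w
    by_cases hw : w ∈ D
    · exact (Complex.continuous_ofReal.comp hχc).continuousAt.mul (hf.continuousAt (hD.mem_nhds hw))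
    · have hw2 : w ∈ (Metric.closedBall z0 (3 * R))ᶜ := fun h => hw (hsub h)
      have hev : ∀ᶠ x in 𝓝 w, (0:ℂ) = g x := by
        filter_upwards [Metric.isClosed_closedBall.isOpen_compl.mem_nhds hw2] with x hx
        simp only [hg]
        rw [hχ0 x (by
          rw [mem_compl_iff, mem_closedBall_iff_norm] at hx
          exact not_le.mp hx)]
        simp
      exact continuousAt_const.congr hev
  set L := ‖z0‖ + 3 * R + 1 with hL
  obtain ⟨C, hC⟩ := (isCompact_closedBall (0:ℂ) L).exists_bound_of_continuousOn hgc.continuousOn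
  have hsupp : ∀ w, L ≤ ‖w‖ → g w = 0 := by
    intro w hw
    simp only [hg]
    rw [hχ0 w (by
      have : ‖w‖ ≤ ‖w - z0‖ + ‖z0‖ := by
        calc ‖w‖ = ‖(w - z0) + z0‖ := by ring_nf
          _ ≤ _ := norm_add_le _ _
      linarith)]
    simp
  refine ⟨g, L, C, ⟨hgc, hsupp, ?_⟩, ?_⟩
  · intro w
    by_cases hw : ‖w‖ ≤ L
    · exact hC w (by simpa using hw)
    · rw [hsupp w (by push Not at hw; exact hw.le), norm_zero]
      exact (norm_nonneg _).trans (hC 0 (by simp; positivity))
  · intro w hw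
    rw [mem_closedBall_iff_norm] at hw
    have h1 : ‖w - z0‖ / R ≤ 2 := by rw [div_le_iff₀ hR]; exact hw
    have h2 : χ w = 1 := by
      simp only [hχ]
      rw [min_eq_left (by linarith)]
      simp
    simp only [hg]
    rw [h2]; simp

lemma W_small {g : ℂ → ℂ} {L C : ℝ} (hg : Adm g L C) (z : ℂ)
    (hI : Tendsto (fun r : ℝ => (∮ ζ in C(z, r), g ζ) / (r : ℂ)^2) (𝓝[>] 0) (𝓝 0)) (ε : ℝ) (hε : 0 < ε) :
    ∀ᶠ r in 𝓝[>] (0:ℝ), ‖circleAverage (W g) z r - W g z‖ ≤ ε * r^2 := by
  have h1 : ∀ᶠ r in 𝓝[>] (0:ℝ), ‖(∮ ζ in C(z, r), g ζ) / (r : ℂ)^2‖ < ε := by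
    have := hI.norm
    rw [norm_zero] at this
    exact this.eventually (gt_mem_nhds hε)
  rw [eventually_nhdsWithin_iff, Metric.eventually_nhds_iff] at h1
  obtain ⟨δ, hδ, h2⟩ := h1
  have h3 : ∀ ρ : ℝ, 0 < ρ → ρ < δ → ‖J g z ρ‖ ≤ ε * ρ := by
    intro ρ hρ hρδ
    have h4 := h2 (y := ρ) (by rw [Real.dist_eq, sub_zero, abs_of_pos hρ]; exact hρδ) hρ
    rw [J_circle, norm_div, norm_mul, norm_mul, norm_pow, Complex.norm_I, Complex.norm_real,
      Real.norm_of_nonneg hρ.le, mul_one, div_lt_iff₀ (by positivity)] at h4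
    have h5 : ρ * ‖J g z ρ‖ ≤ ρ * (ε * ρ) := by nlinarith
    exact le_of_mul_le_mul_left h5 hρ
  have h6 : ∀ᶠ r in 𝓝[>] (0:ℝ), r < δ := eventually_nhdsWithin_of_eventually_nhds (gt_mem_nhds hδ)
  filter_upwards [h6, self_mem_nhdsWithin] with r hr1 hr2
  have hr2' : 0 < r := hr2
  rw [W_avg hg z r hr2', sub_sub_cancel_left, norm_neg, polar hg z r hr2']
  have h7 : ‖∫ ρ in (0:ℝ)..r, J g z ρ‖ ≤ (ε * r) * |r - 0| := by
    apply intervalIntegral.norm_integral_le_of_norm_le_const
    intro ρ hρ
    rw [uIoc_of_le hr2'.le] at hρ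
    refine (h3 ρ hρ.1 (lt_of_le_of_lt hρ.2 hr1)).trans ?_
    exact mul_le_mul_of_nonneg_left hρ.2 hε.le
  rw [sub_zero, abs_of_pos hr2'] at h7
  refine h7.trans (le_of_eq ?_)
  ring

lemma GL_of_clm {g : ℂ → ℂ} {L C : ℝ} (hg : Adm g L C) (z : ℂ) (Λ : ℂ →L[ℝ] ℝ) (hΛ : ∀ x, |Λ x| ≤ ‖x‖)
    (hI : Tendsto (fun r : ℝ => (∮ ζ in C(z, r), g ζ) / (r : ℂ)^2) (𝓝[>] 0) (𝓝 0)) :
    GL0 (fun x => Λ (W g x)) z := by
  unfold GL0
  rw [Metric.tendsto_nhds]
  intro ε hε
  filter_upwards [W_small hg z hI (ε/2) (by positivity), self_mem_nhdsWithin] with r h1 hr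
  have hr' : 0 < r := hr
  rw [Real.dist_eq, sub_zero, abs_div, abs_of_pos (by positivity : 0 < r^2), div_lt_iff₀ (by positivity)]
  have h2 : circleAverage (fun x => Λ (W g x)) z r = Λ (circleAverage (W g) z r) :=
    Λ.circleAverage_comp_comm ((W_cont hg).continuousOn.circleIntegrable hr'.le)
  rw [h2, ← map_sub]
  have h3 := (hΛ (circleAverage (W g) z r - W g z)).trans h1
  have : 0 < r^2 := by positivity
  nlinarith

lemma circ_zero {g : ℂ → ℂ} {L C : ℝ} (hg : Adm g L C) (z0 : ℂ) (R : ℝ)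
    (hI : ∀ z ∈ Metric.ball z0 (2 * R), Tendsto (fun r : ℝ => (∮ ζ in C(z, r), g ζ) / (r : ℂ)^2) (𝓝[>] 0) (𝓝 0))
    (z : ℂ) (hz : z ∈ Metric.ball z0 R) (s : ℝ) (hs : 0 < s) (hsR : s < R) : (∮ ζ in C(z, s), g ζ) = 0 := by
  have h1 : ∀ r : ℝ, 0 < r → r < R → ∫ ρ in (0:ℝ)..r, J g z ρ = 0 := by
    intro r hr hrR
    have hsub : Metric.ball z r ⊆ Metric.ball z0 (2 * R) := by
      apply Metric.ball_subset_ball'
      have := Metric.mem_ball.mp hz
      linarith
    have hcl : ∀ Λ : ℂ →L[ℝ] ℝ, (∀ x, |Λ x| ≤ ‖x‖) → Λ (circleAverage (W g) z r) = Λ (W g z) := by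
      intro Λ hΛ
      have h2 := mean_eq (fun x => Λ (W g x)) (Λ.continuous.comp (W_cont hg)) z r hr
        (fun w hw => GL_of_clm hg w Λ hΛ (hI w (hsub hw)))
      rw [← h2]
      exact (Λ.circleAverage_comp_comm ((W_cont hg).continuousOn.circleIntegrable hr.le)).symm
    have h2 : circleAverage (W g) z r = W g z := by
      apply Complex.ext
      · exact hcl Complex.reCLM (fun x => Complex.abs_re_le_norm x)
      · exact hcl Complex.imCLM (fun x => Complex.abs_im_le_norm x)
    have h3 := W_avg hg z r hr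
    rw [h2, polar hg z r hr] at h3
    have : ∫ ρ in (0:ℝ)..r, J g z ρ = W g z - (W g z - ∫ ρ in (0:ℝ)..r, J g z ρ) := by ring
    rw [this, ← h3, sub_self]
  have hJc := J_cont hg.cont z
  have h2 : HasDerivAt (fun r => ∫ ρ in (0:ℝ)..r, J g z ρ) (J g z s) s :=
    intervalIntegral.integral_hasDerivAt_right (hJc.intervalIntegrable _ _)
      (hJc.stronglyMeasurableAtFilter _ _) hJc.continuousAt
  have h3 : HasDerivAt (fun r => ∫ ρ in (0:ℝ)..r, J g z ρ) 0 s := by
    apply (hasDerivAt_const s (0:ℂ)).congr_of_eventuallyEq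
    filter_upwards [Ioo_mem_nhds hs hsR] with r hr
    exact h1 r hr.1 hr.2
  have h4 := h2.unique h3
  rw [J_circle, h4, mul_zero]

lemma holo (h : ℂ → ℂ) (hc : Continuous h) (z : ℂ) (hd : DifferentiableAt ℝ h z)
    (hI : ∀ᶠ s in 𝓝[>] (0:ℝ), (∮ ζ in C(z, s), h ζ) = 0) : DifferentiableAt ℂ h z := by
  rw [differentiableAt_complex_iff_differentiableAt_real]
  refine ⟨hd, ?_⟩
  set A := fderiv ℝ h z with hA
  have hfd : HasFDerivAt h A z := hd.hasFDerivAt
  set a : ℂ := (A 1 - Complex.I * A Complex.I) / 2 with ha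
  set b : ℂ := (A 1 + Complex.I * A Complex.I) / 2 with hb
  have hAv : ∀ v : ℂ, A v = a * v + b * starRingEnd ℂ v := by
    intro v
    have e1 : v = v.re • (1:ℂ) + v.im • Complex.I := by
      apply Complex.ext <;> simp
    have e2 : A v = v.re • A 1 + v.im • A Complex.I := by
      conv_lhs => rw [e1]
      rw [map_add, map_smul, map_smul]
    have e3 : v = v.re + v.im * Complex.I := (Complex.re_add_im v).symm
    have e4 : starRingEnd ℂ v = v.re - v.im * Complex.I := by
      apply Complex.ext <;> simp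
    rw [e2, ha, hb, e4]
    conv_rhs => rw [e3]
    simp only [Complex.real_smul, Complex.add_re, Complex.add_im, Complex.ofReal_re, Complex.ofReal_im,
      Complex.mul_re, Complex.mul_im, Complex.I_re, Complex.I_im]
    simp only [mul_zero, sub_zero, add_zero, mul_one, zero_add]
    have hI2 : Complex.I * Complex.I = -1 := Complex.I_mul_I
    linear_combination ((v.im : ℂ) * A Complex.I) * hI2
  have hb0 : b = 0 := by
    by_contra hbne
    have hbpos : 0 < ‖b‖ := norm_pos_iff.mpr hbne
    rw [hasFDerivAt_iff_isLittleO] at hfd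
    have h1 := hfd.def (show 0 < ‖b‖/2 by positivity)
    rw [Metric.eventually_nhds_iff] at h1
    obtain ⟨δ, hδ, h2⟩ := h1
    have h3 : ∀ᶠ s in 𝓝[>] (0:ℝ), s < δ := eventually_nhdsWithin_of_eventually_nhds (gt_mem_nhds hδ)
    have h4 : ∀ᶠ s in 𝓝[>] (0:ℝ), 0 < s := eventually_nhdsWithin_of_forall (fun r hr => hr)
    obtain ⟨s, hs0, hs1, hs2⟩ := (hI.and (h3.and h4)).exists
    have h5 : ‖∮ ζ in C(z, s), (h ζ - h z - A (ζ - z))‖ ≤ 2 * π * s * (‖b‖/2 * s) := by
      apply circleIntegral.norm_integral_le_of_norm_le_const hs2.le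
      intro ζ hζ
      have h6 := h2 (y := ζ) (by rw [Metric.mem_sphere.mp hζ]; exact hs1)
      rw [mem_sphere_iff_norm.mp hζ] at h6
      exact h6
    have h6 : (∮ ζ in C(z, s), (h ζ - h z - A (ζ - z))) = - (b * (s^2 * (2 * π * Complex.I))) := by
      have e1 : (∮ ζ in C(z, s), (h ζ - h z - A (ζ - z))) =
          ∮ ζ in C(z, s), (h ζ - ((h z + a * (ζ - z)) + (b * s^2) * (ζ - z)⁻¹)) := by
        apply circleIntegral.integral_congr hs2.le
        intro ζ hζ
        have hζ' := mem_sphere_iff_norm.mp hζ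
        have hne : ζ - z ≠ 0 := by
          intro h0; rw [h0, norm_zero] at hζ'; linarith
        simp only
        rw [hAv]
        have e2 : starRingEnd ℂ (ζ - z) = s^2 * (ζ - z)⁻¹ := by
          rw [eq_mul_inv_iff_mul_eq₀ hne, mul_comm, Complex.mul_conj, Complex.normSq_eq_norm_sq, hζ']
          push_cast; rfl
        rw [e2]; ring
      have i1 : CircleIntegrable h z s := hc.continuousOn.circleIntegrable hs2.le
      have i2 : CircleIntegrable (fun ζ => h z + a * (ζ - z)) z s :=
        (Continuous.continuousOn (by fun_prop)).circleIntegrable hs2.le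
      have i3 : CircleIntegrable (fun ζ : ℂ => (b * (s:ℂ)^2) * (ζ - z)⁻¹) z s := by
        apply ContinuousOn.circleIntegrable hs2.le
        apply continuousOn_const.mul
        apply (continuousOn_id.sub continuousOn_const).inv₀
        intro x hx h0
        have hx' := mem_sphere_iff_norm.mp hx
        change x - z = 0 at h0
        rw [h0, norm_zero] at hx'; linarith
      have e2 : (∮ ζ in C(z, s), (h z + a * (ζ - z))) = 0 := by
        apply Complex.circleIntegral_eq_zero_of_differentiable_on_off_countable hs2.le countable_empty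
        · exact Continuous.continuousOn (by fun_prop)
        · intro x _
          fun_prop
      have e3 : (∮ ζ in C(z, s), (b * (s:ℂ)^2) * (ζ - z)⁻¹) = (b * (s:ℂ)^2) * (2 * π * Complex.I) := by
        have := circleIntegral.integral_const_mul (b * (s:ℂ)^2) (fun ζ : ℂ => (ζ - z)⁻¹) z s
        rw [this, circleIntegral.integral_sub_center_inv z hs2.ne']
      have e4 : (∮ ζ in C(z, s), (h ζ - ((h z + a * (ζ - z)) + (b * s^2) * (ζ - z)⁻¹))) =
          (∮ ζ in C(z, s), h ζ) - ∮ ζ in C(z, s), ((h z + a * (ζ - z)) + (b * s^2) * (ζ - z)⁻¹) :=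
        circleIntegral.integral_sub i1 (i2.add i3)
      have e5 : (∮ ζ in C(z, s), ((h z + a * (ζ - z)) + (b * s^2) * (ζ - z)⁻¹)) =
          (∮ ζ in C(z, s), (h z + a * (ζ - z))) + ∮ ζ in C(z, s), (b * (s:ℂ)^2) * (ζ - z)⁻¹ :=
        circleIntegral.integral_add i2 i3
      rw [e1, e4, hs0, e5, e2, e3]
      ring
    rw [h6, norm_neg, norm_mul, norm_mul, norm_mul, norm_mul, norm_pow, Complex.norm_I, Complex.norm_real,
      Complex.norm_real, Real.norm_of_nonneg hs2.le, Real.norm_of_nonneg Real.pi_pos.le, Complex.norm_two, mul_one] at h5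
    have hpi := Real.pi_pos
    have h7 : 0 < s^2 * (2 * π) := by positivity
    nlinarith [mul_pos hbpos h7]
  have e1 : A 1 + Complex.I * A Complex.I = 0 := by
    have : b * 2 = 0 := by rw [hb0, zero_mul]
    rw [hb] at this
    linear_combination this
  rw [smul_eq_mul]
  have hI2 : Complex.I * Complex.I = -1 := Complex.I_mul_I
  linear_combination -Complex.I * e1 + (A Complex.I) * hI2

/-- the mollification -/
def mol (φ : ContDiffBump (0:ℂ)) (g : ℂ → ℂ) (x : ℂ) : ℂ := ∫ t, (φ.normed volume t) • g (x - t)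

lemma mol_eq (φ : ContDiffBump (0:ℂ)) (g : ℂ → ℂ) :
    mol φ g = convolution (φ.normed volume) g (ContinuousLinearMap.lsmul ℝ ℝ) volume := by
  funext x
  rfl

lemma mol_smooth (φ : ContDiffBump (0:ℂ)) (g : ℂ → ℂ) (hg : Continuous g) : ContDiff ℝ 1 (mol φ g) := by
  rw [mol_eq]
  exact φ.hasCompactSupport_normed.contDiff_convolution_left _ φ.contDiff_normed hg.locallyIntegrable

lemma mol_circ {g : ℂ → ℂ} {L C : ℝ} (hg : Adm g L C) (φ : ContDiffBump (0:ℂ)) (z : ℂ) (s : ℝ) (hs : 0 < s)
    (h0 : ∀ t, ‖t‖ < φ.rOut → (∮ ζ in C(z - t, s), g ζ) = 0) : (∮ ζ in C(z, s), mol φ g ζ) = 0 := by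
  rw [circleIntegral, intervalIntegral.integral_of_le (by positivity)]
  set n : ℂ → ℝ := φ.normed volume with hn
  have hnc : Continuous n := (φ.contDiff_normed (n := 0)).continuous
  have hnn : ∀ t, 0 ≤ n t := fun t => φ.nonneg_normed t
  have hni : Integrable n := φ.integrable_normed
  have hgc := hg.cont
  have hC : 0 ≤ C := (norm_nonneg _).trans (hg.bd 0)
  have hdc : Continuous (fun θ : ℝ => deriv (circleMap z s) θ) := by
    have : (fun θ : ℝ => deriv (circleMap z s) θ) = fun θ : ℝ => circleMap 0 s θ * Complex.I := by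
      funext θ; rw [deriv_circleMap]
    rw [this]
    fun_prop
  have hint : Integrable (fun p : ℝ × ℂ => deriv (circleMap z s) p.1 • (n p.2 • g (circleMap z s p.1 - p.2)))
      ((volume.restrict (Ioc 0 (2 * π))).prod volume) := by
    have hb : Integrable (fun p : ℝ × ℂ => (s * C) * n p.2) ((volume.restrict (Ioc 0 (2 * π))).prod volume) :=
      (hni.comp_snd (volume.restrict (Ioc 0 (2 * π)))).const_mul (s * C)
    apply Integrable.mono' hb
    · apply Continuous.aestronglyMeasurable
      exact (hdc.comp continuous_fst).smul ((hnc.comp continuous_snd).smul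
        (hgc.comp (((continuous_circleMap z s).comp continuous_fst).sub continuous_snd)))
    · apply Eventually.of_forall
      intro p
      have e1 : ‖deriv (circleMap z s) p.1‖ = s := by
        rw [deriv_circleMap, norm_mul, Complex.norm_I, mul_one, norm_circleMap_zero, abs_of_pos hs]
      rw [norm_smul, norm_smul, e1, Real.norm_of_nonneg (hnn _)]
      have := hg.bd (circleMap z s p.1 - p.2)
      have h3 := hnn p.2
      have h4 : n p.2 * ‖g (circleMap z s p.1 - p.2)‖ ≤ n p.2 * C := mul_le_mul_of_nonneg_left this h3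
      nlinarith
  have h1 := integral_integral_swap (μ := volume.restrict (Ioc 0 (2 * π))) (ν := (volume : Measure ℂ))
      (f := fun (θ : ℝ) (t : ℂ) => deriv (circleMap z s) θ • (n t • g (circleMap z s θ - t))) hint
  have h2 : ∫ θ in Ioc 0 (2 * π), deriv (circleMap z s) θ • mol φ g (circleMap z s θ) =
      ∫ θ in Ioc 0 (2 * π), ∫ t, deriv (circleMap z s) θ • (n t • g (circleMap z s θ - t)) := by
    apply integral_congr_ae
    apply Eventually.of_forall
    intro θ
    simp only
    rw [integral_smul]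
    rfl
  rw [h2, h1]
  apply integral_eq_zero_of_ae
  apply Eventually.of_forall
  intro t
  simp only [Pi.zero_apply]
  by_cases ht : ‖t‖ < φ.rOut
  · have h3 := h0 t ht
    rw [circleIntegral, intervalIntegral.integral_of_le (by positivity)] at h3
    have h4 : ∀ θ : ℝ, deriv (circleMap z s) θ • (n t • g (circleMap z s θ - t)) =
        (n t : ℂ) * (deriv (circleMap (z - t) s) θ • g (circleMap (z - t) s θ)) := by
      intro θ
      have e1 : circleMap z s θ - t = circleMap (z - t) s θ := by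
        simp only [circleMap]; ring
      rw [e1, deriv_circleMap, deriv_circleMap]
      simp only [smul_eq_mul, Complex.real_smul]
      ring
    simp only [h4]
    rw [integral_const_mul, h3, mul_zero]
  · have h5 : n t = 0 := by
      by_contra hne
      have h6 : t ∈ Function.support (φ.normed volume) := hne
      rw [φ.support_normed_eq, mem_ball_zero_iff] at h6
      exact ht h6
    simp [h5]

theorem morera (D : Set ℂ) (hD : IsOpen D) (f : ℂ → ℂ) (hf : ContinuousOn f D)
    (h : ∀ z ∈ D, Tendsto (fun r : ℝ => (∮ ζ in C(z, r), f ζ) / (r : ℂ)^2) (𝓝[>] 0) (𝓝 0)) :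
    DifferentiableOn ℂ f D := by
  intro z0 hz0
  obtain ⟨ε, hε, hεD⟩ := Metric.isOpen_iff.mp hD z0 hz0
  set R := ε / 6 with hR
  have hR0 : 0 < R := by positivity
  have hsub : Metric.closedBall z0 (3 * R) ⊆ D :=
    (Metric.closedBall_subset_ball (by rw [hR]; linarith)).trans hεD
  obtain ⟨g, L, C, hg, hgf⟩ := localize D hD f hf z0 R hR0 hsub
  have hgc := hg.cont
  have hI : ∀ z ∈ Metric.ball z0 (2 * R),
      Tendsto (fun r : ℝ => (∮ ζ in C(z, r), g ζ) / (r : ℂ)^2) (𝓝[>] 0) (𝓝 0) := by
    intro z hz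
    have hzD : z ∈ D := hsub (Metric.ball_subset_closedBall.trans
      (Metric.closedBall_subset_closedBall (by linarith)) hz)
    apply (h z hzD).congr'
    have hd : 0 < 2 * R - dist z z0 := by have := Metric.mem_ball.mp hz; linarith
    have h2 : ∀ᶠ r in 𝓝[>] (0:ℝ), r < 2 * R - dist z z0 :=
      eventually_nhdsWithin_of_eventually_nhds (gt_mem_nhds hd)
    filter_upwards [h2, self_mem_nhdsWithin] with r hr1 hr2
    have hr2' : 0 < r := hr2
    congr 1
    apply circleIntegral.integral_congr hr2'.le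
    intro ζ hζ
    symm
    apply hgf
    rw [Metric.mem_closedBall]
    have := dist_triangle ζ z z0
    have := Metric.mem_sphere.mp hζ
    linarith
  have hcz := circ_zero hg z0 R hI
  -- mollifiers
  set δ : ℕ → ℝ := fun n => R / 2 / (n + 1) with hδ
  have hδ0 : ∀ n, 0 < δ n := fun n => by positivity
  have hδR : ∀ n, δ n ≤ R / 2 := by
    intro n
    simp only [hδ]
    apply div_le_self (by positivity)
    have : (0:ℝ) ≤ n := Nat.cast_nonneg n
    linarith
  set φ : ℕ → ContDiffBump (0:ℂ) := fun n => ⟨δ n / 2, δ n, by have := hδ0 n; positivity, by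
    have := hδ0 n; linarith⟩ with hφ
  have hhol : ∀ n, DifferentiableOn ℂ (mol (φ n) g) (Metric.ball z0 (R/2)) := by
    intro n z hz
    apply DifferentiableAt.differentiableWithinAt
    have hsm := mol_smooth (φ n) g hgc
    apply holo _ hsm.continuous z (hsm.differentiable (by norm_num)).differentiableAt
    have h2 : ∀ᶠ s in 𝓝[>] (0:ℝ), s < R := eventually_nhdsWithin_of_eventually_nhds (gt_mem_nhds hR0)
    filter_upwards [h2, self_mem_nhdsWithin] with s hs1 hs2
    apply mol_circ hg (φ n) z s hs2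
    intro t ht
    apply hcz (z - t) _ s hs2 hs1
    have ht' : ‖t‖ < δ n := ht
    have hz' := mem_ball_iff_norm.mp hz
    rw [mem_ball_iff_norm]
    calc ‖z - t - z0‖ = ‖(z - z0) - t‖ := by ring_nf
      _ ≤ ‖z - z0‖ + ‖t‖ := norm_sub_le _ _
      _ < R := by have := hδR n; linarith
  have huc := (isCompact_closedBall z0 R).uniformContinuousOn_of_continuous hgc.continuousOn
  rw [Metric.uniformContinuousOn_iff] at huc
  have hunif : TendstoUniformlyOn (fun n => mol (φ n) g) g atTop (Metric.ball z0 (R/2)) := by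
    rw [Metric.tendstoUniformlyOn_iff]
    intro η hη
    obtain ⟨κ, hκ, hκ2⟩ := huc (η/2) (by positivity)
    have hδt : Tendsto δ atTop (𝓝 0) := by
      have h3 := (tendsto_one_div_add_atTop_nhds_zero_nat (𝕜 := ℝ)).const_mul (R/2)
      rw [mul_zero] at h3
      apply h3.congr
      intro n
      simp only [hδ]
      ring
    filter_upwards [hδt.eventually (gt_mem_nhds hκ)] with n hn
    intro x hx
    have hx' := Metric.mem_ball.mp hx
    have h4 : dist (mol (φ n) g x) (g x) ≤ η/2 := by
      rw [mol_eq]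
      apply ContDiffBump.dist_normed_convolution_le hgc.aestronglyMeasurable
      intro y hy
      have hy' : dist y x < δ n := hy
      apply le_of_lt
      apply hκ2 y _ x _ (by linarith)
      · rw [Metric.mem_closedBall]
        have := dist_triangle y x z0
        have := hδR n
        linarith
      · rw [Metric.mem_closedBall]; linarith
    rw [dist_comm]
    linarith
  have hdg : DifferentiableOn ℂ g (Metric.ball z0 (R/2)) :=
    hunif.tendstoLocallyUniformlyOn.differentiableOn (Eventually.of_forall hhol) Metric.isOpen_ball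
  have hnb : Metric.ball z0 (R/2) ∈ 𝓝 z0 := Metric.ball_mem_nhds z0 (by positivity)
  have hdat : DifferentiableAt ℂ g z0 := hdg.differentiableAt hnb
  apply DifferentiableAt.differentiableWithinAt
  apply hdat.congr_of_eventuallyEq
  filter_upwards [hnb] with w hw
  symm
  apply hgf
  rw [Metric.mem_closedBall]
  have := Metric.mem_ball.mp hw
  linarith

end

end Pool.Agent.H7.Mor
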