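import Mathlib

set_option autoImplicit false

namespace Pool.Agent.H7.Psh

open scoped ENNReal

/-- Complex Euclidean space of dimension `n`. -/
abbrev Cn (n : ℕ) : Type := EuclideanSpace ℂ (Fin n)

/-- `u` is plurisubharmonic on the (open) set `Ω`: its values on `Ω` lie in `[-∞, ∞)`, it is upper
semicontinuous on `Ω`, and for every closed complex disc `{a + ζ b : ‖ζ‖ ≤ 1}` inside `Ω` the value
at the centre is at most the mean over the boundary circle.  As `u` is bounded above on the circle,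
the mean is `M - (1/2π) ∫ (M - u)`, with `M` any real upper bound of `u` on the circle, and the
integral of the nonnegative (possibly infinite) function `M - u` is a Lebesgue integral. -/
def IsPsh {n : ℕ} (Ω : Set (Cn n)) (u : Cn n → EReal) : Prop :=
  (∀ z ∈ Ω, u z < ⊤) ∧ UpperSemicontinuousOn u Ω ∧
  ∀ a b : Cn n, (∀ ζ : ℂ, ‖ζ‖ ≤ 1 → a + ζ • b ∈ Ω) →
    ∀ M : ℝ, (∀ ζ : ℂ, ‖ζ‖ = 1 → u (a + ζ • b) ≤ (M : EReal)) →
      u a + (((∫⁻ θ in Set.Ioo 0 (2 * Real.pi),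
          ((M : EReal) - u (a + Complex.exp (Complex.I * (θ : ℂ)) • b)).toENNReal) /
            ENNReal.ofReal (2 * Real.pi) : ℝ≥0∞) : EReal) ≤ (M : EReal)

/-- `E` is contained in the `-∞` set of some function that is plurisubharmonic on `D` and not
identically `-∞` on `D`. -/
def IsPluripolarIn {n : ℕ} (D E : Set (Cn n)) : Prop :=
  ∃ u : Cn n → EReal, IsPsh D u ∧ (∃ z ∈ D, u z ≠ ⊥) ∧ ∀ z ∈ E, u z = ⊥

/-- `q` is a differential test from above for `φ` at `z`: it is `C²` on an open neighbourhood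
`V ⊆ Ω` of `z` and `(φ - q)(z) = sup_V (φ - q)`. -/
def IsTestAbove {n : ℕ} (Ω : Set (Cn n)) (φ : Cn n → ℝ) (z : Cn n) (q : Cn n → ℝ) : Prop :=
  ∃ V : Set (Cn n), IsOpen V ∧ z ∈ V ∧ V ⊆ Ω ∧ ContDiffOn ℝ 2 q V ∧
    ∀ w ∈ V, φ w - q w ≤ φ z - q z

/-- The set of points of `Ω` at which `φ` admits no differential test from above. -/
def Exc {n : ℕ} (Ω : Set (Cn n)) (φ : Cn n → ℝ) : Set (Cn n) :=
  {z | z ∈ Ω ∧ ¬ ∃ q : Cn n → ℝ, IsTestAbove Ω φ z q}

end Pool.Agent.H7.Psh
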