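import Mathlib
import Pool.Agent.H7.PshDefs

set_option autoImplicit false

namespace Pool.Agent.H7.Psh

open scoped ENNReal
open Set Filter Topology MeasureTheory

/-- one-variable subharmonic functions on the disc of radius `R` -/
def Sub1 (R : ℝ) (v : ℂ → EReal) : Prop :=
  (∀ z ∈ Metric.ball (0:ℂ) R, v z < ⊤) ∧ UpperSemicontinuousOn v (Metric.ball (0:ℂ) R) ∧
  ∀ (p : ℂ) (s : ℝ), 0 < s → Metric.closedBall p s ⊆ Metric.ball (0:ℂ) R →
    ∀ M : ℝ, (∀ q ∈ Metric.sphere p s, v q ≤ (M : EReal)) →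
      v p + (((∫⁻ θ in Set.Ioo 0 (2 * Real.pi),
          ((M : EReal) - v (p + Complex.exp (Complex.I * (θ : ℂ)) * s)).toENNReal) /
            ENNReal.ofReal (2 * Real.pi) : ℝ≥0∞) : EReal) ≤ (M : EReal)

lemma arc_pos (p : ℂ) (s : ℝ) (_hs : 0 < s) (U : Set ℂ) (hU : IsOpen U) (q : ℂ) (hq : q ∈ Metric.sphere p s)
    (hqU : q ∈ U) :
    ∃ W : Set ℝ, IsOpen W ∧ W ⊆ Ioo 0 (2 * Real.pi) ∧ 0 < volume W ∧
      ∀ θ ∈ W, p + Complex.exp (Complex.I * (θ : ℂ)) * s ∈ U := by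
  have hc : Continuous (fun θ : ℝ => p + Complex.exp (Complex.I * (θ : ℂ)) * s) := by fun_prop
  have hne : ∃ θ0 ∈ Icc 0 (2 * Real.pi), p + Complex.exp (Complex.I * (θ0 : ℂ)) * s = q := by
    have hq' : ‖q - p‖ = s := by rw [← dist_eq_norm]; exact hq
    have h1 : (q - p) = s * Complex.exp (Complex.arg (q - p) * Complex.I) := by
      rw [← hq']; exact (Complex.norm_mul_exp_arg_mul_I (q - p)).symm
    have hpi := Real.pi_pos
    have ha1 := Complex.neg_pi_lt_arg (q - p)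
    have ha2 := Complex.arg_le_pi (q - p)
    by_cases h0 : 0 ≤ Complex.arg (q - p)
    · refine ⟨Complex.arg (q - p), ⟨h0, by linarith⟩, ?_⟩
      rw [mul_comm Complex.I]
      linear_combination -h1
    · push Not at h0
      refine ⟨Complex.arg (q - p) + 2 * Real.pi, ⟨by linarith, by linarith⟩, ?_⟩
      have h2 : Complex.exp (Complex.I * ((Complex.arg (q - p) + 2 * Real.pi : ℝ) : ℂ)) =
          Complex.exp (Complex.arg (q - p) * Complex.I) := by
        rw [← Complex.exp_periodic (Complex.arg (q - p) * Complex.I)]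
        congr 1
        push_cast; ring
      rw [h2]
      linear_combination -h1
  obtain ⟨θ0, hθ0, hθq⟩ := hne
  set W0 := (fun θ : ℝ => p + Complex.exp (Complex.I * (θ : ℂ)) * s) ⁻¹' U with hW0
  have hW0o : IsOpen W0 := hU.preimage hc
  have hθW : θ0 ∈ W0 := by
    change p + Complex.exp (Complex.I * (θ0 : ℂ)) * s ∈ U
    rw [hθq]; exact hqU
  have hcl : θ0 ∈ closure (Ioo (0:ℝ) (2 * Real.pi)) := by
    rw [closure_Ioo (by have := Real.pi_pos; positivity)]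
    exact hθ0
  have hne2 : (W0 ∩ Ioo (0:ℝ) (2 * Real.pi)).Nonempty := mem_closure_iff.mp hcl W0 hW0o hθW
  exact ⟨W0 ∩ Ioo (0:ℝ) (2 * Real.pi), hW0o.inter isOpen_Ioo, inter_subset_right,
    (hW0o.inter isOpen_Ioo).measure_pos volume hne2, fun θ hθ => hθ.1⟩

lemma lower_int (p : ℂ) (s : ℝ) (v : ℂ → EReal) (M : ℝ) (c : ℝ≥0∞) (W : Set ℝ) (hW : IsOpen W)
    (hWs : W ⊆ Ioo 0 (2 * Real.pi))
    (h : ∀ θ ∈ W, c ≤ ((M : EReal) - v (p + Complex.exp (Complex.I * (θ : ℂ)) * s)).toENNReal) :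
    c * volume W ≤ ∫⁻ θ in Set.Ioo 0 (2 * Real.pi),
          ((M : EReal) - v (p + Complex.exp (Complex.I * (θ : ℂ)) * s)).toENNReal := by
  calc c * volume W = ∫⁻ θ in W, c := by rw [setLIntegral_const]
    _ ≤ ∫⁻ θ in W, ((M : EReal) - v (p + Complex.exp (Complex.I * (θ : ℂ)) * s)).toENNReal := by
        apply setLIntegral_mono' hW.measurableSet
        exact h
    _ ≤ _ := lintegral_mono_set hWs

lemma usc_open {R : ℝ} {v : ℂ → EReal} (hv : Sub1 R v) (q : ℂ) (hq : q ∈ Metric.ball (0:ℂ) R) (c : EReal)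
    (hc : v q < c) : ∃ U : Set ℂ, IsOpen U ∧ q ∈ U ∧ ∀ z ∈ U, v z < c := by
  have h1 := hv.2.1 q hq c hc
  rw [Metric.isOpen_ball.nhdsWithin_eq hq] at h1
  obtain ⟨U, hU1, hU2, hU3⟩ := mem_nhds_iff.mp h1
  exact ⟨U, hU2, hU3, fun z hz => hU1 hz⟩

lemma two_pi_pos' : ENNReal.ofReal (2 * Real.pi) ≠ 0 := by
  have := Real.pi_pos
  rw [Ne, ENNReal.ofReal_eq_zero]
  push Not
  positivity

lemma lemA {R : ℝ} {v : ℂ → EReal} (hv : Sub1 R v) (p : ℂ) (s : ℝ) (hs : 0 < s)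
    (hball : Metric.closedBall p s ⊆ Metric.ball (0:ℂ) R) (M : ℝ)
    (hM : ∀ q ∈ Metric.sphere p s, v q ≤ (M : EReal)) (q : ℂ) (hq : q ∈ Metric.sphere p s)
    (hqM : v q < M) : v p < M := by
  obtain ⟨c, hc1, hc2⟩ := EReal.lt_iff_exists_real_btwn.mp hqM
  obtain ⟨U, hU1, hU2, hU3⟩ := usc_open hv q (hball (Metric.sphere_subset_closedBall hq)) c hc1
  obtain ⟨W, hW1, hW2, hW3, hW4⟩ := arc_pos p s hs U hU1 q hq hU2
  have hcM : c < M := by exact_mod_cast hc2
  have h1 := lower_int p s v M (ENNReal.ofReal (M - c)) W hW1 hW2 (by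
    intro θ hθ
    have h2 := (hU3 _ (hW4 θ hθ)).le
    have h3 : ((M - c : ℝ) : EReal) ≤ (M : EReal) - v (p + Complex.exp (Complex.I * (θ : ℂ)) * s) := by
      rw [EReal.coe_sub]
      exact EReal.sub_le_sub le_rfl h2
    have h4 := EReal.toENNReal_le_toENNReal h3
    rwa [EReal.real_coe_toENNReal] at h4)
  have h2 := hv.2.2 p s hs hball M hM
  set I := ∫⁻ θ in Set.Ioo 0 (2 * Real.pi),
          ((M : EReal) - v (p + Complex.exp (Complex.I * (θ : ℂ)) * s)).toENNReal with hI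
  have hIpos : 0 < I := by
    refine lt_of_lt_of_le ?_ h1
    exact ENNReal.mul_pos (by rw [Ne, ENNReal.ofReal_eq_zero]; push Not; linarith) hW3.ne'
  have hmean : 0 < I / ENNReal.ofReal (2 * Real.pi) :=
    ENNReal.div_pos hIpos.ne' ENNReal.ofReal_ne_top
  have hmean' : (0 : EReal) < ((I / ENNReal.ofReal (2 * Real.pi) : ℝ≥0∞) : EReal) := by
    exact_mod_cast hmean
  by_contra hcon
  push Not at hcon
  have hvtop : v p ≠ ⊤ := (hv.1 p (hball (Metric.mem_closedBall_self hs.le))).ne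
  have h5 : (M : EReal) < v p + ((I / ENNReal.ofReal (2 * Real.pi) : ℝ≥0∞) : EReal) := by
    have h6 : 0 + (M : EReal) < ((I / ENNReal.ofReal (2 * Real.pi) : ℝ≥0∞) : EReal) + v p :=
      EReal.add_lt_add_of_lt_of_le hmean' hcon (EReal.coe_ne_bot M) hvtop
    rw [zero_add] at h6
    rw [add_comm]
    exact h6
  exact absurd h2 (not_le.mpr h5)

lemma lemB {R : ℝ} {v : ℂ → EReal} (hv : Sub1 R v) (p : ℂ) (s : ℝ) (hs : 0 < s)
    (hball : Metric.closedBall p s ⊆ Metric.ball (0:ℂ) R)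
    (U : Set ℂ) (hU : IsOpen U) (hUv : ∀ z ∈ U, v z = ⊥)
    (q : ℂ) (hq : q ∈ Metric.sphere p s) (hqU : q ∈ U) : v p = ⊥ := by
  obtain ⟨m, hm, hmax⟩ := UpperSemicontinuousOn.exists_isMaxOn (s := Metric.closedBall p s)
    ⟨p, Metric.mem_closedBall_self hs.le⟩ (isCompact_closedBall p s) (hv.2.1.mono hball)
  have hmtop := hv.1 m (hball hm)
  obtain ⟨M, hM1, hM2⟩ := EReal.lt_iff_exists_real_btwn.mp hmtop
  have hM : ∀ q ∈ Metric.sphere p s, v q ≤ (M : EReal) := fun q hq =>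
    (hmax (Metric.sphere_subset_closedBall hq)).trans hM1.le
  obtain ⟨W, hW1, hW2, hW3, hW4⟩ := arc_pos p s hs U hU q hq hqU
  have h1 := lower_int p s v M ⊤ W hW1 hW2 (by
    intro θ hθ
    rw [hUv _ (hW4 θ hθ)]
    simp)
  have h2 := hv.2.2 p s hs hball M hM
  rw [ENNReal.top_mul hW3.ne', top_le_iff] at h1
  rw [h1, ENNReal.top_div_of_ne_top ENNReal.ofReal_ne_top] at h2
  by_contra hcon
  rw [EReal.coe_ennreal_top, EReal.add_top_of_ne_bot hcon] at h2
  simp at h2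

lemma max_disc {R : ℝ} {v : ℂ → EReal} (hv : Sub1 R v) (r : ℝ) (hr : 0 < r) (hrR : r < R)
    (hbd : ∀ z, ‖z‖ = r → v z = ⊥) : ∀ z, ‖z‖ ≤ r → v z = ⊥ := by
  have hsub : Metric.closedBall (0:ℂ) r ⊆ Metric.ball (0:ℂ) R := Metric.closedBall_subset_ball hrR
  have husc := hv.2.1.mono hsub
  obtain ⟨p0, hp0, hmax⟩ := UpperSemicontinuousOn.exists_isMaxOn (s := Metric.closedBall (0:ℂ) r)
    ⟨0, Metric.mem_closedBall_self hr.le⟩ (isCompact_closedBall 0 r) husc
  have hall : ∀ z, ‖z‖ ≤ r → v z ≤ v p0 := fun z hz => hmax (by simpa using hz)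
  by_cases hm : v p0 = ⊥
  · intro z hz
    have := hall z hz
    rw [hm] at this
    exact le_bot_iff.mp this
  exfalso
  have hmt := (hv.1 p0 (hsub hp0)).ne
  obtain ⟨m, hmm⟩ : ∃ m : ℝ, v p0 = (m : EReal) := ⟨(v p0).toReal, (EReal.coe_toReal hmt hm).symm⟩
  rw [hmm] at hall
  have hScomp : IsCompact (Metric.closedBall (0:ℂ) r ∩ v ⁻¹' Ici (m : EReal)) :=
    husc.isCompact_inter_preimage_Ici (isCompact_closedBall 0 r) _
  obtain ⟨p, hp, hpmax⟩ := hScomp.exists_isMaxOn ⟨p0, hp0, by simp [hmm]⟩ continuous_norm.continuousOn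
  have hpr : ‖p‖ ≤ r := by simpa using hp.1
  have hpv : (m : EReal) ≤ v p := hp.2
  have hpr' : ‖p‖ < r := by
    rcases hpr.lt_or_eq with h | h
    · exact h
    · rw [hbd p h] at hpv; simp at hpv
  set s := (r - ‖p‖) / 2 with hs
  have hs0 : 0 < s := by rw [hs]; linarith
  have hin : Metric.closedBall p s ⊆ Metric.closedBall (0:ℂ) r := by
    apply Metric.closedBall_subset_closedBall'
    rw [dist_zero_right, hs]; linarith
  obtain ⟨q, hq1, hq2⟩ : ∃ q, q ∈ Metric.sphere p s ∧ ‖p‖ < ‖q‖ := by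
    by_cases h0 : p = 0
    · refine ⟨s, ?_, ?_⟩
      · rw [h0]; simp [abs_of_pos hs0]
      · rw [h0]; simp [hs0.ne']
    · have hpp : 0 < ‖p‖ := norm_pos_iff.mpr h0
      refine ⟨p + ((s / ‖p‖ : ℝ) : ℂ) * p, ?_, ?_⟩
      · rw [mem_sphere_iff_norm, add_sub_cancel_left, norm_mul, Complex.norm_real, Real.norm_eq_abs,
          abs_of_pos (by positivity)]
        field_simp
      · have : p + ((s / ‖p‖ : ℝ) : ℂ) * p = ((1 + s / ‖p‖ : ℝ) : ℂ) * p := by push_cast; ring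
        rw [this, norm_mul, Complex.norm_real, Real.norm_eq_abs, abs_of_pos (by positivity)]
        have : 0 < s / ‖p‖ := by positivity
        nlinarith
  have hqin : q ∈ Metric.closedBall (0:ℂ) r := hin (Metric.sphere_subset_closedBall hq1)
  have hqm : v q < m := by
    by_contra hcon
    push Not at hcon
    have := hpmax ⟨hqin, hcon⟩
    simp only [Set.mem_ofPred_eq] at this
    linarith
  have := lemA hv p s hs0 (hin.trans hsub) m (fun w hw => hall w (by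
    simpa using hin (Metric.sphere_subset_closedBall hw))) q hq1 hqm
  exact absurd hpv (not_le.mpr this)

lemma grow {R : ℝ} {v : ℂ → EReal} (hv : Sub1 R v) (r : ℝ) (hr : 0 < r) (_hrR : r < R)
    (h : ∀ z, ‖z‖ < r → v z = ⊥) : ∀ z, ‖z‖ < (R + r) / 2 → v z = ⊥ := by
  intro z hz
  by_cases hzr : ‖z‖ < r
  · exact h z hzr
  push Not at hzr
  set δ := min r ((R - 2 * ‖z‖ + r) / 2) with hδ
  have hδ0 : 0 < δ := lt_min hr (by linarith)
  have hδ1 : δ ≤ r := min_le_left _ _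
  have hδ2 : δ ≤ (R - 2 * ‖z‖ + r) / 2 := min_le_right _ _
  set s := ‖z‖ - r + δ with hs
  have hs0 : 0 < s := by rw [hs]; linarith
  have hz0 : 0 < ‖z‖ := by linarith
  apply lemB hv z s hs0 _ (Metric.ball (0:ℂ) r) Metric.isOpen_ball
    (fun w hw => h w (by simpa using hw)) (z - ((s / ‖z‖ : ℝ) : ℂ) * z)
  · rw [mem_sphere_iff_norm, sub_sub_cancel_left, norm_neg, norm_mul, Complex.norm_real,
      Real.norm_eq_abs, abs_of_pos (by positivity)]
    field_simp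
  · rw [mem_ball_zero_iff]
    have : z - ((s / ‖z‖ : ℝ) : ℂ) * z = ((1 - s / ‖z‖ : ℝ) : ℂ) * z := by push_cast; ring
    rw [this, norm_mul, Complex.norm_real, Real.norm_eq_abs]
    have h1 : |1 - s / ‖z‖| * ‖z‖ = |‖z‖ - s| := by
      have e : ‖z‖ - s = (1 - s / ‖z‖) * ‖z‖ := by field_simp
      rw [e, abs_mul, abs_of_pos hz0]
    rw [h1, abs_lt]
    constructor <;> linarith
  · intro w hw
    rw [Metric.mem_closedBall, dist_eq_norm] at hw
    rw [mem_ball_zero_iff]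
    have : ‖w‖ ≤ ‖w - z‖ + ‖z‖ := by
      calc ‖w‖ = ‖(w - z) + z‖ := by ring_nf
        _ ≤ _ := norm_add_le _ _
    linarith

lemma all_bot {R : ℝ} {v : ℂ → EReal} (hv : Sub1 R v) (r : ℝ) (hr : 0 < r) (hrR : r < R)
    (hbd : ∀ z, ‖z‖ = r → v z = ⊥) : ∀ z, ‖z‖ < R → v z = ⊥ := by
  have h0 := max_disc hv r hr hrR hbd
  have h1 : ∀ k : ℕ, ∀ z, ‖z‖ < R - (R - r) * (1/2)^k → v z = ⊥ := by
    intro k
    induction k with
    | zero =>
      intro z hz
      apply h0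
      rw [pow_zero, mul_one] at hz
      linarith
    | succ k ih =>
      have hk : (0:ℝ) < (1/2)^k := by positivity
      have hk1 : (1/2:ℝ)^k ≤ 1 := pow_le_one₀ (by norm_num) (by norm_num)
      have h2 := grow hv (R - (R - r) * (1/2)^k) (by nlinarith) (by nlinarith) ih
      intro z hz
      apply h2
      rw [pow_succ] at hz
      linarith
  intro z hz
  obtain ⟨k, hk⟩ := exists_pow_lt_of_lt_one (show 0 < (R - ‖z‖) / (R - r) by
    apply div_pos <;> linarith) (show (1/2:ℝ) < 1 by norm_num)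
  apply h1 k z
  rw [lt_div_iff₀ (by linarith)] at hk
  linarith

end Pool.Agent.H7.Psh
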