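import Mathlib
import Pool.Agent.H7.PshDefs
import Pool.Agent.H7.PshOne

set_option autoImplicit false

namespace Pool.Agent.H7.Psh

open scoped ENNReal
open Set Filter Topology MeasureTheory

variable {n : ℕ}

lemma slice {D : Set (Cn n)} {u : Cn n → EReal} (hu : IsPsh D u) (z0 e : Cn n) (he : ‖e‖ = 1) (R : ℝ)
    (hR : Metric.ball z0 R ⊆ D) : Sub1 R (fun ζ : ℂ => u (z0 + ζ • e)) := by
  have hmem : ∀ ζ ∈ Metric.ball (0:ℂ) R, z0 + ζ • e ∈ D := by
    intro ζ hζ
    apply hR
    rw [Metric.mem_ball, dist_eq_norm, add_sub_cancel_left, norm_smul, he, mul_one]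
    simpa using hζ
  refine ⟨fun ζ hζ => hu.1 _ (hmem ζ hζ), ?_, ?_⟩
  · intro ζ hζ c hc
    have h1 := hu.2.1 _ (hmem ζ hζ) c hc
    have h2 : Tendsto (fun ζ : ℂ => z0 + ζ • e) (𝓝[Metric.ball (0:ℂ) R] ζ) (𝓝[D] (z0 + ζ • e)) := by
      apply tendsto_nhdsWithin_of_tendsto_nhds_of_eventually_within
      · have hcont : Continuous (fun ζ : ℂ => z0 + ζ • e) := by fun_prop
        exact hcont.continuousAt.continuousWithinAt
      · exact eventually_nhdsWithin_of_forall hmem
    exact h2.eventually h1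
  · intro p s hs hball M hM
    have h3 : ∀ ζ : ℂ, (z0 + p • e) + ζ • ((s : ℂ) • e) = z0 + (p + ζ * s) • e := by
      intro ζ
      rw [smul_smul, add_assoc, ← add_smul]
    have h1 := hu.2.2 (z0 + p • e) ((s : ℂ) • e) (by
      intro ζ hζ
      rw [h3]
      apply hmem
      apply hball
      rw [mem_closedBall_iff_norm, add_sub_cancel_left, norm_mul, Complex.norm_real,
        Real.norm_eq_abs, abs_of_pos hs]
      nlinarith [norm_nonneg ζ]) M (by
      intro ζ hζ
      rw [h3]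
      apply hM
      rw [mem_sphere_iff_norm, add_sub_cancel_left, norm_mul, Complex.norm_real,
        Real.norm_eq_abs, abs_of_pos hs, hζ, one_mul])
    simp only [h3] at h1
    exact h1

lemma ball_bot (hn : 0 < n) {D : Set (Cn n)} {u : Cn n → EReal} (hu : IsPsh D u) (z0 : Cn n) (R r : ℝ)
    (hR : Metric.ball z0 R ⊆ D) (hr : 0 < r) (hrR : r < R) (hbd : ∀ z ∈ Metric.sphere z0 r, u z = ⊥) :
    ∀ z ∈ Metric.ball z0 R, u z = ⊥ := by
  have key : ∀ e : Cn n, ‖e‖ = 1 → ∀ ζ : ℂ, ‖ζ‖ < R → u (z0 + ζ • e) = ⊥ := by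
    intro e he
    apply all_bot (slice hu z0 e he R hR) r hr hrR
    intro ζ hζ
    apply hbd
    rw [mem_sphere_iff_norm, add_sub_cancel_left, norm_smul, he, mul_one, hζ]
  intro z hz
  by_cases h0 : z = z0
  · have h1 : ‖(EuclideanSpace.single (⟨0, hn⟩ : Fin n) (1:ℂ) : Cn n)‖ = 1 := by simp
    have h2 := key _ h1 0 (by simp; linarith)
    rw [zero_smul, add_zero] at h2
    rw [h0]; exact h2
  · have hne : ‖z - z0‖ ≠ 0 := norm_ne_zero_iff.mpr (sub_ne_zero.mpr h0)
    have h1 : ‖((‖z - z0‖⁻¹ : ℝ) : ℂ) • (z - z0)‖ = 1 := by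
      rw [norm_smul, Complex.norm_real, Real.norm_eq_abs, abs_of_nonneg (by positivity)]
      exact inv_mul_cancel₀ hne
    have h2 := key _ h1 ((‖z - z0‖ : ℝ) : ℂ) (by
      rw [Complex.norm_real, Real.norm_eq_abs, abs_of_nonneg (norm_nonneg _)]
      exact mem_ball_iff_norm.mp hz)
    rw [smul_smul, ← Complex.ofReal_mul, mul_inv_cancel₀ hne, Complex.ofReal_one, one_smul,
      add_sub_cancel] at h2
    exact h2

lemma conn_bot (hn : 0 < n) {D : Set (Cn n)} (hD : IsOpen D) (hDc : IsPreconnected D)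
    {u : Cn n → EReal} (hu : IsPsh D u) (z0 : Cn n) (R r : ℝ)
    (hR : Metric.ball z0 R ⊆ D) (hr : 0 < r) (hrR : r < R) (hbd : ∀ z ∈ Metric.sphere z0 r, u z = ⊥) :
    ∀ z ∈ D, u z = ⊥ := by
  have h1 := ball_bot hn hu z0 R r hR hr hrR hbd
  have h2 : D ⊆ interior {z | u z = ⊥} := by
    apply hDc.subset_of_closure_inter_subset isOpen_interior
    · refine ⟨z0, hR (Metric.mem_ball_self (by linarith)), ?_⟩
      rw [mem_interior]
      exact ⟨Metric.ball z0 R, h1, Metric.isOpen_ball, Metric.mem_ball_self (by linarith)⟩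
    · rintro z ⟨hz1, hz2⟩
      obtain ⟨t, ht, htD⟩ := Metric.isOpen_iff.mp hD z hz2
      obtain ⟨w, hw1, hw2⟩ := Metric.mem_closure_iff.mp hz1 (t/2) (by positivity)
      obtain ⟨ε, hε, hεw⟩ := Metric.isOpen_iff.mp isOpen_interior w hw1
      have hr1 : 0 < min (ε/2) (t/4) := lt_min (by positivity) (by positivity)
      have h3 : ∀ y ∈ Metric.ball w (t/2), u y = ⊥ := by
        apply ball_bot hn hu w (t/2) (min (ε/2) (t/4)) _ hr1
        · have := min_le_right (ε/2) (t/4); linarith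
        · intro y hy
          have h4 : y ∈ Metric.ball w ε := by
            rw [Metric.mem_ball, Metric.mem_sphere.mp hy]
            have := min_le_left (ε/2) (t/4); linarith
          have h5 : y ∈ {z | u z = ⊥} := interior_subset (hεw h4)
          exact h5
        · refine (Metric.ball_subset_ball' ?_).trans htD
          rw [dist_comm]; linarith
      rw [mem_interior]
      exact ⟨Metric.ball w (t/2), h3, Metric.isOpen_ball, hw2⟩
  intro z hz
  have h3 : z ∈ {z | u z = ⊥} := interior_subset (h2 hz)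
  exact h3

lemma norm_circle (A b : Cn n) (θ : ℝ) :
    ‖A + Complex.exp (Complex.I * (θ : ℂ)) • b‖^2 = ‖A‖^2 + ‖b‖^2 +
      2 * (Real.cos θ * (inner ℂ A b).re - Real.sin θ * (inner ℂ A b).im) := by
  have h1 := norm_add_sq (𝕜 := ℂ) A (Complex.exp (Complex.I * (θ : ℂ)) • b)
  rw [h1, inner_smul_right, norm_smul, Complex.norm_exp_I_mul_ofReal, one_mul]
  have h2 : Complex.exp (Complex.I * (θ : ℂ)) = ⟨Real.cos θ, Real.sin θ⟩ := by
    rw [mul_comm, Complex.exp_mul_I]
    apply Complex.ext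
    · simp [← Complex.ofReal_cos, ← Complex.ofReal_sin]
    · simp [← Complex.ofReal_cos, ← Complex.ofReal_sin]
  rw [h2]
  simp only [RCLike.re_to_complex, Complex.mul_re]
  ring

lemma int_trig (c α β : ℝ) : ∫ θ in Ioo 0 (2 * Real.pi), (c - (α * Real.cos θ - β * Real.sin θ)) =
    2 * Real.pi * c := by
  rw [← integral_Ioc_eq_integral_Ioo, ← intervalIntegral.integral_of_le (by have := Real.pi_pos; positivity)]
  rw [intervalIntegral.integral_sub, intervalIntegral.integral_sub, intervalIntegral.integral_const_mul,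
    intervalIntegral.integral_const_mul, integral_cos, integral_sin, intervalIntegral.integral_const]
  · simp
  · exact (Continuous.intervalIntegrable (by fun_prop) _ _)
  · exact (Continuous.intervalIntegrable (by fun_prop) _ _)
  · exact (Continuous.intervalIntegrable (by fun_prop) _ _)
  · exact (Continuous.intervalIntegrable (by fun_prop) _ _)

lemma psh_real (D : Set (Cn n)) (z0 : Cn n) (φ : Cn n → ℝ) (hc : Continuous φ)
    (h : ∀ a : Cn n, ∃ κ : ℝ, 0 ≤ κ ∧ ∀ w, φ a + κ * (‖w - z0‖^2 - ‖a - z0‖^2) ≤ φ w) :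
    IsPsh D (fun z => (φ z : EReal)) := by
  refine ⟨fun z _ => EReal.coe_lt_top _, ?_, ?_⟩
  · exact (continuous_coe_real_ereal.comp hc).continuousOn.upperSemicontinuousOn
  · intro a b _ M hM
    obtain ⟨κ, hκ, hφ⟩ := h a
    set w := inner ℂ (a - z0) b with hw
    set c := M - φ a - κ * ‖b‖^2 with hcdef
    set g : ℝ → ℝ := fun θ => c - ((2 * κ * w.re) * Real.cos θ - (2 * κ * w.im) * Real.sin θ) with hg
    have hgφ : ∀ θ : ℝ, M - φ (a + Complex.exp (Complex.I * (θ : ℂ)) • b) ≤ g θ := by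
      intro θ
      have h1 := hφ (a + Complex.exp (Complex.I * (θ : ℂ)) • b)
      have h2 : a + Complex.exp (Complex.I * (θ : ℂ)) • b - z0 =
        (a - z0) + Complex.exp (Complex.I * (θ : ℂ)) • b := by abel
      rw [h2, norm_circle] at h1
      simp only [hg, hcdef]
      rw [← hw] at h1
      linarith
    have hg0 : ∀ θ, 0 ≤ g θ := by
      intro θ
      have h1 := hM (Complex.exp (Complex.I * (θ : ℂ))) (Complex.norm_exp_I_mul_ofReal _)
      have h2 : φ (a + Complex.exp (Complex.I * (θ : ℂ)) • b) ≤ M := EReal.coe_le_coe_iff.mp h1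
      linarith [hgφ θ]
    have hint : ∫ θ in Ioo 0 (2 * Real.pi), g θ = 2 * Real.pi * c := int_trig _ _ _
    have hpi : 0 < 2 * Real.pi := by have := Real.pi_pos; positivity
    have hc0 : 0 ≤ c := by
      have h3 : 0 ≤ ∫ θ in Ioo 0 (2 * Real.pi), g θ := integral_nonneg hg0
      rw [hint] at h3
      exact nonneg_of_mul_nonneg_right h3 hpi
    have h4 : ∫⁻ θ in Set.Ioo 0 (2 * Real.pi),
          ((M : EReal) - (φ (a + Complex.exp (Complex.I * (θ : ℂ)) • b) : EReal)).toENNReal ≤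
        ENNReal.ofReal (2 * Real.pi * c) := by
      rw [← hint, ofReal_integral_eq_lintegral_ofReal]
      · apply lintegral_mono
        intro θ
        simp only
        rw [← EReal.coe_sub, EReal.real_coe_toENNReal]
        exact ENNReal.ofReal_le_ofReal (hgφ θ)
      · have : Continuous g := by fun_prop
        exact (this.integrableOn_Icc).mono_set Ioo_subset_Icc_self
      · exact Eventually.of_forall hg0
    have h5 : (∫⁻ θ in Set.Ioo 0 (2 * Real.pi),
          ((M : EReal) - (φ (a + Complex.exp (Complex.I * (θ : ℂ)) • b) : EReal)).toENNReal) /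
            ENNReal.ofReal (2 * Real.pi) ≤ ENNReal.ofReal (M - φ a) := by
      refine ENNReal.div_le_of_le_mul ?_
      refine h4.trans ?_
      rw [← ENNReal.ofReal_mul (by nlinarith [sq_nonneg ‖b‖, mul_nonneg hκ (sq_nonneg ‖b‖)])]
      apply ENNReal.ofReal_le_ofReal
      have : 0 ≤ κ * ‖b‖^2 := by positivity
      nlinarith
    have h6 : (((∫⁻ θ in Set.Ioo 0 (2 * Real.pi),
          ((M : EReal) - (φ (a + Complex.exp (Complex.I * (θ : ℂ)) • b) : EReal)).toENNReal) /
            ENNReal.ofReal (2 * Real.pi) : ℝ≥0∞) : EReal) ≤ ((M - φ a : ℝ) : EReal) := by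
      refine (EReal.coe_ennreal_le_coe_ennreal_iff.mpr h5).trans ?_
      rw [EReal.coe_ennreal_ofReal, max_eq_left]
      have : 0 ≤ κ * ‖b‖^2 := by positivity
      linarith
    refine (add_le_add_right h6 _).trans ?_
    rw [← EReal.coe_add]
    apply le_of_eq
    congr 1
    ring

lemma phi_psh (D : Set (Cn n)) (z0 : Cn n) (r : ℝ) :
    IsPsh D (fun z => ((max (‖z - z0‖^2) (r^2) : ℝ) : EReal)) := by
  apply psh_real D z0 (fun z => max (‖z - z0‖^2) (r^2)) (by fun_prop)
  intro a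
  by_cases h : r^2 ≤ ‖a - z0‖^2
  · refine ⟨1, by norm_num, fun w => ?_⟩
    rw [max_eq_left h]
    refine le_trans ?_ (le_max_left _ _)
    linarith
  · push Not at h
    refine ⟨0, le_refl _, fun w => ?_⟩
    rw [max_eq_right h.le, zero_mul, add_zero]
    exact le_max_right _ _

lemma sphere_exc (Ω : Set (Cn n)) (z0 : Cn n) (r : ℝ) (hr : 0 < r) (z : Cn n)
    (hz : z ∈ Metric.sphere z0 r) (hzΩ : z ∈ Ω) :
    z ∈ Exc Ω (fun z => max (‖z - z0‖^2) (r^2)) := by
  refine ⟨hzΩ, ?_⟩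
  rintro ⟨q, V, hV, hzV, -, hq, hle⟩
  have hzr : ‖z - z0‖ = r := mem_sphere_iff_norm.mp hz
  set γ : ℝ → Cn n := fun t => z + t • (z - z0) with hγ
  have hγ0 : γ 0 = z := by simp [hγ]
  have hγd : DifferentiableAt ℝ γ 0 := by
    simp only [hγ]; fun_prop
  have hqd : DifferentiableAt ℝ q (γ 0) := by
    rw [hγ0]
    exact (hq.contDiffAt (hV.mem_nhds hzV)).differentiableAt (by norm_num)
  set f : ℝ → ℝ := fun t => q (γ t) with hf
  have hfd : DifferentiableAt ℝ f 0 := hqd.comp (0:ℝ) hγd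
  have hfd' := hfd.hasDerivAt
  have hnorm : ∀ t : ℝ, ‖γ t - z0‖^2 = (1 + t)^2 * r^2 := by
    intro t
    have : γ t - z0 = (1 + t) • (z - z0) := by simp only [hγ]; rw [add_smul, one_smul]; abel
    rw [this, norm_smul, hzr, mul_pow, Real.norm_eq_abs, sq_abs]
  have hev : ∀ᶠ t in 𝓝 (0:ℝ), γ t ∈ V := by
    apply hγd.continuousAt.eventually
    rw [hγ0]
    exact hV.mem_nhds hzV
  have hineq : ∀ᶠ t in 𝓝 (0:ℝ), max ((1+t)^2 * r^2) (r^2) - r^2 ≤ f t - f 0 := by
    filter_upwards [hev] with t ht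
    have h1 := hle _ ht
    simp only [hnorm, hzr, max_self] at h1
    have h2 : f 0 = q z := by simp only [hf]; rw [hγ0]
    rw [h2]
    linarith
  have hr2 : 0 < r^2 := by positivity
  have hmin1 : IsLocalMin f 0 := by
    filter_upwards [hineq] with t ht
    have := le_max_right ((1+t)^2 * r^2) (r^2)
    linarith
  have hmin2 : IsLocalMin (fun t => f t - 2 * r^2 * t) 0 := by
    filter_upwards [hineq] with t ht
    simp only [mul_zero, sub_zero]
    rcases le_or_gt 0 t with h0 | h0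
    · have h1 := le_max_left ((1+t)^2 * r^2) (r^2)
      nlinarith [mul_nonneg (sq_nonneg t) hr2.le]
    · have h1 := le_max_right ((1+t)^2 * r^2) (r^2)
      nlinarith
  have e1 := hmin1.hasDerivAt_eq_zero hfd'
  have hd2 : HasDerivAt (fun t => f t - 2 * r^2 * t) (deriv f 0 - 2 * r^2 * 1) 0 :=
    hfd'.sub ((hasDerivAt_id (0:ℝ)).const_mul (2 * r^2))
  have e2 := hmin2.hasDerivAt_eq_zero hd2
  rw [e1] at e2
  linarith

theorem main (n : ℕ) (hn : 0 < n) (Ω : Set (Cn n)) (hΩo : IsOpen Ω) (hΩc : IsConnected Ω) :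
    ∃ φ : Cn n → ℝ, Continuous φ ∧ IsPsh Ω (fun z => (φ z : EReal)) ∧
      ∀ D : Set (Cn n), IsOpen D → IsConnected D → Ω ⊆ D → ¬ IsPluripolarIn D (Exc Ω φ) := by
  obtain ⟨z0, hz0⟩ := hΩc.nonempty
  obtain ⟨R, hR, hRΩ⟩ := Metric.isOpen_iff.mp hΩo z0 hz0
  refine ⟨fun z => max (‖z - z0‖^2) ((R/2)^2), by fun_prop, phi_psh Ω z0 (R/2), ?_⟩
  rintro D hDo hDc hΩD ⟨u, hu, ⟨y, hyD, hy⟩, hbot⟩
  apply hy
  apply conn_bot hn hDo hDc.isPreconnected hu z0 R (R/2) (hRΩ.trans hΩD) (by positivity)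
    (by linarith) _ y hyD
  intro z hz
  apply hbot
  apply sphere_exc Ω z0 (R/2) (by positivity) z hz
  apply hRΩ
  rw [Metric.mem_ball, Metric.mem_sphere.mp hz]
  linarith

end Pool.Agent.H7.Psh
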