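import Mathlib

set_option autoImplicit false

namespace Pool.Agent.H7.QRCP

open Matrix Finset
open scoped MatrixOrder

/-- Kahan matrix entries. -/
noncomputable def K (c s : ℝ) (i l : ℕ) : ℝ :=
  if i = l then s ^ i else if i < l then -(c * s ^ i) else 0

lemma K_diag (c s : ℝ) (i : ℕ) : K c s i i = s ^ i := by simp [K]

lemma K_lt (c s : ℝ) {i l : ℕ} (h : i < l) : K c s i l = -(c * s ^ i) := by
  simp [K, h, h.ne]

lemma K_gt (c s : ℝ) {i l : ℕ} (h : l < i) : K c s i l = 0 := by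
  simp [K, h.ne', h.le]

lemma tail_sum {c s : ℝ} (hcs : c ^ 2 + s ^ 2 = 1) {j l : ℕ} (hjl : j ≤ l) :
    ∑ i ∈ Ico j (l + 1), K c s i l ^ 2 = s ^ (2 * j) := by
  have h1 : ∀ n, j ≤ n → n ≤ l → ∑ i ∈ Ico j n, K c s i l ^ 2 = s ^ (2 * j) - s ^ (2 * n) := by
    intro n hn
    induction n, hn using Nat.le_induction with
    | base => intro _; simp
    | succ n hn ih =>
      intro hnl
      rw [Finset.sum_Ico_succ_top hn, ih (by omega), K_lt c s (by omega : n < l)]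
      have : c ^ 2 = 1 - s ^ 2 := by linarith
      have h2 : (-(c * s ^ n)) ^ 2 = c ^ 2 * s ^ (2 * n) := by ring
      rw [h2, this]
      ring
  rw [Finset.sum_Ico_succ_top hjl, h1 l hjl le_rfl, K_diag]
  ring

lemma tail_sum_fin {c s : ℝ} (hcs : c ^ 2 + s ^ 2 = 1) {k : ℕ} (j l : Fin k) (hjl : j ≤ l) :
    ∑ i : Fin k, (if j ≤ i then K c s i l ^ 2 else 0) = s ^ (2 * (j : ℕ)) := by
  rw [← tail_sum hcs (show (j : ℕ) ≤ l from hjl)]
  have h1 : ∑ i : Fin k, (if j ≤ i then K c s i l ^ 2 else 0) =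
      ∑ i ∈ range k, (if (j : ℕ) ≤ i then K c s i l ^ 2 else 0) := by
    rw [Finset.sum_range]
    rfl
  rw [h1, ← Finset.sum_filter]
  symm
  apply Finset.sum_subset
  · intro i hi
    simp only [Finset.mem_Ico, Finset.mem_filter, Finset.mem_range] at hi ⊢
    exact ⟨lt_of_lt_of_le hi.2 l.isLt, hi.1⟩
  · intro i hi hi'
    simp only [Finset.mem_Ico, Finset.mem_filter, Finset.mem_range] at hi hi'
    have : (l : ℕ) < i := by omega
    rw [K_gt c s this]
    norm_num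

lemma col_sum_fin {c s : ℝ} (hcs : c ^ 2 + s ^ 2 = 1) {k : ℕ} (l : Fin k) :
    ∑ i : Fin k, K c s i l ^ 2 = 1 := by
  have hk : 0 < k := lt_of_le_of_lt (Nat.zero_le _) l.isLt
  have h := tail_sum_fin hcs (⟨0, hk⟩ : Fin k) l (Nat.zero_le _)
  rw [mul_zero, pow_zero] at h
  rw [← h]
  apply Finset.sum_congr rfl
  intro i _
  rw [if_pos (show (⟨0, hk⟩ : Fin k) ≤ i from Nat.zero_le _)]

noncomputable def KM (c s : ℝ) (k : ℕ) : Matrix (Fin k) (Fin k) ℝ :=
  Matrix.of fun i l => K c s i l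

lemma psd {c s : ℝ} (hcs : c ^ 2 + s ^ 2 = 1) (k : ℕ) {ρ : ℝ} (hρ : ρ ^ 2 * k ≤ 1) :
    (1 - ρ ^ 2 • (KM c s k * (KM c s k)ᵀ)).PosSemidef := by
  apply PosSemidef.of_dotProduct_mulVec_nonneg
  · have h1 : (KM c s k * (KM c s k)ᵀ).IsHermitian := by
      have := isHermitian_mul_conjTranspose_self (KM c s k)
      rwa [conjTranspose_eq_transpose_of_trivial] at this
    have h2 : (ρ ^ 2 • (KM c s k * (KM c s k)ᵀ)).IsHermitian := by
      unfold Matrix.IsHermitian at h1 ⊢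
      rw [conjTranspose_smul, h1]
      simp
    exact isHermitian_one.sub h2
  · intro x
    have hx : star x = x := by ext i; simp
    rw [hx, sub_mulVec, dotProduct_sub, one_mulVec, smul_mulVec, dotProduct_smul, smul_eq_mul]
    have h1 : x ⬝ᵥ ((KM c s k * (KM c s k)ᵀ) *ᵥ x) = ∑ l : Fin k, (∑ i : Fin k, K c s i l * x i) ^ 2 := by
      rw [← mulVec_mulVec, dotProduct_mulVec, ← mulVec_transpose]
      simp only [dotProduct, mulVec, transpose_apply, KM, of_apply]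
      apply Finset.sum_congr rfl
      intro l _
      ring
    have h2 : ∀ l : Fin k, (∑ i : Fin k, K c s i l * x i) ^ 2 ≤ ∑ i, x i ^ 2 := by
      intro l
      have := Finset.sum_mul_sq_le_sq_mul_sq Finset.univ (fun i : Fin k => K c s i l) x
      rwa [col_sum_fin hcs, one_mul] at this
    have h3 : x ⬝ᵥ x = ∑ i, x i ^ 2 := by
      simp [dotProduct, sq]
    rw [h1, h3]
    have h4 : ∑ l : Fin k, (∑ i : Fin k, K c s i l * x i) ^ 2 ≤ k * ∑ i, x i ^ 2 := by
      calc _ ≤ ∑ l : Fin k, ∑ i, x i ^ 2 := Finset.sum_le_sum fun l _ => h2 l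
        _ = _ := by simp
    have h5 : 0 ≤ ∑ i, x i ^ 2 := Finset.sum_nonneg fun i _ => sq_nonneg _
    have h6 : ρ ^ 2 * ∑ l : Fin k, (∑ i : Fin k, K c s i l * x i) ^ 2 ≤
        ρ ^ 2 * (k * ∑ i, x i ^ 2) := mul_le_mul_of_nonneg_left h4 (sq_nonneg _)
    have h7 : ρ ^ 2 * (k * ∑ i, x i ^ 2) ≤ ∑ i, x i ^ 2 := by
      rw [← mul_assoc]
      exact mul_le_of_le_one_left h5 hρ
    linarith

lemma exists_B {c s : ℝ} (hcs : c ^ 2 + s ^ 2 = 1) (k : ℕ) {ρ : ℝ} (hρ : ρ ^ 2 * k ≤ 1) :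
    ∃ B : Matrix (Fin k) (Fin k) ℝ, (∀ a b : Fin k, ρ ^ 2 * ∑ l : Fin k, K c s a l * K c s b l +
      ∑ l, B l a * B l b = if a = b then 1 else 0) ∧ ∀ l, ∑ a, B l a ^ 2 ≤ k := by
  obtain ⟨B, hB⟩ := CStarAlgebra.nonneg_iff_eq_star_mul_self.mp (psd hcs k hρ).nonneg
  have hent : ∀ a b : Fin k, ρ ^ 2 * ∑ l : Fin k, K c s a l * K c s b l +
      ∑ l, B l a * B l b = if a = b then 1 else 0 := by
    intro a b
    have h := congrFun (congrFun hB a) b
    simp only [Matrix.sub_apply, Matrix.smul_apply, mul_apply, star_apply, transpose_apply, KM, of_apply,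
      star_trivial, smul_eq_mul, one_apply] at h
    linarith
  refine ⟨B, hent, ?_⟩
  intro l
  have h1 : ∑ a, B l a ^ 2 ≤ ∑ l', ∑ a, B l' a ^ 2 :=
    Finset.single_le_sum (f := fun l' => ∑ a, B l' a ^ 2)
      (fun l' _ => Finset.sum_nonneg fun a _ => sq_nonneg _) (Finset.mem_univ l)
  have h2 : ∑ l', ∑ a, B l' a ^ 2 ≤ k := by
    rw [Finset.sum_comm]
    have h3 : ∀ a : Fin k, ∑ l', B l' a ^ 2 ≤ 1 := by
      intro a
      have h := hent a a
      simp only [if_true] at h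
      have h4 : 0 ≤ ρ ^ 2 * ∑ l : Fin k, K c s a l * K c s a l :=
        mul_nonneg (sq_nonneg _) (Finset.sum_nonneg fun l _ => mul_self_nonneg _)
      have h5 : ∑ l', B l' a ^ 2 = ∑ l, B l a * B l a := by
        apply Finset.sum_congr rfl; intro l _; ring
      rw [h5]
      linarith
    calc _ ≤ ∑ a : Fin k, (1 : ℝ) := Finset.sum_le_sum fun a _ => h3 a
      _ = k := by simp
  exact h1.trans h2

/-- The matrix with orthonormal columns. -/
noncomputable def QQ {k : ℕ} (m : ℕ) (c s ρ : ℝ) (B : Matrix (Fin k) (Fin k) ℝ) :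
    Matrix (Fin (k + m * k)) (Fin k) ℝ :=
  Matrix.of fun r a => Fin.addCases (fun l : Fin k => ρ * K c s a l)
    (fun t : Fin (m * k) => B (finProdFinEquiv.symm t).2 a / Real.sqrt m) r

lemma QQ_left {k : ℕ} (m : ℕ) (c s ρ : ℝ) (B : Matrix (Fin k) (Fin k) ℝ) (l a : Fin k) :
    QQ m c s ρ B (Fin.castAdd (m * k) l) a = ρ * K c s a l := by
  simp [QQ]

lemma QQ_right {k : ℕ} (m : ℕ) (c s ρ : ℝ) (B : Matrix (Fin k) (Fin k) ℝ) (t : Fin (m * k))
    (a : Fin k) :
    QQ m c s ρ B (Fin.natAdd k t) a = B (finProdFinEquiv.symm t).2 a / Real.sqrt m := by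
  simp [QQ]

lemma QQ_orth {k m : ℕ} (hm : 0 < m) (c s ρ : ℝ) (B : Matrix (Fin k) (Fin k) ℝ)
    (hB : ∀ a b : Fin k, ρ ^ 2 * ∑ l : Fin k, K c s a l * K c s b l +
      ∑ l, B l a * B l b = if a = b then 1 else 0) :
    (QQ m c s ρ B)ᵀ * (QQ m c s ρ B) = 1 := by
  ext a b
  rw [mul_apply, Fin.sum_univ_add]
  simp only [transpose_apply, QQ_left, QQ_right]
  rw [← finProdFinEquiv.sum_comp, Fintype.sum_prod_type]
  simp only [Equiv.symm_apply_apply]
  rw [one_apply, ← hB a b]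
  congr 1
  · rw [Finset.mul_sum]
    apply Finset.sum_congr rfl
    intro l _
    ring
  · rw [Finset.sum_const, Finset.card_univ, Fintype.card_fin, Finset.smul_sum]
    apply Finset.sum_congr rfl
    intro l _
    have hm' : (0 : ℝ) < m := by exact_mod_cast hm
    have h1 : Real.sqrt m * Real.sqrt m = m := Real.mul_self_sqrt hm'.le
    rw [nsmul_eq_mul, div_mul_div_comm, h1]
    field_simp

section span

variable {k n : ℕ} (Q : Matrix (Fin n) (Fin k) ℝ) (σ : Fin k → Fin n)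

/-- The span of the first `j` selected rows. -/
noncomputable def Sp (j : Fin k) : Submodule ℝ (EuclideanSpace ℝ (Fin k)) :=
  Submodule.span ℝ ((fun i : Fin k => (WithLp.toLp 2 (Q (σ i)) : EuclideanSpace ℝ (Fin k))) ''
    {i | i < j})

lemma mem_Sp {i j : Fin k} (h : i < j) : (WithLp.toLp 2 (Q (σ i)) : EuclideanSpace ℝ (Fin k)) ∈
    Sp Q σ j :=
  Submodule.subset_span ⟨i, h, rfl⟩

lemma Sp_apply_eq_zero (hupper : ∀ i a : Fin k, i < a → Q (σ i) a = 0) {j a : Fin k}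
    (hja : j ≤ a) {w : EuclideanSpace ℝ (Fin k)} (hw : w ∈ Sp Q σ j) : w a = 0 := by
  refine Submodule.span_induction (p := fun w _ => w a = 0) ?_ ?_ ?_ ?_ hw
  · rintro _ ⟨i, hi, rfl⟩
    exact hupper i a (lt_of_lt_of_le hi hja)
  · rfl
  · intro x y _ _ hx hy
    show x a + y a = 0
    rw [hx, hy, add_zero]
  · intro r x _ hx
    show r * x a = 0
    rw [hx, mul_zero]

lemma mem_Sp_of_zero (hupper : ∀ i a : Fin k, i < a → Q (σ i) a = 0)
    (hdiag : ∀ i : Fin k, Q (σ i) i ≠ 0) (j : Fin k) :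
    ∀ j' : ℕ, j' ≤ j → ∀ v : EuclideanSpace ℝ (Fin k), (∀ a : Fin k, j' ≤ (a : ℕ) → v a = 0) →
      v ∈ Sp Q σ j := by
  intro j'
  induction j' with
  | zero =>
    intro _ v hv
    have : v = 0 := by
      ext a
      exact hv a (Nat.zero_le _)
    rw [this]
    exact Submodule.zero_mem _
  | succ j' ih =>
    intro hj' v hv
    have hj'k : j' < k := lt_of_lt_of_le (Nat.lt_of_succ_le hj') j.isLt.le
    set b : Fin k := ⟨j', hj'k⟩ with hb
    have hbj : b < j := Nat.lt_of_succ_le hj'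
    set q : EuclideanSpace ℝ (Fin k) := WithLp.toLp 2 (Q (σ b)) with hq
    have hv' : v - (v b / Q (σ b) b) • q ∈ Sp Q σ j := by
      apply ih (by omega)
      intro a ha
      show v a - (v b / Q (σ b) b) * Q (σ b) a = 0
      rcases Nat.eq_or_lt_of_le ha with h | h
      · have : a = b := by ext; exact h.symm
        rw [this]
        field_simp [hdiag b]
        ring
      · rw [hv a h, hupper b a h]
        ring
    have := Submodule.add_mem _ hv' (Submodule.smul_mem _ (v b / Q (σ b) b) (mem_Sp Q σ hbj))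
    simpa [hq] using this

lemma infDist_le (hupper : ∀ i a : Fin k, i < a → Q (σ i) a = 0)
    (hdiag : ∀ i : Fin k, Q (σ i) i ≠ 0) (j : Fin k) (v : Fin k → ℝ) {t : ℝ} (ht : 0 ≤ t)
    (hv : ∑ i, (if j ≤ i then v i ^ 2 else 0) ≤ t ^ 2) :
    Metric.infDist (WithLp.toLp 2 v : EuclideanSpace ℝ (Fin k)) (Sp Q σ j : Set _) ≤ t := by
  set w : EuclideanSpace ℝ (Fin k) := WithLp.toLp 2 (fun i => if j ≤ i then 0 else v i) with hw
  have hmem : w ∈ Sp Q σ j := by
    apply mem_Sp_of_zero Q σ hupper hdiag j j le_rfl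
    intro a ha
    have : j ≤ a := ha
    simp [hw, this]
  refine (Metric.infDist_le_dist_of_mem hmem).trans ?_
  rw [EuclideanSpace.dist_eq]
  apply Real.sqrt_le_iff.mpr
  refine ⟨ht, le_trans (le_of_eq ?_) hv⟩
  apply Finset.sum_congr rfl
  intro i _
  simp only [hw, Real.dist_eq, sq_abs]
  by_cases h : j ≤ i
  · simp [h]
  · simp [h]

lemma le_infDist (hupper : ∀ i a : Fin k, i < a → Q (σ i) a = 0) (j : Fin k) :
    |Q (σ j) j| ≤ Metric.infDist (WithLp.toLp 2 (Q (σ j)) : EuclideanSpace ℝ (Fin k))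
      (Sp Q σ j : Set _) := by
  rw [Metric.le_infDist ⟨0, Submodule.zero_mem _⟩]
  intro y hy
  have h1 : y j = 0 := Sp_apply_eq_zero Q σ hupper le_rfl hy
  rw [dist_eq_norm]
  have h2 := PiLp.norm_apply_le (WithLp.toLp 2 (Q (σ j)) - y : EuclideanSpace ℝ (Fin k)) j
  have h3 : (WithLp.toLp 2 (Q (σ j)) - y : EuclideanSpace ℝ (Fin k)) j = Q (σ j) j := by
    show Q (σ j) j - y j = _
    rw [h1, sub_zero]
  rw [h3, Real.norm_eq_abs] at h2
  exact h2

end span

end Pool.Agent.H7.QRCP
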