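import Mathlib

set_option autoImplicit false

namespace Pool.Agent.H7

open Set Filter Topology Function

/-- An injective holomorphic function on an open set is not eventually constant. -/
lemma not_eventually_const {f : ℂ → ℂ} {U : Set ℂ} (hU : IsOpen U) (hinj : InjOn f U) {z : ℂ}
    (hz : z ∈ U) : ¬ (∀ᶠ w in 𝓝 z, f w = f z) := by
  intro h
  have h1 : ∀ᶠ w in 𝓝 z, w = z := by
    filter_upwards [h, hU.mem_nhds hz] with w hw hwU
    exact hinj hwU hz hw
  have h2 : ({z} : Set ℂ) ∈ 𝓝 z := h1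
  have h3 : (𝓝[≠] z).NeBot := inferInstance
  have h4 : ({z}ᶜ : Set ℂ) ∈ 𝓝[≠] z := self_mem_nhdsWithin
  have h5 : ({z} : Set ℂ) ∈ 𝓝[≠] z := mem_nhdsWithin_of_mem_nhds h2
  have h6 := Filter.inter_mem h5 h4
  rw [Set.inter_compl_self] at h6
  exact h3.ne (Filter.empty_mem_iff_bot.mp h6)

lemma nhds_le_map {f : ℂ → ℂ} {U : Set ℂ} (hU : IsOpen U) (hf : DifferentiableOn ℂ f U)
    (hinj : InjOn f U) {z : ℂ} (hz : z ∈ U) : 𝓝 (f z) ≤ map f (𝓝 z) := by
  have ha : AnalyticAt ℂ f z := hf.analyticAt (hU.mem_nhds hz)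
  rcases ha.eventually_constant_or_nhds_le_map_nhds with h | h
  · exact absurd h (not_eventually_const hU hinj hz)
  · exact h

lemma isOpen_image {f : ℂ → ℂ} {U V : Set ℂ} (hU : IsOpen U) (hf : DifferentiableOn ℂ f U)
    (hinj : InjOn f U) (hVU : V ⊆ U) (hV : IsOpen V) : IsOpen (f '' V) := by
  rw [isOpen_iff_mem_nhds]
  rintro _ ⟨z, hz, rfl⟩
  apply nhds_le_map hU hf hinj (hVU hz)
  rw [mem_map]
  filter_upwards [hV.mem_nhds hz] with w hw
  exact ⟨w, hw, rfl⟩

lemma continuousAt_inv {f g : ℂ → ℂ} {U : Set ℂ} (hU : IsOpen U) (hf : DifferentiableOn ℂ f U)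
    (hinj : InjOn f U) (hg : ∀ z ∈ U, g (f z) = z) {z : ℂ} (hz : z ∈ U) :
    ContinuousAt g (f z) := by
  have h := nhds_le_map hU hf hinj hz
  unfold ContinuousAt
  rw [hg z hz]
  refine Tendsto.mono_left ?_ h
  rw [tendsto_map'_iff]
  refine Tendsto.congr' ?_ tendsto_id
  filter_upwards [hU.mem_nhds hz] with w hw
  simp [hg w hw]

lemma right_inv_eventually {f g : ℂ → ℂ} {U : Set ℂ} (hU : IsOpen U) (hf : DifferentiableOn ℂ f U)
    (hinj : InjOn f U) (hg : ∀ z ∈ U, g (f z) = z) {z : ℂ} (hz : z ∈ U) :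
    ∀ᶠ w in 𝓝 (f z), f (g w) = w ∧ g w ∈ U := by
  have h : f '' U ∈ 𝓝 (f z) := (isOpen_image hU hf hinj subset_rfl hU).mem_nhds ⟨z, hz, rfl⟩
  filter_upwards [h]
  rintro _ ⟨x, hx, rfl⟩
  rw [hg x hx]
  exact ⟨rfl, hx⟩

lemma hasDerivAt_inv {f g : ℂ → ℂ} {U : Set ℂ} (hU : IsOpen U) (hf : DifferentiableOn ℂ f U)
    (hinj : InjOn f U) (hg : ∀ z ∈ U, g (f z) = z) {z : ℂ} (hz : z ∈ U) (hd : deriv f z ≠ 0) :
    HasDerivAt g (deriv f z)⁻¹ (f z) := by
  apply HasDerivAt.of_local_left_inverse (f := f) (continuousAt_inv hU hf hinj hg hz)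
  · rw [hg z hz]
    exact (hf.differentiableAt (hU.mem_nhds hz)).hasDerivAt
  · exact hd
  · filter_upwards [right_inv_eventually hU hf hinj hg hz] with w hw using hw.1

lemma deriv_eventually_ne {f : ℂ → ℂ} {U : Set ℂ} (hU : IsOpen U) (hf : DifferentiableOn ℂ f U)
    (hinj : InjOn f U) {z : ℂ} (hz : z ∈ U) : ∀ᶠ w in 𝓝[≠] z, deriv f w ≠ 0 := by
  have ha : AnalyticAt ℂ (deriv f) z := (hf.analyticAt (hU.mem_nhds hz)).deriv
  rcases ha.eventually_eq_zero_or_eventually_ne_zero with h | h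
  · exfalso
    apply not_eventually_const hU hinj hz
    obtain ⟨ε, hε, hball⟩ := Metric.eventually_nhds_iff_ball.mp (h.and (hU.mem_nhds hz))
    filter_upwards [Metric.ball_mem_nhds z hε] with w hw
    refine Convex.is_const_of_fderivWithin_eq_zero (𝕜 := ℂ) (convex_ball z ε) (f := f) ?_ ?_ hw (Metric.mem_ball_self hε)
    · intro x hx
      exact (hf.differentiableAt (hU.mem_nhds (hball x hx).2)).differentiableWithinAt
    · intro x hx
      rw [fderivWithin_of_isOpen Metric.isOpen_ball hx]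
      have hd := (hball x hx).1
      have := hf.differentiableAt (hU.mem_nhds (hball x hx).2)
      ext
      rw [fderiv_apply_one_eq_deriv, hd]
      rfl
  · exact h

lemma analyticAt_inv {f g : ℂ → ℂ} {U : Set ℂ} (hU : IsOpen U) (hf : DifferentiableOn ℂ f U)
    (hinj : InjOn f U) (hg : ∀ z ∈ U, g (f z) = z) {z : ℂ} (hz : z ∈ U) :
    AnalyticAt ℂ g (f z) := by
  apply Complex.analyticAt_of_differentiable_on_punctured_nhds_of_continuousAt _
    (continuousAt_inv hU hf hinj hg hz)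
  have h1 := deriv_eventually_ne hU hf hinj hz
  have hc := continuousAt_inv hU hf hinj hg hz
  have h2 := right_inv_eventually hU hf hinj hg hz
  have h3 : Tendsto g (𝓝[≠] (f z)) (𝓝[≠] z) := by
    rw [tendsto_nhdsWithin_iff]
    constructor
    · have := hc.tendsto
      rw [hg z hz] at this
      exact this.mono_left nhdsWithin_le_nhds
    · filter_upwards [nhdsWithin_le_nhds h2, self_mem_nhdsWithin] with w hw hw'
      intro h
      apply hw'
      rw [Set.mem_singleton_iff] at h ⊢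
      rw [← hw.1, h]
  filter_upwards [h3.eventually h1, nhdsWithin_le_nhds h2] with w hw hw2
  have := hasDerivAt_inv hU hf hinj hg hw2.2 hw
  rw [hw2.1] at this
  exact this.differentiableAt

/-- The derivative of an injective holomorphic function does not vanish. -/
theorem deriv_ne_zero_of_injOn {f : ℂ → ℂ} {U : Set ℂ} (hU : IsOpen U)
    (hf : DifferentiableOn ℂ f U) (hinj : InjOn f U) {z : ℂ} (hz : z ∈ U) : deriv f z ≠ 0 := by
  set g := invFunOn f U
  have hg : ∀ z ∈ U, g (f z) = z := fun z hz => hinj.leftInvOn_invFunOn hz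
  have h1 := (analyticAt_inv hU hf hinj hg hz).differentiableAt.hasDerivAt
  have h2 := (hf.differentiableAt (hU.mem_nhds hz)).hasDerivAt
  have h3 := h1.comp z h2
  have h4 : HasDerivAt (g ∘ f) 1 z := by
    apply (hasDerivAt_id z).congr_of_eventuallyEq
    filter_upwards [hU.mem_nhds hz] with w hw
    simp [hg w hw]
  have h5 := h3.unique h4
  intro h0
  rw [h0, mul_zero] at h5
  exact zero_ne_one h5

end Pool.Agent.H7
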